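import Pool.Agent.Lib.MP_181146_gt.HB.Lift

/-!
# Project HB, modules TelC, TelF, TelQ, TelX (helper80)
-/

set_option autoImplicit false

namespace HBy

open HEp HRx

/-- Finitely supported lifts. -/
lemma fs_lift {V W : Type} [AddCommGroup V] [AddCommGroup W] (f : V →+ W) (P : V → Prop) (h0 : P 0)
    (y : ℕ →₀ W) (h : ∀ k, ∃ w, P w ∧ f w = y k) :
    ∃ w : ℕ →₀ V, (∀ k, P (w k)) ∧ Finsupp.mapRange f (map_zero f) w = y := by
  classical
  choose w hw hw' using h
  refine ⟨Finsupp.onFinset y.support (fun k => if y k = 0 then 0 else w k) ?_, ?_, ?_⟩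
  · intro k hk
    rw [Finsupp.mem_support_iff]
    intro h
    exact hk (if_pos h)
  · intro k
    rw [Finsupp.onFinset_apply]
    split_ifs
    · exact h0
    · exact hw k
  · ext k
    rw [Finsupp.mapRange_apply, Finsupp.onFinset_apply]
    split_ifs with h
    · rw [map_zero, h]
    · exact hw' k

section

variable {R : Type} [CommRing R] {T : GC R} (E : En T)

/-- The pair `(x, y)` as an element of the telescope. -/
def tp (x y : ℕ →₀ T.V) : (tel E).V := (x, y)

lemma tel_d1 (x y : ℕ →₀ T.V) (k : ℕ) :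
    ((tel E).d (x, y)).1 (k + 1) = T.d (x (k + 1)) + y (k + 1) - E.e (y k) := by
  rw [tel_d]
  change T.d (x (k + 1)) + y (k + 1) -
    Finsupp.mapDomain Nat.succ (Finsupp.mapRange E.e (map_zero E.e) y) (Nat.succ k) = _
  rw [Finsupp.mapDomain_apply Nat.succ_injective]
  rfl

lemma tel_d0 (x y : ℕ →₀ T.V) : ((tel E).d (x, y)).1 0 = T.d (x 0) + y 0 := by
  rw [tel_d]
  change T.d (x 0) + y 0 -
    Finsupp.mapDomain Nat.succ (Finsupp.mapRange E.e (map_zero E.e) y) 0 = _
  rw [Finsupp.mapDomain_of_notMem_range, sub_zero]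
  rintro ⟨j, hj⟩
  exact Nat.succ_ne_zero j hj

lemma tel_d2 (x y : ℕ →₀ T.V) (k : ℕ) : ((tel E).d (x, y)).2 k = -(T.d (y k)) := rfl

lemma tj_ch (n : ℕ) : LCh T (tel E) (tj E n) := by
  refine ⟨fun i x hx => ?_, fun x => ?_⟩
  · refine (tel_G E i (Finsupp.single n x) 0).2 ⟨fun k => ?_, fun k => (T.G (i - 1)).zero_mem⟩
    rw [Finsupp.single_apply]
    split_ifs
    · exact hx
    · exact (T.G i).zero_mem
  · change (Finsupp.single n (T.d x), (0 : ℕ →₀ T.V)) = (tel E).d (Finsupp.single n x, 0)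
    refine Prod.ext ?_ ?_
    · ext k
      cases k with
      | zero =>
        rw [tel_d0, Finsupp.single_apply, Finsupp.single_apply, apply_ite T.d, map_zero,
          Finsupp.zero_apply, add_zero]
      | succ k =>
        rw [tel_d1, Finsupp.single_apply, Finsupp.single_apply, apply_ite T.d, map_zero,
          Finsupp.zero_apply, Finsupp.zero_apply, map_zero, add_zero, sub_zero]
    · ext k
      rw [tel_d2, Finsupp.zero_apply, map_zero, neg_zero]

lemma tj_step (i : ℤ) (n : ℕ) (x : T.V) (hx : T.Cyc i x) :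
    (tel E).Bdy i (tj E n x - tj E (n + 1) (E.e x)) := by
  refine ⟨(0, Finsupp.single n x), ?_, ?_⟩
  · refine (tel_G E (i + 1) _ _).2 ⟨fun k => (T.G (i + 1)).zero_mem, fun k => ?_⟩
    rw [add_sub_cancel_right, Finsupp.single_apply]
    split_ifs
    · exact hx.1
    · exact (T.G i).zero_mem
  · change (tel E).d (0, Finsupp.single n x) = (Finsupp.single n x, (0 : ℕ →₀ T.V)) -
      (Finsupp.single (n + 1) (E.e x), (0 : ℕ →₀ T.V))
    refine Prod.ext ?_ ?_
    · ext k
      change ((tel E).d (0, Finsupp.single n x)).1 k =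
        Finsupp.single n x k - Finsupp.single (n + 1) (E.e x) k
      cases k with
      | zero =>
        rw [tel_d0, Finsupp.zero_apply, map_zero, zero_add, Finsupp.single_apply (a := n + 1),
          if_neg (Nat.succ_ne_zero n), sub_zero]
      | succ k =>
        rw [tel_d1, Finsupp.zero_apply, map_zero, zero_add]
        congr 1
        rw [Finsupp.single_apply, Finsupp.single_apply, apply_ite E.e, map_zero]
        by_cases h : n = k
        · rw [if_pos h, if_pos (by rw [h])]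
        · rw [if_neg h, if_neg (fun h' => h (Nat.succ_injective h'))]
    · ext k
      change ((tel E).d (0, Finsupp.single n x)).2 k = (0 : T.V) - 0
      rw [tel_d2, Finsupp.single_apply]
      split_ifs
      · rw [hx.2, neg_zero, sub_zero]
      · rw [map_zero, neg_zero, sub_zero]

lemma e_cyc {i : ℤ} {x : T.V} (hx : T.Cyc i x) : T.Cyc i (E.e x) :=
  ⟨E.he i x hx.1, by rw [← E.hed, hx.2, map_zero]⟩

lemma e_bdy {i : ℤ} {x : T.V} (hx : T.Bdy i x) : T.Bdy i (E.e x) := by
  obtain ⟨y, hy, rfl⟩ := hx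
  exact ⟨E.e y, E.he _ y hy, (E.hed y).symm⟩

lemma ep_cyc {i : ℤ} {x : T.V} (hx : T.Cyc i x) (k : ℕ) :
    T.Cyc i (((E.e : Module.End R T.V) ^ k) x) := by
  induction k with
  | zero => exact hx
  | succ k ih =>
    rw [pow_succ', Module.End.mul_apply]
    exact e_cyc E ih

lemma ep_bdy {i : ℤ} {x : T.V} (hx : T.Bdy i x) (k : ℕ) :
    T.Bdy i (((E.e : Module.End R T.V) ^ k) x) := by
  induction k with
  | zero => exact hx
  | succ k ih =>
    rw [pow_succ', Module.End.mul_apply]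
    exact e_bdy E ih

lemma tj_move (i : ℤ) (n : ℕ) (x : T.V) (hx : T.Cyc i x) (k : ℕ) :
    (tel E).Bdy i (tj E n x - tj E (n + k) (((E.e : Module.End R T.V) ^ k) x)) := by
  induction k with
  | zero =>
    change (tel E).Bdy i (tj E n x - tj E n x)
    rw [sub_self]
    exact bdy_zero _ i
  | succ k ih =>
    rw [pow_succ', Module.End.mul_apply, ← add_assoc]
    have h := bdy_add ih (tj_step E i (n + k) _ (ep_cyc E hx k))
    rwa [sub_add_sub_cancel] at h

/-- The weighted sum up to the stage `K`. -/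
def Phs : ℕ → (ℕ →₀ T.V) → T.V
  | 0, z => z 0
  | K + 1, z => E.e (Phs K z) + z (K + 1)

lemma Phs_d (K : ℕ) (a b : ℕ →₀ T.V) :
    Phs E K ((tel E).d (a, b)).1 = T.d (Phs E K a) + b K := by
  induction K with
  | zero =>
    change ((tel E).d (a, b)).1 0 = T.d (a 0) + b 0
    rw [tel_d0]
  | succ K ih =>
    change E.e (Phs E K ((tel E).d (a, b)).1) + ((tel E).d (a, b)).1 (K + 1) =
      T.d (E.e (Phs E K a) + a (K + 1)) + b (K + 1)
    rw [ih, tel_d1, map_add E.e, map_add T.d, E.hed]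
    abel

lemma Phs_G (K : ℕ) (i : ℤ) (a : ℕ →₀ T.V) (ha : ∀ k, a k ∈ T.G i) : Phs E K a ∈ T.G i := by
  induction K with
  | zero => exact ha 0
  | succ K ih => exact (T.G i).add_mem (E.he i _ ih) (ha _)

lemma Phs_lt (K n : ℕ) (x : T.V) (h : K < n) : Phs E K (Finsupp.single n x) = 0 := by
  induction K with
  | zero =>
    change Finsupp.single n x 0 = 0
    rw [Finsupp.single_apply, if_neg (by omega)]
  | succ K ih =>
    change E.e (Phs E K (Finsupp.single n x)) + Finsupp.single n x (K + 1) = 0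
    rw [ih (by omega), map_zero, Finsupp.single_apply, if_neg (by omega), add_zero]

lemma Phs_single (k n : ℕ) (x : T.V) :
    Phs E (n + k) (Finsupp.single n x) = ((E.e : Module.End R T.V) ^ k) x := by
  induction k with
  | zero =>
    cases n with
    | zero =>
      change Finsupp.single 0 x 0 = x
      rw [Finsupp.single_eq_same]
    | succ n =>
      change E.e (Phs E n (Finsupp.single (n + 1) x)) + Finsupp.single (n + 1) x (n + 1) = x
      rw [Phs_lt E n (n + 1) x (by omega), map_zero, zero_add, Finsupp.single_eq_same]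
  | succ k ih =>
    change E.e (Phs E (n + k) (Finsupp.single n x)) + Finsupp.single n x (n + k + 1) = _
    rw [ih, Finsupp.single_apply, if_neg (by omega), add_zero, pow_succ', Module.End.mul_apply]

lemma tj_bdy (i : ℤ) (n : ℕ) (x : T.V) (hx : T.Cyc i x) : (tel E).Bdy i (tj E n x) ↔
    ∃ k : ℕ, T.Bdy i (((E.e : Module.End R T.V) ^ k) x) := by
  constructor
  · rintro ⟨⟨a, b⟩, hab0, h⟩
    have hab := (tel_G E (i + 1) a b).1 hab0
    obtain ⟨K, hK⟩ : ∃ K, ∀ k, K ≤ k → b k = 0 := by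
      refine ⟨b.support.sup id + 1, fun k hk => ?_⟩
      by_contra h0
      have h1 : k ≤ b.support.sup id :=
        Finset.le_sup (f := id) (Finsupp.mem_support_iff.2 h0)
      omega
    refine ⟨K, Phs E (n + K) a, Phs_G E _ _ a hab.1, ?_⟩
    have h1 := Phs_d E (n + K) a b
    rw [h, hK (n + K) (by omega), add_zero] at h1
    have h2 : Phs E (n + K) (Finsupp.single n x) = T.d (Phs E (n + K) a) := h1
    rw [Phs_single] at h2
    exact h2.symm
  · rintro ⟨k, hk⟩
    have h1 := tj_move E i n x hx k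
    have h2 := ch_bdy (tj_ch E (n + k)) hk
    have h3 := bdy_add h1 h2
    change (tel E).Bdy i (tj E n x - tj E (n + k) _ + tj E (n + k) _) at h3
    rwa [sub_add_cancel] at h3

lemma tj_sum (i : ℤ) (x : ℕ →₀ T.V) (hx : ∀ k, T.Cyc i (x k)) (s : Finset ℕ) :
    ∃ n z, T.Cyc i z ∧ (tel E).Bdy i (∑ k ∈ s, tj E k (x k) - tj E n z) := by
  induction s using Finset.induction_on with
  | empty =>
    refine ⟨0, 0, ⟨(T.G i).zero_mem, map_zero _⟩, ?_⟩
    rw [Finset.sum_empty, map_zero, sub_zero]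
    exact bdy_zero _ i
  | insert k s hk ih =>
    obtain ⟨n, z, hz, hb⟩ := ih
    refine ⟨n + k, ((E.e : Module.End R T.V) ^ k) z + ((E.e : Module.End R T.V) ^ n) (x k),
      cyc_add (ep_cyc E hz k) (ep_cyc E (hx k) n), ?_⟩
    have h1 := tj_move E i n z hz k
    have h2 := tj_move E i k (x k) (hx k) n
    rw [Finset.sum_insert hk, map_add]
    have h3 := bdy_add (bdy_add hb h1) h2
    rw [add_comm k n] at h3
    have e : ∀ a b c d f : (tel E).V, a - b + (b - c) + (d - f) = d + a - (c + f) := by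
      intros
      abel
    rwa [e] at h3

lemma tel_cyc (i : ℤ) (t : (tel E).V) (ht : (tel E).Cyc i t) :
    ∃ n x, T.Cyc i x ∧ (tel E).Bdy i (t - tj E n x) := by
  obtain ⟨x, y⟩ := t
  obtain ⟨hG0, hd⟩ := ht
  have hG := (tel_G E i x y).1 hG0
  have hy : ∀ k, T.Bdy (i - 1) (y k) := by
    intro k
    induction k with
    | zero =>
      have h1 : T.d (x 0) + y 0 = 0 := by
        rw [← tel_d0 E, hd]
        rfl
      refine ⟨-(x 0), ?_, ?_⟩
      · rw [sub_add_cancel]
        exact (T.G i).neg_mem (hG.1 0)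
      · rw [map_neg]
        exact (eq_neg_of_add_eq_zero_right h1).symm
    | succ k ih =>
      have h1 : T.d (x (k + 1)) + y (k + 1) - E.e (y k) = 0 := by
        rw [← tel_d1 E, hd]
        rfl
      have h2 : T.Bdy (i - 1) (T.d (x (k + 1))) := ⟨x (k + 1), by
        rw [sub_add_cancel]
        exact hG.1 _, rfl⟩
      have h3 : y (k + 1) = E.e (y k) - T.d (x (k + 1)) := by
        rw [← sub_eq_zero, ← h1]
        abel
      rw [h3]
      exact bdy_sub (e_bdy E ih) h2
  obtain ⟨w, hw, hwy⟩ := fs_lift T.d.toAddMonoidHom (fun w => w ∈ T.G i) (T.G i).zero_mem y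
    (fun k => by
      obtain ⟨w, hw, h⟩ := hy k
      rw [sub_add_cancel] at hw
      exact ⟨w, hw, h⟩)
  have hwy' : ∀ k, T.d (w k) = y k := fun k => by
    have h1 := DFunLike.congr_fun hwy k
    exact h1
  have hdw : ((tel E).d (0, w)).2 = -y := by
    ext k
    rw [tel_d2, hwy']
    rfl
  set x' : ℕ →₀ T.V := x + ((tel E).d (0, w)).1 with hx'
  have hdt : (tel E).d (x', 0) = 0 := by
    have h1 : (tel E).d (tp E x y + (tel E).d (0, w)) = 0 := by
      rw [map_add, (tel E).dd, add_zero]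
      exact hd
    have h2 : tp E x y + (tel E).d (0, w) = tp E x' 0 := by
      refine Prod.ext rfl ?_
      change y + ((tel E).d (0, w)).2 = 0
      rw [hdw, add_neg_cancel]
    rw [h2] at h1
    exact h1
  have hx'G : ∀ k, x' k ∈ T.G i := by
    have h1 : (tel E).d (0, w) ∈ (tel E).G i := by
      have h2 : ((0 : ℕ →₀ T.V), w) ∈ (tel E).G (i + 1) := by
        refine (tel_G E (i + 1) _ _).2 ⟨fun k => (T.G _).zero_mem, fun k => ?_⟩
        rw [add_sub_cancel_right]
        exact hw k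
      have h3 := (tel E).dG _ _ h2
      rwa [add_sub_cancel_right] at h3
    intro k
    exact (T.G i).add_mem (hG.1 k) (h1.1 k)
  have hx'c : ∀ k, T.Cyc i (x' k) := by
    intro k
    refine ⟨hx'G k, ?_⟩
    have h1 : ((tel E).d (x', 0)).1 k = 0 := by
      rw [hdt]
      rfl
    cases k with
    | zero =>
      rw [tel_d0, Finsupp.zero_apply, add_zero] at h1
      exact h1
    | succ k =>
      rw [tel_d1, Finsupp.zero_apply, Finsupp.zero_apply, map_zero, add_zero, sub_zero] at h1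
      exact h1
  obtain ⟨n, z, hz, hb⟩ := tj_sum E i x' hx'c x'.support
  refine ⟨n, z, hz, ?_⟩
  have h1 : ∑ k ∈ x'.support, tj E k (x' k) = tp E x' 0 := by
    have h2 : (∑ k ∈ x'.support, Finsupp.single k (x' k)) = x' := Finsupp.sum_single x'
    have h3 : tp E x' 0 = LinearMap.inl R (ℕ →₀ T.V) (ℕ →₀ T.V)
        (∑ k ∈ x'.support, Finsupp.single k (x' k)) := by
      rw [h2]
      rfl
    rw [h3, map_sum]
    rfl
  rw [h1] at hb
  have h2 : (tel E).Bdy i ((tel E).d (0, w)) := by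
    refine ⟨(0, w), ?_, rfl⟩
    refine (tel_G E (i + 1) _ _).2 ⟨fun k => (T.G _).zero_mem, fun k => ?_⟩
    rw [add_sub_cancel_right]
    exact hw k
  have h3 := bdy_sub hb h2
  have h4 : tp E x' 0 - tj E n z - (tel E).d (0, w) = tp E x y - tj E n z := by
    have h5 : tp E x y + (tel E).d (0, w) = tp E x' 0 := by
      refine Prod.ext rfl ?_
      change y + ((tel E).d (0, w)).2 = 0
      rw [hdw, add_neg_cancel]
    rw [← h5]
    abel
  rw [h4] at h3
  exact h3

end

theorem sTelC : S_TelC := by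
  intro R _ T E
  exact ⟨tj_ch E, tel_cyc E, tj_bdy E, tj_step E⟩

section

variable {R : Type} [CommRing R] {T : GC R}

/-- `f` preserves degrees and commutes with `d`. -/
def ChE (T : GC R) (f : Module.End R T.V) : Prop :=
  (∀ i, ∀ x ∈ T.G i, f x ∈ T.G i) ∧ ∀ x, f (T.d x) = T.d (f x)

lemma ChE.one : ChE T 1 := ⟨fun _ _ hx => hx, fun _ => rfl⟩

lemma ChE.mul {f g : Module.End R T.V} (hf : ChE T f) (hg : ChE T g) : ChE T (f * g) :=
  ⟨fun i x hx => hf.1 i _ (hg.1 i x hx), fun x => by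
    rw [Module.End.mul_apply, Module.End.mul_apply, hg.2, hf.2]⟩

lemma ChE.add {f g : Module.End R T.V} (hf : ChE T f) (hg : ChE T g) : ChE T (f + g) :=
  ⟨fun i x hx => (T.G i).add_mem (hf.1 i x hx) (hg.1 i x hx), fun x => by
    rw [LinearMap.add_apply, LinearMap.add_apply, hf.2, hg.2, map_add]⟩

lemma ChE.sub {f g : Module.End R T.V} (hf : ChE T f) (hg : ChE T g) : ChE T (f - g) :=
  ⟨fun i x hx => (T.G i).sub_mem (hf.1 i x hx) (hg.1 i x hx), fun x => by
    rw [LinearMap.sub_apply, LinearMap.sub_apply, hf.2, hg.2, map_sub]⟩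

lemma ChE.zero : ChE T 0 := ⟨fun i x _ => (T.G i).zero_mem, fun x => by
  rw [LinearMap.zero_apply, LinearMap.zero_apply, map_zero]⟩

lemma ChE.pow {f : Module.End R T.V} (hf : ChE T f) (k : ℕ) : ChE T (f ^ k) := by
  induction k with
  | zero =>
    rw [pow_zero]
    exact ChE.one
  | succ k ih =>
    rw [pow_succ]
    exact ih.mul hf

lemma ChE.sum {s : Finset ℕ} {f : ℕ → Module.End R T.V} (hf : ∀ k ∈ s, ChE T (f k)) :
    ChE T (∑ k ∈ s, f k) := by
  classical
  induction s using Finset.induction_on with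
  | empty =>
    rw [Finset.sum_empty]
    exact ChE.zero
  | insert k s hk ih =>
    rw [Finset.sum_insert hk]
    exact (hf k (Finset.mem_insert_self _ _)).add
      (ih fun j hj => hf j (Finset.mem_insert_of_mem hj))

lemma ChE.e (E : En T) : ChE T (E.e : Module.End R T.V) := ⟨E.he, E.hed⟩

lemma ChE.cyc {f : Module.End R T.V} (hf : ChE T f) {i : ℤ} {x : T.V} (hx : T.Cyc i x) :
    T.Cyc i (f x) := ⟨hf.1 i x hx.1, by rw [← hf.2, hx.2, map_zero]⟩

lemma ChE.bdy {f : Module.End R T.V} (hf : ChE T f) {i : ℤ} {x : T.V} (hx : T.Bdy i x) :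
    T.Bdy i (f x) := by
  obtain ⟨y, hy, rfl⟩ := hx
  exact ⟨f y, hf.1 _ y hy, (hf.2 y).symm⟩

/-- With the Fitting condition: `e ^ m x ~ e ^ m (e ^ n y)`. -/
lemma fit_key (E : En T) (hE : E.Fit) : ∃ (m : ℕ) (q : Module.End R T.V), ChE T q ∧
    ∀ (n : ℕ) (i : ℤ) (x : T.V), T.Cyc i x →
      T.Bdy i (((E.e : Module.End R T.V) ^ m) x -
        ((E.e : Module.End R T.V) ^ m) (((E.e : Module.End R T.V) ^ n) ((q ^ n) x))) := by
  obtain ⟨m, hm⟩ := hE
  set e : Module.End R T.V := E.e with he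
  have hce : ChE T e := ChE.e E
  set q : Module.End R T.V := ∑ j ∈ Finset.range m, (1 - e) ^ j with hq
  have hcq : ChE T q := ChE.sum fun k _ => (ChE.one.sub hce).pow k
  have h1 : e * q = 1 - (1 - e) ^ m := by
    have h := mul_neg_geom_sum (1 - e) m
    rwa [sub_sub_cancel] at h
  have hcomm : Commute e (1 - e) := (Commute.one_right e).sub_right (Commute.refl e)
  have hcomq : Commute e q := by
    rw [hq]
    exact Commute.sum_right _ _ _ fun j _ => hcomm.pow_right j
  have h2 : e ^ m - e ^ m * (e * q) = (e * (1 - e)) ^ m := by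
    rw [h1, mul_sub, mul_one, sub_sub_cancel, hcomm.mul_pow]
  have h3 : ∀ (i : ℤ) (x : T.V), T.Cyc i x → T.Bdy i ((e ^ m) x - (e ^ m) (e (q x))) := by
    intro i x hx
    have h := hm i x hx
    rw [← h2] at h
    exact h
  refine ⟨m, q, hcq, fun n i x hx => ?_⟩
  induction n with
  | zero =>
    change T.Bdy i ((e ^ m) x - (e ^ m) x)
    rw [sub_self]
    exact bdy_zero _ _
  | succ n ih =>
    have h4 := h3 i ((e ^ n) ((q ^ n) x)) (((hce.pow n).cyc ((hcq.pow n).cyc hx)))
    have h5 := bdy_add ih h4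
    rw [sub_add_sub_cancel] at h5
    have h6 : (e ^ m) (e (q ((e ^ n) ((q ^ n) x)))) = (e ^ m) ((e ^ (n + 1)) ((q ^ (n + 1)) x)) := by
      have h7 : e * (q * (e ^ n * q ^ n)) = e ^ (n + 1) * q ^ (n + 1) := by
        have h8 : Commute q (e ^ n) := (hcomq.pow_left n).symm
        rw [← mul_assoc q, h8.eq, pow_succ' e n, pow_succ' q n, mul_assoc, mul_assoc]
      have h9 := LinearMap.congr_fun h7 x
      exact congrArg _ h9
    rwa [h6] at h5

end

theorem sTelF : S_TelF := by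
  intro R _ T E hE
  have h0 : ∀ i t, (tel E).Cyc i t → ∃ x, T.Cyc i x ∧ (tel E).Bdy i (t - tj E 0 x) := by
    intro i t ht
    obtain ⟨n, x, hx, hb⟩ := tel_cyc E i t ht
    obtain ⟨m, q, hq, hm⟩ := fit_key E hE
    have hce : ChE T (E.e : Module.End R T.V) := ChE.e E
    refine ⟨(q ^ n) x, (hq.pow n).cyc hx, ?_⟩
    have h1 := tj_move E i 0 _ ((hq.pow n).cyc hx) n
    rw [zero_add] at h1
    have h2 : (tel E).Bdy i (tj E n (x - ((E.e : Module.End R T.V) ^ n) ((q ^ n) x))) := by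
      rw [tj_bdy E i n _ (cyc_sub hx ((hce.pow n).cyc ((hq.pow n).cyc hx)))]
      refine ⟨m, ?_⟩
      rw [map_sub]
      exact hm n i x hx
    rw [map_sub] at h2
    have h3 := bdy_sub (bdy_add hb h2) h1
    have e : ∀ a b c d : (tel E).V, a - b + (b - c) - (d - c) = a - d := by
      intros
      abel
    rwa [e] at h3
  refine ⟨h0, ?_⟩
  rintro ⟨N, hN⟩
  refine ⟨N, fun i t hi ht => ?_⟩
  obtain ⟨x, hx, hb⟩ := h0 i t ht
  have h1 := bdy_add hb (ch_bdy (tj_ch E 0) (hN i x hi hx))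
  change (tel E).Bdy i (t - tj E 0 x + tj E 0 x) at h1
  rwa [sub_add_cancel] at h1

section

variable {R R' : Type} [CommRing R] [CommRing R'] {T : GC R} {T' : GC R'}

lemma tm_ch (E : En T) (E' : En T') (f : T.V →+ T'.V) (hc : ∀ x, f (E.e x) = E'.e (f x))
    (hf : IsCh T T' f) : IsCh (tel E) (tel E') (tm E E' f) := by
  refine ⟨?_, ?_⟩
  · rintro i ⟨x, y⟩ hxy0
    have hxy := (tel_G E i x y).1 hxy0
    rw [tm_apply]
    exact (tel_G E' i _ _).2 ⟨fun k => hf.1 i _ (hxy.1 k), fun k => hf.1 (i - 1) _ (hxy.2 k)⟩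
  · rintro ⟨x, y⟩
    rw [tm_apply]
    refine Prod.ext ?_ ?_
    · ext k
      change f (((tel E).d (x, y)).1 k) = _
      cases k with
      | zero =>
        rw [tel_d0, tel_d0, map_add, hf.2]
        rfl
      | succ k =>
        rw [tel_d1, tel_d1, map_sub, map_add, hf.2, hc]
        rfl
    · ext k
      change f (-(T.d (y k))) = -(T'.d (f (y k)))
      rw [map_neg, hf.2]

lemma tm_tj (E : En T) (E' : En T') (f : T.V →+ T'.V) (n : ℕ) (x : T.V) :
    tm E E' f (tj E n x) = tj E' n (f x) := by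
  rw [tj_apply, tj_apply, tm_apply, Finsupp.mapRange_single, Finsupp.mapRange_zero]

lemma f_ep (E : En T) (E' : En T') (f : T.V →+ T'.V) (hc : ∀ x, f (E.e x) = E'.e (f x)) (k : ℕ)
    (x : T.V) : f (((E.e : Module.End R T.V) ^ k) x) = ((E'.e : Module.End R' T'.V) ^ k) (f x) := by
  induction k with
  | zero => rfl
  | succ k ih =>
    rw [pow_succ', pow_succ', Module.End.mul_apply, Module.End.mul_apply, ← ih]
    exact hc _

end

theorem sTelQ : S_TelQ := by
  intro R R' _ _ T T' E E' f hc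
  refine ⟨tm_ch E E' f hc, fun hf => ⟨tm_ch E E' f hc hf.1, fun i t ht hb => ?_,
    fun i t ht => ?_⟩⟩
  · obtain ⟨n, x, hx, hbx⟩ := tel_cyc E i t ht
    have h1 := bdy_sub hb (ch_bdy (tm_ch E E' f hc hf.1) hbx)
    rw [map_sub, sub_sub_cancel, tm_tj, tj_bdy E' i n _ (ch_cyc hf.1 hx)] at h1
    obtain ⟨k, hk⟩ := h1
    rw [← f_ep E E' f hc] at hk
    have h2 : (tel E).Bdy i (tj E n x) := by
      rw [tj_bdy E i n x hx]
      exact ⟨k, hf.2.1 i _ (ep_cyc E hx k) hk⟩
    have h3 := bdy_add hbx h2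
    rwa [sub_add_cancel] at h3
  · obtain ⟨n, y, hy, hby⟩ := tel_cyc E' i t ht
    obtain ⟨x, hx, hb⟩ := hf.2.2 i y hy
    refine ⟨tj E n x, ch_cyc (tj_ch E n) hx, ?_⟩
    rw [tm_tj]
    have h1 := ch_bdy (tj_ch E' n) hb
    change (tel E').Bdy i (tj E' n (y - f x)) at h1
    rw [map_sub] at h1
    have h2 := bdy_add hby h1
    rwa [sub_add_sub_cancel] at h2

theorem sTelX : S_TelX := by
  intro R' R R'' _ _ _ T' T T'' E' E E'' a b ha hb H
  refine ⟨tm_ch E' E a ha H.cha, tm_ch E E'' b hb H.chb, ?_, ?_, ?_, ?_⟩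
  · rintro ⟨x, y⟩ h
    rw [tm_apply] at h
    refine Prod.ext ?_ ?_
    · ext k
      exact H.inj _ (DFunLike.congr_fun (congrArg Prod.fst h) k)
    · ext k
      exact H.inj _ (DFunLike.congr_fun (congrArg Prod.snd h) k)
  · rintro ⟨x, y⟩
    rw [tm_apply, tm_apply]
    refine Prod.ext ?_ ?_
    · ext k
      exact H.ba _
    · ext k
      exact H.ba _
  · rintro i ⟨x, y⟩ hxy0 h
    have hxy := (tel_G E i x y).1 hxy0
    rw [tm_apply] at h
    obtain ⟨x', hx', hx''⟩ := fs_lift a (fun w => w ∈ T'.G i) (T'.G i).zero_mem x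
      (fun k => H.ex i _ (hxy.1 k) (DFunLike.congr_fun (congrArg Prod.fst h) k))
    obtain ⟨y', hy', hy''⟩ := fs_lift a (fun w => w ∈ T'.G (i - 1)) (T'.G (i - 1)).zero_mem y
      (fun k => H.ex (i - 1) _ (hxy.2 k) (DFunLike.congr_fun (congrArg Prod.snd h) k))
    exact ⟨(x', y'), ⟨hx', hy'⟩, Prod.ext hx'' hy''⟩
  · rintro i ⟨x, y⟩ hxy0
    have hxy := (tel_G E'' i x y).1 hxy0
    obtain ⟨x', hx', hx''⟩ := fs_lift b (fun w => w ∈ T.G i) (T.G i).zero_mem x
      (fun k => H.sur i _ (hxy.1 k))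
    obtain ⟨y', hy', hy''⟩ := fs_lift b (fun w => w ∈ T.G (i - 1)) (T.G (i - 1)).zero_mem y
      (fun k => H.sur (i - 1) _ (hxy.2 k))
    exact ⟨(x', y'), ⟨hx', hy'⟩, Prod.ext hx'' hy''⟩

end HBy
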