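import Pool.Agent.Lib.MP_181146_gt.HB.DefsY

/-!
# Project HB (part B of the full theorem for MP_181146_gt): statements

Author helper80.  Big complexes are `HRx.GC`, the telescope is `HRx.Tel`, models are `FMap`s from
`ZCx`s.  `S_X` is a statement; it is proved as `sX` in `HB/X.lean`.
-/

set_option autoImplicit false

namespace HBy

open HEp HRx

/-- **Null.** A chain map from a bounded complex of projective modules to an acyclic complex is
null homotopic. -/
def S_Null : Prop :=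
  ∀ (R : Type) [CommRing R] (U : ZCx R) (C : GC R) (f : FMap U C), C.Acy →
    ∃ h : ∀ i : ℤ, U.P i →ₗ[R] C.V, (∀ i x, h i x ∈ C.G (i + 1)) ∧
      ∀ i x, f.f i x = C.d (h i x) + h (i - 1) (U.d i (i - 1) x)

/-- **Cone.** The cone is acyclic iff the map is a quasi-isomorphism. -/
def S_Cone : Prop :=
  ∀ (R : Type) [CommRing R] (X Y : GC R) (f : X.V →ₗ[R] Y.V) (hf : LCh X Y f),
    (cone X Y f hf).Acy ↔ LQI X Y f

/-- **Lift.** Lifting through a quasi-isomorphism `w : T' → T`, up to homotopy. -/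
def S_Lift : Prop :=
  ∀ (R : Type) [CommRing R] (T' T : GC R) (w : T'.V →ₗ[R] T.V) (hw : LQI T' T w) (U : ZCx R)
    (u : FMap U T), ∃ (u' : FMap U T') (h : ∀ i : ℤ, U.P i →ₗ[R] T.V), HtpF (cmp u' w hw.1) u h

/-- **LiftZ.** Lifting through a model `v : U' → T`. -/
def S_LiftZ : Prop :=
  ∀ (R : Type) [CommRing R] (T : GC R) (U' : ZCx R) (v : FMap U' T), v.QI → ∀ (U : ZCx R)
    (u : FMap U T), ∃ (g : ZHom U U') (h : ∀ i : ℤ, U.P i →ₗ[R] T.V), HtpF (pre v g) u h

/-- **ECu.** The class is unique. -/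
def S_ECu : Prop :=
  ∀ (R : Type) [CommRing R] (T : GC R) (x y : KT R), T.HasEC x → T.HasEC y → x = y

/-- **ECq.** The class is invariant under quasi-isomorphisms. -/
def S_ECq : Prop :=
  ∀ (R : Type) [CommRing R] (T T' : GC R) (w : T.V →ₗ[R] T'.V), LQI T T' w →
    ∀ x, T.HasEC x ↔ T'.HasEC x

/-- **ECs.** Shift, and change of the sign of the differential. -/
def S_ECs : Prop :=
  ∀ (R : Type) [CommRing R] (T : GC R) (x : KT R), T.HasEC x → T.ng.HasEC x ∧
    ∀ m : ℤ, (T.sh m).HasEC ((m.negOnePow : ℤ) • x)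

/-- **ECc.** The class of a cone. -/
def S_ECc : Prop :=
  ∀ (R : Type) [CommRing R] (X Y : GC R) (f : X.V →ₗ[R] Y.V) (hf : LCh X Y f) (x y : KT R),
    X.HasEC x → Y.HasEC y → (cone X Y f hf).HasEC (y - x)

/-- **ECx.** Short exact sequences: two of the three classes give the third. -/
def S_ECx : Prop :=
  ∀ (R : Type) [CommRing R] (X Y Z : GC R) (a : X.V →ₗ[R] Y.V) (b : Y.V →ₗ[R] Z.V),
    SES X Y Z a.toAddMonoidHom b.toAddMonoidHom →
    (∀ x y, X.HasEC x → Y.HasEC y → Z.HasEC (y - x)) ∧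
    (∀ y z, Y.HasEC y → Z.HasEC z → X.HasEC (y - z)) ∧
    ∀ x z, X.HasEC x → Z.HasEC z → Y.HasEC (x + z)

/-- **ECt.** The telescope of a perfect complex is perfect, if `e (1 - e)` is nilpotent on homology. -/
def S_ECt : Prop :=
  ∀ (R : Type) [CommRing R] [IsNoetherianRing R] (T : GC R) (E : En T),
    E.Fit → T.Perf → (tel E).Perf

/-- **TelC.** The homology of the telescope: every class is `[x]` at some stage `n`; it vanishes iff
`e ^ k x` is a boundary for some `k`; `[x]` at the stage `n` is `[e x]` at the stage `n + 1`. -/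
def S_TelC : Prop :=
  ∀ (R : Type) [CommRing R] (T : GC R) (E : En T),
    (∀ n, LCh T (tel E) (tj E n)) ∧
    (∀ i t, (tel E).Cyc i t → ∃ n x, T.Cyc i x ∧ (tel E).Bdy i (t - tj E n x)) ∧
    (∀ i n x, T.Cyc i x → ((tel E).Bdy i (tj E n x) ↔
      ∃ k : ℕ, T.Bdy i (((E.e : Module.End R T.V) ^ k) x))) ∧
    ∀ i n x, T.Cyc i x → (tel E).Bdy i (tj E n x - tj E (n + 1) (E.e x))

/-- **TelF.** With the Fitting condition every class is at the stage `0`. -/
def S_TelF : Prop :=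
  ∀ (R : Type) [CommRing R] (T : GC R) (E : En T), E.Fit →
    (∀ i t, (tel E).Cyc i t → ∃ x, T.Cyc i x ∧ (tel E).Bdy i (t - tj E 0 x)) ∧
    (BdH T → BdH (tel E))

/-- **TelQ.** The telescopes of a quasi-isomorphism which commutes with the endomorphisms. -/
def S_TelQ : Prop :=
  ∀ (R R' : Type) [CommRing R] [CommRing R'] (T : GC R) (T' : GC R') (E : En T) (E' : En T')
    (f : T.V →+ T'.V), (∀ x, f (E.e x) = E'.e (f x)) →
    (IsCh T T' f → IsCh (tel E) (tel E') (tm E E' f)) ∧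
    (IsQI T T' f → IsQI (tel E) (tel E') (tm E E' f))

/-- **TelX.** The telescope is exact. -/
def S_TelX : Prop :=
  ∀ (R' R R'' : Type) [CommRing R'] [CommRing R] [CommRing R''] (T' : GC R') (T : GC R)
    (T'' : GC R'') (E' : En T') (E : En T) (E'' : En T'') (a : T'.V →+ T.V) (b : T.V →+ T''.V),
    (∀ x, a (E'.e x) = E.e (a x)) → (∀ x, b (E.e x) = E''.e (b x)) → SES T' T T'' a b →
    SES (tel E') (tel E) (tel E'') (tm E' E a) (tm E E'' b)

/-- **Red.** Reduction of a model modulo a non zero divisor `s`; `φ : S → B` is onto with kernel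
`s S`, `Tb` is the reduction of `T`. -/
def S_Red : Prop :=
  ∀ (S B : Type) [CommRing S] [CommRing B] (φ : S →+* B) (s : S), Function.Surjective φ →
    (∀ a, φ a = 0 ↔ ∃ b, a = s * b) → (∀ a, s * a = 0 → a = 0) →
    ∀ (T : GC S) (Tb : GC B) (c : T.V →+ Tb.V), (∀ (a : S) x, c (a • x) = φ a • c x) →
    SES T T Tb (smE s T) c → ∀ (U : ZCx S) (u : FMap U T), u.QI →
    ∃ (Ub : ZCx B) (r : RedZ φ s U Ub) (ub : FMap Ub Tb), ub.QI ∧
      ∀ i x, ub.f i (r.c i x) = c (u.f i x)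

/-- **Rst.** Restriction of scalars along `ρ : B → S`, `S` free of finite rank over `B`. -/
def S_Rst : Prop :=
  ∀ (B S : Type) [CommRing B] [CommRing S] (ρ : B →+* S) (n : ℕ) (b : S ≃+ (Fin n → B)),
    (∀ a x, b (ρ a * x) = a • b x) → ∃ r : KT S →+ KT B, ∀ (T : GC S) (T' : GC B)
      (q : T'.V →+ T.V), (∀ (a : B) x, q (a • x) = ρ a • q x) → IsQI T' T q →
      ∀ x, T.HasEC x → T'.HasEC (r x)

/-- **Up.** A complex over `S` which is quasi-isomorphic to a perfect complex over `B = S / s`. -/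
def S_Up : Prop :=
  ∀ (S B : Type) [CommRing S] [CommRing B] (φ : S →+* B) (s : S), Function.Surjective φ →
    (∀ a, φ a = 0 ↔ ∃ b, a = s * b) → (∀ a, s * a = 0 → a = 0) →
    ∀ (T : GC S) (Tb : GC B) (q : T.V →+ Tb.V), (∀ (a : S) x, q (a • x) = φ a • q x) →
    IsQI T Tb q → Tb.Perf → T.Perf

/-- **ClF.** `E = X Ξ` satisfies the Fitting condition if the homology is bounded. -/
def S_ClF : Prop :=
  ∀ (R : Type) [CommRing R] (T : GC R) (n : ℤ) (c : Clf T n), 0 < n → BdH T → (cE c).Fit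

/-- **ClA** (Lemma 1c).  `A` is the image of `z : H(P) → H(T)`, `z` of degree `n`, `Ξ A ⊂ A`,
`X² A ⊂ A`, `H(T) = A + X A` is direct and `z`, `X z` are injective: then `w = X z` induces an
isomorphism of `H(P)` with the homology of the telescope. -/
def S_ClA : Prop :=
  ∀ (R : Type) [CommRing R] (T : GC R) (n : ℤ) (c : Clf T n), 0 < n → BdH T →
    ∀ (P : ZCx R) (w : FMap P T) (z : ∀ i : ℤ, P.P i →ₗ[R] T.V),
    (∀ i x, P.Cyc i x → T.Cyc (i + n) (z i x)) →
    (∀ i x, P.Cyc i x → w.f i x = c.X (z i x)) →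
    (∀ i x, P.Cyc i x → ∃ y, P.Cyc (i + n) y ∧ T.Bdy (i + n + n) (c.Ξ (z i x) - z (i + n) y)) →
    (∀ i x, P.Cyc i x → ∃ y, P.Cyc (i - n - n) y ∧
      T.Bdy (i - n) (c.X (c.X (z i x)) - z (i - n - n) y)) →
    (∀ i x y, P.Cyc (i - n) x → P.Cyc i y → T.Bdy i (z (i - n) x + c.X (z i y)) →
      P.Bdy (i - n) x ∧ P.Bdy i y) →
    (∀ i t, T.Cyc i t → ∃ x y, P.Cyc (i - n) x ∧ P.Cyc i y ∧
      T.Bdy i (t - z (i - n) x - c.X (z i y))) →
    ∃ hj : LCh T (tel (cE c)) (tj (cE c) 0), (cmp w (tj (cE c) 0) hj).QI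

end HBy
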