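import Pool.Agent.Lib.MP_181146_gt.HR.DefsC

/-!
# Project HB (part B): definitions for big complexes (`HRx.GC`)

Author helper80.  Cones, restriction of scalars, the maps of telescopes, the Fitting condition, the
reduction of a `ZCx` modulo `s`, the endomorphism `X Ξ` of a Clifford pair.
-/

set_option autoImplicit false

namespace HBy

open HEp HRx

section

variable {R : Type} [CommRing R]

/-- A linear chain map. -/
abbrev LCh (T T' : GC R) (f : T.V →ₗ[R] T'.V) : Prop := IsCh T T' f.toAddMonoidHom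

/-- A linear quasi-isomorphism. -/
abbrev LQI (T T' : GC R) (f : T.V →ₗ[R] T'.V) : Prop := IsQI T T' f.toAddMonoidHom

/-- Composition of a chain map from a bounded complex with a linear chain map. -/
def cmp {U : ZCx R} {T T' : GC R} (u : FMap U T) (f : T.V →ₗ[R] T'.V) (hf : LCh T T' f) :
    FMap U T' where
  f i := f ∘ₗ u.f i
  fG i x := hf.1 i _ (u.fG i x)
  fd i x := by
    change f (u.f (i - 1) (U.d i (i - 1) x)) = T'.d (f (u.f i x))
    rw [u.fd]
    exact hf.2 _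

/-- Composition with a map of bounded complexes. -/
def pre {U U' : ZCx R} {T : GC R} (u : FMap U T) (g : ZHom U' U) : FMap U' T where
  f i := u.f i ∘ₗ g.f i
  fG i x := u.fG i _
  fd i x := by
    change u.f (i - 1) (g.f (i - 1) (U'.d i (i - 1) x)) = T.d (u.f i (g.f i x))
    rw [g.comm, u.fd]

/-- `h` is a homotopy: `f - g = d h + h d`. -/
def HtpF {U : ZCx R} {T : GC R} (f g : FMap U T) (h : ∀ i : ℤ, U.P i →ₗ[R] T.V) : Prop :=
  (∀ i x, h i x ∈ T.G (i + 1)) ∧
    ∀ i x, f.f i x - g.f i x = T.d (h i x) + h (i - 1) (U.d i (i - 1) x)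

/-- The homology is bounded. -/
def BdH (T : GC R) : Prop := ∃ N : ℕ, ∀ (i : ℤ) (x : T.V), (N : ℤ) < |i| → T.Cyc i x → T.Bdy i x

/-- The cone of a chain map: `X[1] × Y`, `d (x, y) = (- d x, d y + f x)`. -/
def cone (X Y : GC R) (f : X.V →ₗ[R] Y.V) (hf : LCh X Y f) : GC R where
  V := X.V × Y.V
  d := LinearMap.prod (-(X.d ∘ₗ LinearMap.fst R _ _))
    (Y.d ∘ₗ LinearMap.snd R _ _ + f ∘ₗ LinearMap.fst R _ _)
  G i := (X.G (i - 1)).prod (Y.G i)
  dG := by
    rintro i ⟨x, y⟩ ⟨hx, hy⟩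
    refine ⟨?_, ?_⟩
    · change -(X.d x) ∈ X.G (i - 1 - 1)
      exact (X.G (i - 1 - 1)).neg_mem (X.dG _ _ hx)
    · change Y.d y + f x ∈ Y.G (i - 1)
      exact (Y.G (i - 1)).add_mem (Y.dG _ _ hy) (hf.1 _ _ hx)
  dd := by
    rintro ⟨x, y⟩
    refine Prod.ext ?_ ?_
    · change -(X.d (-(X.d x))) = 0
      rw [map_neg, X.dd, neg_zero, neg_zero]
    · change Y.d (Y.d y + f x) + f (-(X.d x)) = 0
      have h : f (X.d x) = Y.d (f x) := hf.2 x
      rw [map_add, Y.dd, zero_add, map_neg, h, add_neg_cancel]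

lemma cone_d (X Y : GC R) (f : X.V →ₗ[R] Y.V) (hf : LCh X Y f) (x : X.V) (y : Y.V) :
    (cone X Y f hf).d (x, y) = (-(X.d x), Y.d y + f x) := rfl

lemma cone_G (X Y : GC R) (f : X.V →ₗ[R] Y.V) (hf : LCh X Y f) (i : ℤ) (x : X.V) (y : Y.V) :
    (x, y) ∈ (cone X Y f hf).G i ↔ x ∈ X.G (i - 1) ∧ y ∈ Y.G i := Iff.rfl

end

/-! ## Change of rings -/

section

variable {S B : Type} [CommRing S] [CommRing B]

/-- The complex `T` over `B` as a complex over `S`, through `ρ : S → B`. -/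
def rst (ρ : S →+* B) (T : GC B) : GC S :=
  letI : Module S T.V := Module.compHom T.V ρ
  { V := T.V
    d :=
      { toFun := T.d
        map_add' := T.d.map_add
        map_smul' := fun a x => T.d.map_smul (ρ a) x }
    G := fun i =>
      { carrier := {x | x ∈ T.G i}
        add_mem' := fun hx hy => (T.G i).add_mem hx hy
        zero_mem' := (T.G i).zero_mem
        smul_mem' := fun a _ hx => (T.G i).smul_mem (ρ a) hx }
    dG := fun i x hx => T.dG i x hx
    dd := fun x => T.dd x }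

/-- The identity `T → rst ρ T`. -/
def rstI (ρ : S →+* B) (T : GC B) : T.V ≃+ (rst ρ T).V := AddEquiv.refl T.V

lemma rst_smul (ρ : S →+* B) (T : GC B) (a : S) (x : T.V) :
    a • rstI ρ T x = rstI ρ T (ρ a • x) := rfl

lemma rst_d (ρ : S →+* B) (T : GC B) (x : T.V) : (rst ρ T).d (rstI ρ T x) = rstI ρ T (T.d x) := rfl

lemma rst_G (ρ : S →+* B) (T : GC B) (i : ℤ) (x : T.V) :
    rstI ρ T x ∈ (rst ρ T).G i ↔ x ∈ T.G i := Iff.rfl

/-- `Ub` is the reduction of `U` modulo `s` (`φ : S → B` is onto with kernel `s S`). -/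
structure RedZ (φ : S →+* B) (s : S) (U : ZCx S) (Ub : ZCx B) where
  c : ∀ i, U.P i →+ Ub.P i
  sl : ∀ i a x, c i (a • x) = φ a • c i x
  surj : ∀ i, Function.Surjective (c i)
  ker : ∀ i x, c i x = 0 ↔ ∃ y, x = s • y
  comm : ∀ i j x, c j (U.d i j x) = Ub.d i j (c i x)

/-- Multiplication by `s`. -/
def smE (s : S) (T : GC S) : T.V →+ T.V := DistribSMul.toAddMonoidHom T.V s

lemma smE_apply (s : S) (T : GC S) (x : T.V) : smE s T x = s • x := rfl

end

/-! ## Endomorphisms and telescopes -/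

section

variable {R R' : Type} [CommRing R] [CommRing R']

/-- A chain endomorphism of degree `0`. -/
structure En (T : GC R) where
  e : T.V →ₗ[R] T.V
  he : ∀ i, ∀ x ∈ T.G i, e x ∈ T.G i
  hed : ∀ x, e (T.d x) = T.d (e x)

/-- The telescope. -/
noncomputable def tel {T : GC R} (E : En T) : GC R := HRx.Tel T E.e E.he E.hed

/-- Fitting condition: `e (1 - e)` is nilpotent on the homology. -/
def En.Fit {T : GC R} (E : En T) : Prop :=
  ∃ k : ℕ, ∀ i x, T.Cyc i x → T.Bdy i (((E.e * (1 - E.e) : Module.End R T.V) ^ k) x)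

lemma tel_V {T : GC R} (E : En T) : (tel E).V = ((ℕ →₀ T.V) × (ℕ →₀ T.V)) := rfl

lemma tel_d {T : GC R} (E : En T) (x y : ℕ →₀ T.V) :
    (tel E).d (x, y) = (Finsupp.mapRange.linearMap (α := ℕ) T.d x + y -
      Finsupp.lmapDomain T.V R Nat.succ (Finsupp.mapRange.linearMap (α := ℕ) E.e y),
      -(Finsupp.mapRange.linearMap (α := ℕ) T.d y)) := rfl

lemma tel_G {T : GC R} (E : En T) (i : ℤ) (x y : ℕ →₀ T.V) :
    (x, y) ∈ (tel E).G i ↔ (∀ k, x k ∈ T.G i) ∧ ∀ k, y k ∈ T.G (i - 1) := Iff.rfl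

/-- The map of telescopes induced by an additive map. -/
noncomputable def tm {T : GC R} {T' : GC R'} (E : En T) (E' : En T') (f : T.V →+ T'.V) :
    (tel E).V →+ (tel E').V :=
  AddMonoidHom.prodMap (Finsupp.mapRange.addMonoidHom (ι := ℕ) f)
    (Finsupp.mapRange.addMonoidHom (ι := ℕ) f)

lemma tm_apply {T : GC R} {T' : GC R'} (E : En T) (E' : En T') (f : T.V →+ T'.V)
    (x y : ℕ →₀ T.V) :
    tm E E' f (x, y) = (Finsupp.mapRange f (map_zero f) x, Finsupp.mapRange f (map_zero f) y) := rfl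

/-- The inclusion of `T` as the stage `n` of the telescope. -/
noncomputable def tj {T : GC R} (E : En T) (n : ℕ) : T.V →ₗ[R] (tel E).V :=
  LinearMap.inl R (ℕ →₀ T.V) (ℕ →₀ T.V) ∘ₗ Finsupp.lsingle n

lemma tj_apply {T : GC R} (E : En T) (n : ℕ) (x : T.V) : tj E n x = (Finsupp.single n x, 0) := rfl

end

/-! ## The endomorphism of a Clifford pair -/

section

variable {R : Type} [CommRing R] {T : GC R} {n : ℤ}

/-- `E = X Ξ`. -/
def cE (c : Clf T n) : En T where
  e := c.X ∘ₗ c.Ξ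
  he i x hx := by
    have h := c.XG (i + n) _ (c.ΞG i x hx)
    rw [add_sub_cancel_right] at h
    exact h
  hed x := by
    change c.X (c.Ξ (T.d x)) = T.d (c.X (c.Ξ x))
    rw [c.Ξd, map_neg, c.Xd, neg_neg]

lemma cE_apply (c : Clf T n) (x : T.V) : (cE c).e x = c.X (c.Ξ x) := rfl

end

end HBy
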