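import Pool.Agent.Lib.MP_181146_gt.HB.LemA

/-!
# Project HB, module ECt (helper80), second part
-/

set_option autoImplicit false

namespace HBy

open HEp HRx

section

variable {R : Type} [CommRing R]

lemma perf_iff (T : GC R) : T.Perf ↔ ∃ x, T.HasEC x :=
  ⟨fun ⟨U, u, hu⟩ => ⟨U.EC, U, u, hu, rfl⟩, fun ⟨_, U, u, hu, _⟩ => ⟨U, u, hu⟩⟩

/-- `U.P i ≃ (ofZ U).G i`. -/
noncomputable def ofZe (U : ZCx R) (i : ℤ) : U.P i ≃ₗ[R] (ofZ U).G i :=
  LinearEquiv.ofBijective (LinearMap.codRestrict ((ofZ U).G i) (ofZs U i) (ofZs_G U i)) ⟨by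
    intro x y hxy
    have h1 := congrArg Subtype.val hxy
    have h2 : ofZs U i x = ofZs U i y := h1
    have h3 := congrFun h2 i
    rwa [ofZs_self, ofZs_self] at h3, by
    rintro ⟨x, hx⟩
    exact ⟨x i, Subtype.ext (ofZ_eq_single U i x hx).symm⟩⟩

lemma ofZ_proj (U : ZCx R) (i : ℤ) : Module.Projective R ((ofZ U).G i) :=
  Module.Projective.of_equiv (ofZe U i)

lemma ofZ_G0 (U : ZCx R) (i : ℤ) (h : Subsingleton (U.P i)) (x : (ofZ U).V) (hx : x ∈ (ofZ U).G i) :
    x = 0 := by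
  rw [ofZ_eq_single U i x hx, Subsingleton.elim (x i) 0, map_zero]

lemma ofZ_FGH [IsNoetherianRing R] (U : ZCx R) : FGH (ofZ U) := by
  intro i
  refine ⟨(LinearMap.ker (U.d i (i - 1))).map (ofZs U i), ?_, ?_, ?_⟩
  · refine Submodule.FG.map _ ?_
    exact IsNoetherian.noetherian _
  · rintro _ ⟨x, hx, rfl⟩
    rw [ofZ_cyc, z_cyc]
    exact hx
  · intro x hx
    refine ⟨x, ⟨x i, ?_, (ofZ_eq_single U i x hx.1).symm⟩, ?_⟩
    · have h1 := hx
      rw [ofZ_eq_single U i x hx.1, ofZ_cyc, z_cyc] at h1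
      exact h1
    · rw [sub_self]
      exact bdy_zero _ _

lemma zone_sub {M : Type} [AddCommGroup M] [Module R M] [Module.Finite R M] [Module.Projective R M]
    (a i : ℤ) (h : i ≠ a) : Subsingleton ((zone (R := R) M a).P i) := by
  have : IsEmpty (PLift (i = a)) := ⟨fun h' => h h'.down⟩
  change Subsingleton (PLift (i = a) → M)
  infer_instance

/-- **Lemma A.** A bounded complex of projective modules with finitely generated homology is perfect. -/
theorem lemA [IsNoetherianRing R] (n : ℕ) : ∀ (a : ℤ) (T : GC R),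
    (∀ i, Module.Projective R (T.G i)) → (∀ i, i < a → ∀ x ∈ T.G i, x = 0) →
    (∀ i, a + n < i → ∀ x ∈ T.G i, x = 0) → FGH T → T.Perf := by
  induction n with
  | zero =>
    intro a T hp h1 h2 hF
    have := hp a
    have hcyc : ∀ x ∈ T.G a, T.Cyc a x := fun x hx =>
      ⟨hx, h1 (a - 1) (by omega) _ (T.dG a x hx)⟩
    have hb : ∀ x, T.Bdy a x → x = 0 := by
      rintro _ ⟨y, hy, rfl⟩
      rw [h2 (a + 1) (by push_cast; omega) y hy, map_zero]
    obtain ⟨S, hS, hSc, hSs⟩ := hF a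
    have hSG : S = T.G a := by
      apply le_antisymm
      · intro x hx
        exact (hSc x hx).1
      · intro x hx
        obtain ⟨s, hs, hb'⟩ := hSs x (hcyc x hx)
        have h3 := hb _ hb'
        rw [sub_eq_zero] at h3
        rwa [h3]
    have hfin : Module.Finite R (T.G a) := by
      rw [← hSG]
      exact Module.Finite.iff_fg.2 hS
    refine ⟨zone (T.G a) a, zoneF a T (T.G a).subtype (fun x => hcyc x x.2), ?_, ?_⟩
    · intro i x hx hxb
      by_cases hi : i = a
      · subst hi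
        rw [zoneF_self] at hxb
        have h3 : x = 0 := by
          funext j
          exact Subtype.ext (hb _ hxb)
        rw [h3]
        exact ⟨i, 0, map_zero _⟩
      · have := zone_sub (R := R) (M := T.G a) a i hi
        rw [Subsingleton.elim x 0]
        exact ⟨i, 0, map_zero _⟩
    · intro i y hy
      by_cases hi : i = a
      · subst hi
        refine ⟨fun _ => ⟨y, hy.1⟩, fun j => rfl, ?_⟩
        rw [zoneF_self]
        change T.Bdy i (y - y)
        rw [sub_self]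
        exact bdy_zero _ _
      · refine ⟨0, fun j => map_zero _, ?_⟩
        rw [map_zero, sub_zero]
        have h3 : y = 0 := by
          rcases lt_or_gt_of_ne hi with h | h
          · exact h1 i h y hy.1
          · exact h2 i (by push_cast; omega) y hy.1
        rw [h3]
        exact bdy_zero _ _
  | succ n ih =>
    intro a T hp h1 h2 hF
    have hcyc : ∀ x ∈ T.G a, T.Cyc a x := fun x hx =>
      ⟨hx, h1 (a - 1) (by omega) _ (T.dG a x hx)⟩
    obtain ⟨S, hS, hSc, hSs⟩ := hF a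
    have hfin : Module.Finite R S := Module.Finite.iff_fg.2 hS
    obtain ⟨k, φ, hφ⟩ := Module.Finite.exists_fin' R S
    let F : ZCx R := zone (Fin k → R) a
    let u : FMap F T := zoneF a T (S.subtype ∘ₗ φ) (fun x => hSc _ (φ x).2)
    have hu : ∀ x : PLift (a = a) → (Fin k → R), u.f a x = (φ (x ⟨rfl⟩) : T.V) := fun x =>
      zoneF_self a T (S.subtype ∘ₗ φ) (fun x => hSc _ (φ x).2) x
    let f : (ofZ F).V →ₗ[R] T.V := ofZw u
    let C : GC R := cone (ofZ F) T f (ofZw_ch u)
    have hFs : ∀ i, i ≠ a → Subsingleton (F.P i) := fun i hi => zone_sub a i hi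
    have hCp : ∀ i, Module.Projective R (C.G i) := cone_proj _ _ _ _ (ofZ_proj F) hp
    have hC0 : ∀ i, i < a → ∀ x ∈ C.G i, x = 0 := by
      rintro i hi ⟨x, y⟩ ⟨hx, hy⟩
      exact Prod.ext (ofZ_G0 F (i - 1) (hFs _ (by omega)) x hx) (h1 i hi y hy)
    have hCa : ∀ x ∈ C.G a, C.Bdy a x := by
      rintro ⟨x, t⟩ ⟨hx, ht⟩
      have hx0 : x = 0 := ofZ_G0 F (a - 1) (hFs _ (by omega)) x hx
      have ht' : t ∈ T.G a := ht
      obtain ⟨s, hs, t', ht1, ht2⟩ := hSs t (hcyc t ht')
      obtain ⟨c, hc⟩ := hφ ⟨s, hs⟩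
      have hfc : f (ofZs F a (fun _ => c)) = s := by
        change ofZw u _ = s
        rw [ofZw_G u a _ (ofZs_G F a _), ofZs_self, hu, hc]
      refine ⟨(ofZs F a (fun _ => c), t'), ⟨?_, ht1⟩, ?_⟩
      · change ofZs F a (fun _ => c) ∈ (ofZ F).G (a + 1 - 1)
        rw [add_sub_cancel_right]
        exact ofZs_G F a _
      · change (cone (ofZ F) T f (ofZw_ch u)).d _ = _
        rw [cone_d, hfc, ht2, sub_add_cancel, hx0, ofZs_d]
        have h3 : F.d a (a - 1) (fun _ => c) = 0 := rfl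
        rw [h3, map_zero, neg_zero]
    have hFC : FGH C := FGH_cone _ _ (ofZ_FGH F) hF
    have hq := trc_QI C a hC0 hCa
    have hP : (trc C a).Perf := by
      refine ih (a + 1) (trc C a) (trc_proj C a hCp hCa) ?_ ?_ (FGH_comap _ hq hFC)
      · intro i hi x hx
        exact hx.2.1 (by omega)
      · rintro i hi ⟨x, y⟩ ⟨⟨hx, hy⟩, _, _⟩
        exact Prod.ext (ofZ_G0 F (i - 1) (hFs _ (by omega)) x hx)
          (h2 i (by push_cast; omega) y hy)
    obtain ⟨c, hc⟩ := (perf_iff _).1 hP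
    have hCc : C.HasEC c := (sECq R _ _ _ hq c).1 hc
    have hXc := (sECs R _ _ ((sECs R _ _ (ofZ_HasEC F)).2 1)).1
    exact (perf_iff T).2 ⟨_, (sECx R T C ((ofZ F).sh 1).ng _ _ (ses_cone f (ofZw_ch u))).2.1 _ _
      hCc hXc⟩

/-- The homology of a perfect complex is finitely generated. -/
lemma perf_FGH [IsNoetherianRing R] {T : GC R} (h : T.Perf) : FGH T := by
  obtain ⟨U, u, hu⟩ := h
  exact FGH_map (ofZw u) (ofZw_QI u hu) (ofZ_FGH U)

/-- The endomorphism of `ofZ V` given by `g : V → V`. -/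
noncomputable def ofZg {V : ZCx R} (g : ZHom V V) : En (ofZ V) where
  e := LinearMap.pi fun i => g.f i ∘ₗ LinearMap.proj i
  he i x hx j hj := by
    change g.f j (x j) = 0
    rw [hx j hj, map_zero]
  hed x := by
    funext j
    exact g.comm (j + 1) j (x (j + 1))

lemma ofZg_apply {V : ZCx R} (g : ZHom V V) (x : (ofZ V).V) (i : ℤ) :
    (ofZg g).e x i = g.f i (x i) := rfl

/-- The linear map given by a family of maps `V.P i → T.V`. -/
noncomputable def ofZh {V : ZCx R} {T : GC R} (h : ∀ i : ℤ, V.P i →ₗ[R] T.V) :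
    (ofZ V).V →ₗ[R] T.V :=
  ∑ i ∈ Finset.Icc (-(V.N : ℤ)) V.N, h i ∘ₗ LinearMap.proj i

lemma ofZh_apply {V : ZCx R} {T : GC R} (h : ∀ i : ℤ, V.P i →ₗ[R] T.V) (x : (ofZ V).V) :
    ofZh h x = ∑ i ∈ Finset.Icc (-(V.N : ℤ)) V.N, h i (x i) := by
  unfold ofZh
  rw [LinearMap.sum_apply]
  rfl

lemma ofZh_G {V : ZCx R} {T : GC R} (h : ∀ i : ℤ, V.P i →ₗ[R] T.V) (i : ℤ) (x : (ofZ V).V)
    (hx : x ∈ (ofZ V).G i) : ofZh h x = h i (x i) := by
  rw [ofZh_apply]
  have h1 : ∀ j, j ≠ i → h j (x j) = 0 := fun j hj => by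
    rw [hx j hj, map_zero]
  by_cases hi : i ∈ Finset.Icc (-(V.N : ℤ)) V.N
  · rw [Finset.sum_eq_single_of_mem i hi fun j _ hj => h1 j hj]
  · rw [Finset.sum_eq_zero fun j hj => h1 j (by rintro rfl; exact hi hj)]
    rw [mem_Icc_abs, not_le] at hi
    rw [ofZ_zero V x i hi, map_zero]

/-- A module map which is graded on all of `ofZ V`: two maps which agree on all homogeneous elements
are equal. -/
lemma ofZ_ext {V : ZCx R} {M : Type} [AddCommGroup M] [Module R M] {f g : (ofZ V).V →ₗ[R] M}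
    (h : ∀ i, ∀ x ∈ (ofZ V).G i, f x = g x) : f = g := by
  apply LinearMap.ext
  intro x
  have hx : x = ∑ i ∈ Finset.Icc (-(V.N : ℤ)) V.N, ofZs V i (x i) := by
    funext j
    have e : (∑ i ∈ Finset.Icc (-(V.N : ℤ)) V.N, ofZs V i (x i)) j =
        ∑ i ∈ Finset.Icc (-(V.N : ℤ)) V.N, ofZs V i (x i) j := Finset.sum_apply j _ _
    rw [e]
    by_cases hj : j ∈ Finset.Icc (-(V.N : ℤ)) V.N
    · rw [Finset.sum_eq_single_of_mem j hj fun i _ hi => ofZs_ne V i j _ hi.symm, ofZs_self]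
    · rw [Finset.sum_eq_zero fun i hi => ofZs_ne V i j _ (by rintro rfl; exact hj hi)]
      rw [mem_Icc_abs, not_le] at hj
      exact ofZ_zero V x j hj
  rw [hx, map_sum, map_sum]
  exact Finset.sum_congr rfl fun i _ => h i _ (ofZs_G V i _)

end

section

variable {R : Type} [CommRing R] {W T : GC R}

/-- The shift of finitely supported sequences. -/
noncomputable def shf (M : Type) [AddCommGroup M] : (ℕ →₀ M) →+ (ℕ →₀ M) :=
  Finsupp.mapDomain.addMonoidHom Nat.succ

lemma shf_zero {M : Type} [AddCommGroup M] (x : ℕ →₀ M) : shf M x 0 = 0 := by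
  change Finsupp.mapDomain Nat.succ x 0 = 0
  rw [Finsupp.mapDomain_of_notMem_range]
  rintro ⟨j, hj⟩
  exact Nat.succ_ne_zero j hj

lemma shf_succ {M : Type} [AddCommGroup M] (x : ℕ →₀ M) (k : ℕ) : shf M x (k + 1) = x k :=
  Finsupp.mapDomain_apply Nat.succ_injective x k

/-- The map of telescopes given by a chain map `w` and a homotopy `w G ~ E w`. -/
noncomputable def tmh (G : En W) (E : En T) (w h : W.V →ₗ[R] T.V) : (tel G).V →ₗ[R] (tel E).V where
  toFun p := (Finsupp.mapRange w (map_zero w) p.1 - shf T.V (Finsupp.mapRange h (map_zero h) p.2),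
    Finsupp.mapRange w (map_zero w) p.2)
  map_add' p q := by
    refine Prod.ext ?_ ?_
    · ext k
      change w (p.1 k + q.1 k) - shf T.V (Finsupp.mapRange h (map_zero h) (p.2 + q.2)) k =
        w (p.1 k) - shf T.V (Finsupp.mapRange h (map_zero h) p.2) k +
        (w (q.1 k) - shf T.V (Finsupp.mapRange h (map_zero h) q.2) k)
      cases k with
      | zero =>
        rw [shf_zero, shf_zero, shf_zero, map_add w]
        abel
      | succ k =>
        rw [shf_succ, shf_succ, shf_succ, map_add w]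
        change _ - h (p.2 k + q.2 k) = _ - h (p.2 k) + (_ - h (q.2 k))
        rw [map_add h]
        abel
    · ext k
      exact map_add w _ _
  map_smul' a p := by
    refine Prod.ext ?_ ?_
    · ext k
      change w (a • p.1 k) - shf T.V (Finsupp.mapRange h (map_zero h) (a • p.2)) k =
        a • (w (p.1 k) - shf T.V (Finsupp.mapRange h (map_zero h) p.2) k)
      cases k with
      | zero => rw [shf_zero, shf_zero, map_smul, sub_zero, sub_zero]
      | succ k =>
        rw [shf_succ, shf_succ, map_smul, smul_sub]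
        change _ - h (a • p.2 k) = _ - a • h (p.2 k)
        rw [map_smul]
    · ext k
      exact map_smul w a _

lemma tmh_apply (G : En W) (E : En T) (w h : W.V →ₗ[R] T.V) (x y : ℕ →₀ W.V) :
    tmh G E w h (x, y) = (Finsupp.mapRange w (map_zero w) x -
      shf T.V (Finsupp.mapRange h (map_zero h) y), Finsupp.mapRange w (map_zero w) y) := rfl

lemma tmh_ch (G : En W) (E : En T) (w h : W.V →ₗ[R] T.V) (hw : LCh W T w)
    (hG : ∀ i, ∀ x ∈ W.G i, h x ∈ T.G (i + 1))
    (hh : ∀ x, w (G.e x) - E.e (w x) = T.d (h x) + h (W.d x)) :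
    LCh (tel G) (tel E) (tmh G E w h) := by
  have hwd : ∀ x, w (W.d x) = T.d (w x) := fun x => hw.2 x
  refine ⟨?_, ?_⟩
  · rintro i ⟨x, y⟩ hxy0
    have hxy := (tel_G G i x y).1 hxy0
    change tmh G E w h (x, y) ∈ (tel E).G i
    rw [tmh_apply]
    refine (tel_G E i _ _).2 ⟨fun k => ?_, fun k => hw.1 (i - 1) _ (hxy.2 k)⟩
    change w (x k) - shf T.V (Finsupp.mapRange h (map_zero h) y) k ∈ T.G i
    refine (T.G i).sub_mem (hw.1 i _ (hxy.1 k)) ?_
    cases k with
    | zero =>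
      rw [shf_zero]
      exact (T.G i).zero_mem
    | succ k =>
      rw [shf_succ]
      have h1 := hG (i - 1) _ (hxy.2 k)
      rwa [sub_add_cancel] at h1
  · rintro ⟨x, y⟩
    change tmh G E w h ((tel G).d (x, y)) = (tel E).d (tmh G E w h (x, y))
    have e1 : (tel G).d (x, y) = (((tel G).d (x, y)).1, ((tel G).d (x, y)).2) := rfl
    rw [tmh_apply, e1, tmh_apply]
    refine Prod.ext ?_ ?_
    · ext k
      change w (((tel G).d (x, y)).1 k) -
        shf T.V (Finsupp.mapRange h (map_zero h) ((tel G).d (x, y)).2) k = _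
      cases k with
      | zero =>
        rw [tel_d0, tel_d0, shf_zero, sub_zero]
        change w (W.d (x 0) + y 0) =
          T.d (w (x 0) - shf T.V (Finsupp.mapRange h (map_zero h) y) 0) + w (y 0)
        rw [shf_zero, sub_zero, map_add, hwd]
      | succ k =>
        rw [tel_d1, tel_d1, shf_succ]
        change w (W.d (x (k + 1)) + y (k + 1) - G.e (y k)) - h (-(W.d (y k))) =
          T.d (w (x (k + 1)) - shf T.V (Finsupp.mapRange h (map_zero h) y) (k + 1)) + w (y (k + 1)) -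
            E.e (w (y k))
        rw [shf_succ]
        change _ = T.d (w (x (k + 1)) - h (y k)) + w (y (k + 1)) - E.e (w (y k))
        have h1 := hh (y k)
        have h2 : w (G.e (y k)) = T.d (h (y k)) + h (W.d (y k)) + E.e (w (y k)) := by
          rw [← h1, sub_add_cancel]
        rw [map_sub, map_add, h2, hwd, map_sub, map_neg]
        abel
    · ext k
      change w (-(W.d (y k))) = -(T.d (w (y k)))
      rw [map_neg, hwd]

lemma tmh_tj (G : En W) (E : En T) (w h : W.V →ₗ[R] T.V) (n : ℕ) (x : W.V) :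
    tmh G E w h (tj G n x) = tj E n (w x) := by
  rw [tj_apply, tj_apply, tmh_apply, Finsupp.mapRange_single, Finsupp.mapRange_zero,
    Finsupp.mapRange_zero, map_zero, sub_zero]

lemma tmh_QI (G : En W) (E : En T) (w h : W.V →ₗ[R] T.V) (hw : LQI W T w)
    (hG : ∀ i, ∀ x ∈ W.G i, h x ∈ T.G (i + 1))
    (hh : ∀ x, w (G.e x) - E.e (w x) = T.d (h x) + h (W.d x)) :
    LQI (tel G) (tel E) (tmh G E w h) := by
  have hch := tmh_ch G E w h hw.1 hG hh
  have hpow : ∀ (k : ℕ) (i : ℤ) (x : W.V), W.Cyc i x →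
      T.Bdy i (w (((G.e : Module.End R W.V) ^ k) x) - ((E.e : Module.End R T.V) ^ k) (w x)) := by
    intro k i x hx
    induction k with
    | zero =>
      change T.Bdy i (w x - w x)
      rw [sub_self]
      exact bdy_zero _ _
    | succ k ih =>
      rw [pow_succ', pow_succ', Module.End.mul_apply, Module.End.mul_apply]
      have hx' := ep_cyc G hx k
      have h1 : T.Bdy i (w (G.e (((G.e : Module.End R W.V) ^ k) x)) -
          E.e (w (((G.e : Module.End R W.V) ^ k) x))) := by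
        rw [hh, hx'.2, map_zero, add_zero]
        exact ⟨_, hG i _ hx'.1, rfl⟩
      have h2 := bdy_add h1 (e_bdy E ih)
      rw [map_sub, sub_add_sub_cancel] at h2
      exact h2
  refine ⟨hch, fun i t ht hb => ?_, fun i t ht => ?_⟩
  · obtain ⟨n, x, hx, hbx⟩ := tel_cyc G i t ht
    have h1 := bdy_sub hb (ch_bdy hch hbx)
    change (tel E).Bdy i (tmh G E w h t - tmh G E w h (t - tj G n x)) at h1
    rw [map_sub, sub_sub_cancel, tmh_tj,
      tj_bdy E i n _ (show T.Cyc i (w x) from ch_cyc hw.1 hx)] at h1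
    obtain ⟨k, hk⟩ := h1
    have hk' : W.Bdy i (((G.e : Module.End R W.V) ^ k) x) := by
      refine hw.2.1 i _ (ep_cyc G hx k) ?_
      have h2 := bdy_add (hpow k i x hx) hk
      change T.Bdy i (_ - ((E.e : Module.End R T.V) ^ k) (w x) +
        ((E.e : Module.End R T.V) ^ k) (w x)) at h2
      rwa [sub_add_cancel] at h2
    have h2 : (tel G).Bdy i (tj G n x) := (tj_bdy G i n x hx).2 ⟨k, hk'⟩
    have h3 := bdy_add hbx h2
    rwa [sub_add_cancel] at h3
  · obtain ⟨n, y, hy, hby⟩ := tel_cyc E i t ht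
    obtain ⟨x, hx, hb⟩ := hw.2.2 i y hy
    refine ⟨tj G n x, ch_cyc (tj_ch G n) hx, ?_⟩
    change (tel E).Bdy i (t - tmh G E w h (tj G n x))
    rw [tmh_tj]
    have h1 := ch_bdy (tj_ch E n) hb
    change (tel E).Bdy i (tj E n (y - w x)) at h1
    rw [map_sub] at h1
    have h2 := bdy_add hby h1
    rwa [sub_add_sub_cancel] at h2

/-- The telescope of a complex of projective modules. -/
lemma tel_proj (G : En W) (hp : ∀ i, Module.Projective R (W.G i)) (i : ℤ) :
    Module.Projective R ((tel G).G i) := by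
  classical
  have h1 : ∀ j, Module.Projective R (ℕ →₀ W.G j) := fun j => by
    have := hp j
    exact Module.Projective.of_equiv (finsuppLequivDFinsupp R).symm
  have := h1 i
  have := h1 (i - 1)
  have e : ((ℕ →₀ W.G i) × (ℕ →₀ W.G (i - 1))) ≃ₗ[R] (tel G).G i := by
    refine LinearEquiv.ofBijective (LinearMap.codRestrict ((tel G).G i)
      (LinearMap.prodMap (Finsupp.mapRange.linearMap (W.G i).subtype)
        (Finsupp.mapRange.linearMap (W.G (i - 1)).subtype))
      (fun x => (tel_G G i _ _).2 ⟨fun k => (x.1 k).2, fun k => (x.2 k).2⟩)) ⟨?_, ?_⟩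
    · intro x y hxy
      have h2 := congrArg Subtype.val hxy
      refine Prod.ext ?_ ?_
      · ext k
        exact DFunLike.congr_fun (congrArg Prod.fst h2) k
      · ext k
        exact DFunLike.congr_fun (congrArg Prod.snd h2) k
    · rintro ⟨⟨x, y⟩, hxy0⟩
      have hxy := (tel_G G i x y).1 hxy0
      obtain ⟨x', _, hx'⟩ := fs_lift (W.G i).subtype.toAddMonoidHom (fun _ => True) trivial x
        (fun k => ⟨⟨x k, hxy.1 k⟩, trivial, rfl⟩)
      obtain ⟨y', _, hy'⟩ := fs_lift (W.G (i - 1)).subtype.toAddMonoidHom (fun _ => True) trivial y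
        (fun k => ⟨⟨y k, hxy.2 k⟩, trivial, rfl⟩)
      exact ⟨(x', y'), Subtype.ext (Prod.ext hx' hy')⟩
  exact Module.Projective.of_equiv e

end

theorem sECt : S_ECt := by
  intro R _ _ T E hE hT
  obtain ⟨V, v, hv⟩ := hT
  obtain ⟨g, h, hh⟩ := sLiftZ R T V v hv V (cmp v E.e ⟨E.he, E.hed⟩)
  have hw := ofZw_QI v hv
  have hG : ∀ i, ∀ x ∈ (ofZ V).G i, ofZh h x ∈ T.G (i + 1) := by
    intro i x hx
    rw [ofZh_G h i x hx]
    exact hh.1 i _
  have hhom : ∀ x, ofZw v ((ofZg g).e x) - E.e (ofZw v x) =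
      T.d (ofZh h x) + ofZh h ((ofZ V).d x) := by
    have h1 : ofZw v ∘ₗ (ofZg g).e - E.e ∘ₗ ofZw v =
        T.d ∘ₗ ofZh h + ofZh h ∘ₗ (ofZ V).d := by
      apply ofZ_ext
      intro i x hx
      change ofZw v ((ofZg g).e x) - E.e (ofZw v x) = T.d (ofZh h x) + ofZh h ((ofZ V).d x)
      rw [ofZw_G v i _ ((ofZg g).he i x hx), ofZw_G v i x hx, ofZh_G h i x hx,
        ofZh_G h (i - 1) _ ((ofZ V).dG i x hx)]
      have h2 := hh.2 i (x i)
      have h3 : (ofZ V).d x (i - 1) = V.d i (i - 1) (x i) := by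
        conv_lhs => rw [ofZ_eq_single V i x hx]
        rw [ofZs_d, ofZs_self]
      rw [h3]
      exact h2
    exact fun x => LinearMap.congr_fun h1 x
  have hq := tmh_QI (ofZg g) E (ofZw v) (ofZh h) hw hG hhom
  have hF : FGH (tel E) := by
    intro i
    obtain ⟨S, hS, hSc, hSs⟩ := perf_FGH ⟨V, v, hv⟩ i
    refine ⟨S.map (tj E 0), hS.map _, ?_, ?_⟩
    · rintro _ ⟨x, hx, rfl⟩
      exact ch_cyc (tj_ch E 0) (hSc x hx)
    · intro t ht
      obtain ⟨x, hx, hb⟩ := (sTelF R T E hE).1 i t ht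
      obtain ⟨s, hs, hb'⟩ := hSs x hx
      refine ⟨tj E 0 s, ⟨s, hs, rfl⟩, ?_⟩
      have h1 := bdy_add hb (ch_bdy (tj_ch E 0) hb')
      change (tel E).Bdy i (t - tj E 0 x + tj E 0 (x - s)) at h1
      rwa [map_sub, sub_add_sub_cancel] at h1
  have hP : (tel (ofZg g)).Perf := by
    refine lemA (2 * V.N + 1) (-(V.N : ℤ)) _ (tel_proj _ (ofZ_proj V)) ?_ ?_ (FGH_comap _ hq hF)
    · rintro i hi ⟨x, y⟩ hxy0
      have hxy := (tel_G _ i x y).1 hxy0
      have h0 : ∀ j : ℤ, j < -(V.N : ℤ) → ∀ z ∈ (ofZ V).G j, z = 0 := fun j hj z hz =>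
        ofZ_G0 V j (V.bdd j (by rw [lt_abs]; right; omega)) z hz
      refine Prod.ext ?_ ?_
      · ext k
        exact h0 i hi _ (hxy.1 k)
      · ext k
        exact h0 (i - 1) (by omega) _ (hxy.2 k)
    · rintro i hi ⟨x, y⟩ hxy0
      push_cast at hi
      have hxy := (tel_G _ i x y).1 hxy0
      have h0 : ∀ j : ℤ, (V.N : ℤ) < j → ∀ z ∈ (ofZ V).G j, z = 0 := fun j hj z hz =>
        ofZ_G0 V j (V.bdd j (by rw [lt_abs]; left; omega)) z hz
      refine Prod.ext ?_ ?_
      · ext k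
        exact h0 i (by omega) _ (hxy.1 k)
      · ext k
        exact h0 (i - 1) (by omega) _ (hxy.2 k)
  obtain ⟨c, hc⟩ := (perf_iff _).1 hP
  exact (perf_iff _).2 ⟨c, (sECq R _ _ _ hq c).1 hc⟩

end HBy
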