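import Pool.Agent.Lib.MP_181146_gt.HB.HF
import Pool.Agent.Lib.MP_181146_gt.HB.ECt

/-!
# Project HB, module Cl0 (helper80): a perfect complex with a Clifford pair of odd degree has class `0`
-/

set_option autoImplicit false

namespace HBy

open HEp HRx

/-- **Cl0.** A perfect complex with a Clifford pair of odd degree has the class `0`. -/
def S_Cl0 : Prop :=
  ∀ (R : Type) [CommRing R] [IsNoetherianRing R] (T : GC R) (n : ℤ) (_ : Clf T n), 0 < n → Odd n →
    BdH T → ∀ x, T.HasEC x → x = 0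

section modl

variable {R H : Type} [CommRing R] [AddCommGroup H] [Module R H] {X Y t : Module.End R H}

lemma t_cop (k : ℕ) : ∀ (l : ℕ) (h : H), (t ^ k) h = 0 → ((1 - t) ^ l) h = 0 → h = 0 := by
  induction k with
  | zero =>
    intro l h h1 _
    exact h1
  | succ k ih =>
    intro l h h1 h2
    have h3 : t h = 0 := by
      apply ih l (t h)
      · rw [pow_succ] at h1
        exact h1
      · have hc : Commute ((1 - t) ^ l) t :=
          ((Commute.one_left t).sub_left (Commute.refl t)).pow_left l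
        have h4 := LinearMap.congr_fun hc.eq h
        change ((1 - t) ^ l) (t h) = t (((1 - t) ^ l) h) at h4
        rw [h4, h2, map_zero]
    have h4 : ∀ l : ℕ, ((1 - t) ^ l) h = h := by
      intro l
      induction l with
      | zero => rfl
      | succ l ih2 =>
        rw [pow_succ]
        change ((1 - t) ^ l) (h - t h) = h
        rw [h3, sub_zero, ih2]
    rw [← h4 l, h2]

lemma t_dec {M : ℕ} (hM : (t * (1 - t)) ^ M = 0) (v : H) : ∃ v1 v2 : H, v = v1 + v2 ∧
    ((1 - t) ^ M) v1 = 0 ∧ (t ^ M) v2 = 0 := by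
  have h1 : IsCoprime ((Polynomial.X : Polynomial ℤ) ^ M) ((1 - Polynomial.X) ^ M) :=
    IsCoprime.pow ⟨1, 1, by ring⟩
  obtain ⟨a, b, hab⟩ := h1
  have h2 := congrArg (Polynomial.aeval t) hab
  rw [map_add, map_mul, map_mul, map_pow, map_pow, map_sub, map_one, Polynomial.aeval_X] at h2
  set p := Polynomial.aeval t a with hp
  set q := Polynomial.aeval t b with hq
  have hpt : Commute (1 - t) p := by
    have := Commute.all (1 - Polynomial.X : Polynomial ℤ) a
    have h3 := this.map (Polynomial.aeval t)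
    rw [map_sub, map_one, Polynomial.aeval_X] at h3
    exact h3
  have hqt : Commute t q := by
    have := Commute.all (Polynomial.X : Polynomial ℤ) b
    have h3 := this.map (Polynomial.aeval t)
    rw [Polynomial.aeval_X] at h3
    exact h3
  have hct : Commute t (1 - t) := (Commute.one_right t).sub_right (Commute.refl t)
  refine ⟨p ((t ^ M) v), q (((1 - t) ^ M) v), ?_, ?_, ?_⟩
  · exact (LinearMap.congr_fun h2 v).symm
  · have h3 : (1 - t) ^ M * (p * t ^ M) = 0 := by
      rw [← mul_assoc, (hpt.pow_left M).eq, mul_assoc, ← hct.symm.mul_pow]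
      have h4 : (1 - t) * t = t * (1 - t) := hct.eq.symm
      rw [h4, hM, mul_zero]
    exact LinearMap.congr_fun h3 v
  · have h3 : t ^ M * (q * (1 - t) ^ M) = 0 := by
      rw [← mul_assoc, (hqt.pow_left M).eq, mul_assoc, ← hct.mul_pow, hM, mul_zero]
    exact LinearMap.congr_fun h3 v

lemma t_inv (M : ℕ) (v : H) (hv : ((1 - t) ^ M) v = 0) :
    ∃ w : H, ((1 - t) ^ M) w = 0 ∧ t w = v := by
  have h1 := mul_neg_geom_sum (1 - t) M
  rw [sub_sub_cancel] at h1
  have hc : Commute ((1 - t) ^ M) (∑ j ∈ Finset.range M, (1 - t) ^ j) :=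
    Commute.sum_right _ _ _ fun j _ => (Commute.refl _).pow_pow M j
  refine ⟨(∑ j ∈ Finset.range M, (1 - t) ^ j) v, ?_, ?_⟩
  · have h2 := LinearMap.congr_fun hc.eq v
    change ((1 - t) ^ M) _ = (∑ j ∈ Finset.range M, (1 - t) ^ j) (((1 - t) ^ M) v) at h2
    rw [h2, hv, map_zero]
  · have h2 := LinearMap.congr_fun h1 v
    change t ((∑ j ∈ Finset.range M, (1 - t) ^ j) v) = v - ((1 - t) ^ M) v at h2
    rw [h2, hv, sub_zero]

lemma clr_tXk (h : X * Y + Y * X = 1) (k : ℕ) : (X * Y) ^ k * X = X * (1 - X * Y) ^ k := by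
  induction k with
  | zero => rw [pow_zero, pow_zero, one_mul, mul_one]
  | succ k ih =>
    rw [pow_succ' (X * Y), mul_assoc, ih, ← mul_assoc, clr_tX h, mul_assoc, ← pow_succ']

lemma clr_tYk (h : X * Y + Y * X = 1) (k : ℕ) : (X * Y) ^ k * Y = Y * (1 - X * Y) ^ k := by
  have h0 : X * Y * Y = Y * (1 - X * Y) := by
    rw [mul_sub, mul_one, clr_Yt h, sub_mul, one_mul, sub_sub_cancel]
  induction k with
  | zero => rw [pow_zero, pow_zero, one_mul, mul_one]
  | succ k ih =>
    rw [pow_succ' (X * Y), mul_assoc, ih, ← mul_assoc, h0, mul_assoc, ← pow_succ']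

lemma cl0_inj (h : X * Y + Y * X = 1) (k l : ℕ) (v : H) (h1 : ((X * Y) ^ k) v = 0)
    (h2 : ((X * Y) ^ l) (X v) = 0) : v = 0 := by
  apply t_cop k (l + 1) v h1
  have h3 := LinearMap.congr_fun (clr_tXk h l) v
  change ((X * Y) ^ l) (X v) = X (((1 - X * Y) ^ l) v) at h3
  rw [h2] at h3
  rw [pow_succ', Module.End.mul_apply, ← clr_yx h]
  change Y (X (((Y * X) ^ l) v)) = 0
  rw [clr_yx h, ← h3, map_zero]

lemma cl0_sur (h : X * Y + Y * X = 1) {M : ℕ} (hM : X ^ M = 0) (u v : H) :
    ∃ w : H, ((X * Y) ^ M) (w - v) = 0 ∧ ((X * Y) ^ M) (X w - u) = 0 := by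
  have hc := clr_nil h hM
  obtain ⟨v1, v2, rfl, hv1, hv2⟩ := t_dec hc v
  obtain ⟨u1, u2, rfl, hu1, hu2⟩ := t_dec hc u
  obtain ⟨w, hw, hw2⟩ := t_inv M u1 hu1
  refine ⟨v1 + Y w, ?_, ?_⟩
  · have h1 := LinearMap.congr_fun (clr_tYk h M) w
    change ((X * Y) ^ M) (Y w) = Y (((1 - X * Y) ^ M) w) at h1
    rw [hw, map_zero] at h1
    rw [add_sub_add_left_eq_sub, map_sub, h1, hv2, sub_zero]
  · have h1 := LinearMap.congr_fun (clr_tXk h M) v1
    change ((X * Y) ^ M) (X v1) = X (((1 - X * Y) ^ M) v1) at h1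
    rw [hv1, map_zero] at h1
    have h2 : X (v1 + Y w) - (u1 + u2) = X v1 - u2 := by
      rw [map_add]
      change X v1 + (X * Y) w - (u1 + u2) = X v1 - u2
      rw [hw2]
      abel
    rw [h2, map_sub, h1, hu2, sub_zero]

end modl

theorem sCl0 : S_Cl0 := by
  intro R _ _ T n c hn hodd hT x hx
  have hF : (cE c).Fit := sClF R T n c hn hT
  have hPe : T.Perf := by
    obtain ⟨U, F, hq, _⟩ := hx
    exact ⟨U, F, hq⟩
  obtain ⟨y, hy⟩ := (perf_iff _).1 (sECt R T (cE c) hF hPe)
  set E := cE c with hE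
  have he := o_e c
  have hce : ChE T (E.e : Module.End R T.V) := ChE.e E
  obtain ⟨M, hM⟩ := oX_nil c hn hT
  have hf : LCh ((tel E).sh (n - 1)) (tel E) (0 : (tel E).V →ₗ[R] (tel E).V) :=
    ⟨fun i x _ => ((tel E).G i).zero_mem, fun x => by
      change (0 : (tel E).V) = (tel E).d 0
      rw [map_zero]⟩
  let C : GC R := cone ((tel E).sh (n - 1)) (tel E) (0 : (tel E).V →ₗ[R] (tel E).V) hf
  have hC : C.HasEC (y - y) := by
    have h1 := (sECs R (tel E) y hy).2 (n - 1)
    rw [Int.negOnePow_even (n - 1) (hodd.sub_odd odd_one)] at h1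
    have h2 := sECc R _ _ _ hf _ _ h1 hy
    rw [Units.val_one, one_smul] at h2
    exact h2
  rw [sub_self] at hC
  let f : T.V →ₗ[R] C.V := LinearMap.prod (tj E 0 ∘ₗ c.X) (tj E 0)
  have hj := tj_ch E 0
  have e1 : ∀ i : ℤ, i - 1 - (n - 1) = i - n := fun i => by ring
  have hch : LCh T C f := by
    refine ⟨fun i x hx => ⟨?_, hj.1 i x hx⟩, fun x => Prod.ext ?_ ?_⟩
    · change tj E 0 (c.X x) ∈ (tel E).G (i - 1 - (n - 1))
      rw [e1]
      exact hj.1 _ _ (c.XG i x hx)
    · change tj E 0 (c.X (T.d x)) = -((tel E).d (tj E 0 (c.X x)))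
      rw [c.Xd, map_neg]
      exact congrArg _ (hj.2 _)
    · change tj E 0 (T.d x) = (tel E).d (tj E 0 x) + 0
      rw [add_zero]
      exact hj.2 x
  have hq : LQI T C f := by
    refine ⟨hch, fun i x hx hb => ?_, ?_⟩
    · obtain ⟨⟨a, b⟩, ⟨ha, hb'⟩, hab⟩ := hb
      have ha1 : -((tel E).d a) = tj E 0 (c.X x) := congrArg Prod.fst hab
      have hb1 : (tel E).d b + 0 = tj E 0 x := congrArg Prod.snd hab
      have hXc : T.Cyc (i - n) (c.X x) := by
        apply (oX c).cyc
        rw [sub_neg_eq_add, sub_add_cancel]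
        exact hx
      have h1 : (tel E).Bdy (i - n) (tj E 0 (c.X x)) := by
        have e2 : i + 1 - 1 - (n - 1) = i - n + 1 := by ring
        have ha' : a ∈ (tel E).G (i + 1 - 1 - (n - 1)) := ha
        rw [e2] at ha'
        exact ⟨-a, ((tel E).G _).neg_mem ha', ((tel E).d.map_neg a).trans ha1⟩
      have h2 : (tel E).Bdy i (tj E 0 x) := ⟨b, hb', by rw [← hb1, add_zero]⟩
      rw [tj_bdy E _ 0 _ hXc] at h1
      rw [tj_bdy E _ 0 _ hx] at h2
      obtain ⟨l, hl⟩ := h1
      obtain ⟨k, hk⟩ := h2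
      have h3 : hmk (sgl i x) (sgl_cyc hx) = 0 := by
        apply cl0_inj (o_rel c) k l
        · rw [← he, ← opz_pow, opz_mk, hmk_zero]
          intro j
          change T.Bdy j ((E.e ^ k : Module.End R T.V) (if j = i then x else 0))
          split_ifs with h
          · rw [h]
            exact hk
          · rw [map_zero]
            exact bdy_zero _ _
        · rw [← he, ← opz_pow, oX_mk c _ _ (oX_cyc c (sgl_cyc hx)), opz_mk, hmk_zero]
          intro j
          change T.Bdy j ((E.e ^ l : Module.End R T.V) (c.X (if j + n = i then x else 0)))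
          split_ifs with h
          · obtain rfl : j = i - n := by omega
            exact hl
          · rw [map_zero, map_zero]
            exact bdy_zero _ _
      rw [hmk_zero] at h3
      have h4 := h3 i
      rwa [sgl_self] at h4
    · rintro i ⟨u, v⟩ ⟨⟨hu, hv⟩, hd⟩
      have hu1 : -((tel E).d u) = 0 := congrArg Prod.fst hd
      have hv1 : (tel E).d v + 0 = 0 := congrArg Prod.snd hd
      change u ∈ (tel E).G (i - 1 - (n - 1)) at hu
      rw [e1] at hu
      rw [neg_eq_zero] at hu1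
      rw [add_zero] at hv1
      obtain ⟨u0, hu0, hu2⟩ := (sTelF R T E hF).1 (i - n) u ⟨hu, hu1⟩
      obtain ⟨v0, hv0, hv2⟩ := (sTelF R T E hF).1 i v ⟨hv, hv1⟩
      obtain ⟨w, hw1, hw2⟩ := cl0_sur (o_rel c) hM (hmk (sgl (i - n) u0) (sgl_cyc hu0))
        (hmk (sgl i v0) (sgl_cyc hv0))
      obtain ⟨g, hg, rfl⟩ := hmk_surj w
      rw [hmk_sub, ← he, ← opz_pow, opz_mk, hmk_zero] at hw1
      rw [oX_mk c _ _ (oX_cyc c hg), hmk_sub, ← he, ← opz_pow, opz_mk, hmk_zero] at hw2
      have h1 := hw1 i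
      have h2 := hw2 (i - n)
      rw [sgl_self] at h1 h2
      rw [sub_add_cancel] at h2
      have hXg : T.Cyc (i - n) (c.X (g i)) := by
        have h := oX_cyc c hg (i - n)
        rwa [sub_add_cancel] at h
      have h3 : (tel E).Bdy i (tj E 0 (g i - v0)) := by
        rw [tj_bdy E i 0 _ (cyc_sub (hg i) hv0)]
        exact ⟨M, h1⟩
      have h4 : (tel E).Bdy (i - n) (tj E 0 (c.X (g i) - u0)) := by
        rw [tj_bdy E _ 0 _ (cyc_sub hXg hu0)]
        exact ⟨M, h2⟩
      rw [map_sub] at h3 h4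
      have h5 := bdy_sub hv2 h3
      have h6 := bdy_sub hu2 h4
      rw [sub_sub_sub_cancel_right] at h5 h6
      obtain ⟨b, hb, hbd⟩ := h5
      obtain ⟨a, ha, had⟩ := h6
      refine ⟨g i, hg i, ⟨(-a, b), ⟨?_, hb⟩, Prod.ext ?_ ?_⟩⟩
      · change -a ∈ (tel E).G (i + 1 - 1 - (n - 1))
        have e2 : i + 1 - 1 - (n - 1) = i - n + 1 := by ring
        rw [e2]
        exact ((tel E).G _).neg_mem ha
      · have h7 : -((tel E).d (-a)) = @HSub.hSub (tel E).V (tel E).V (tel E).V _ u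
            (tj E 0 (c.X (g i))) := by
          rw [map_neg, neg_neg, had]
        exact h7
      · change (tel E).d b + 0 = v - tj E 0 (g i)
        rw [add_zero, hbd]
  exact sECu R C x 0 ((sECq R T C f hq x).1 hx) hC

end HBy
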