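import Pool.Agent.Lib.MP_181146_gt.HB.Lift

/-!
# Project HB, module Red (helper80): reduction of a model modulo a non zero divisor
-/

set_option autoImplicit false

namespace HBy

open HEp HRx
open scoped TensorProduct

/-- A non zero divisor acts injectively on projective modules. -/
lemma proj_reg {S : Type} [CommRing S] (s : S) (hs : ∀ a, s * a = 0 → a = 0) (M : Type)
    [AddCommGroup M] [Module S M] [Module.Projective S M] (x : M) (hx : s • x = 0) : x = 0 := by
  obtain ⟨g, hg⟩ := (Module.projective_def (R := S) (P := M)).1 inferInstance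
  have h1 : g x = 0 := by
    ext m
    apply hs
    have h2 := DFunLike.congr_fun (congrArg g hx) m
    rw [map_smul, map_zero] at h2
    exact h2
  rw [← hg x, h1, map_zero]

section

variable {S B : Type} [CommRing S] [CommRing B]

/-- The kernel of `M → B ⊗ M`. -/
lemma tens_ker (φ : S →+* B) (s : S) (hφ : Function.Surjective φ)
    (hk : ∀ a, φ a = 0 ↔ ∃ b, a = s * b) (M : Type) [AddCommGroup M] [Module S M] (x : M) :
    letI : Algebra S B := φ.toAlgebra
    ((1 : B) ⊗ₜ[S] x = (0 : B ⊗[S] M) ↔ ∃ y, x = s • y) := by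
  let : Algebra S B := φ.toAlgebra
  change (1 : B) ⊗ₜ[S] x = (0 : B ⊗[S] M) ↔ ∃ y, x = s • y
  have hex : Function.Exact (LinearMap.lsmul S S s) (Algebra.linearMap S B) := by
    intro a
    change φ a = 0 ↔ ∃ b, s • b = a
    rw [hk]
    exact ⟨fun ⟨b, h⟩ => ⟨b, h.symm⟩, fun ⟨b, h⟩ => ⟨b, h.symm⟩⟩
  have h2 := rTensor_exact M hex hφ
  constructor
  · intro h
    have h3 : (Algebra.linearMap S B).rTensor M ((1 : S) ⊗ₜ[S] x) = 0 := by
      rw [LinearMap.rTensor_tmul]
      change (φ 1) ⊗ₜ[S] x = 0
      rw [map_one]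
      exact h
    obtain ⟨z, hz⟩ := (h2 _).1 h3
    refine ⟨TensorProduct.lid S M z, ?_⟩
    have h4 : ∀ z : S ⊗[S] M, TensorProduct.lid S M ((LinearMap.lsmul S S s).rTensor M z) =
        s • TensorProduct.lid S M z := by
      intro z
      induction z using TensorProduct.induction_on with
      | zero => rw [map_zero, map_zero, smul_zero]
      | tmul a m =>
        rw [LinearMap.rTensor_tmul, TensorProduct.lid_tmul, TensorProduct.lid_tmul,
          LinearMap.lsmul_apply, smul_assoc]
      | add a b ha hb => rw [map_add, map_add, ha, hb, map_add, smul_add]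
    rw [← h4, hz, TensorProduct.lid_tmul, one_smul]
  · rintro ⟨y, rfl⟩
    rw [TensorProduct.tmul_smul, TensorProduct.smul_tmul']
    have h3 : (s • (1 : B)) = 0 := by
      change φ s * 1 = 0
      rw [(hk s).2 ⟨1, (mul_one s).symm⟩, zero_mul]
    rw [h3, TensorProduct.zero_tmul]

/-- The reduction of a bounded complex. -/
noncomputable def redZ (φ : S →+* B) (U : ZCx S) : ZCx B :=
  letI : Algebra S B := φ.toAlgebra
  { P := fun i => B ⊗[S] U.P i
    d := fun i j => (U.d i j).baseChange B
    shape := fun i j h => by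
      rw [U.shape i j h, LinearMap.baseChange_zero]
    dd := fun i j k x => by
      induction x using TensorProduct.induction_on with
      | zero => rw [map_zero, map_zero]
      | tmul b m =>
        rw [LinearMap.baseChange_tmul, LinearMap.baseChange_tmul, U.dd, TensorProduct.tmul_zero]
      | add a b ha hb => rw [map_add, map_add, ha, hb, add_zero]
    N := U.N
    bdd := fun i hi => by
      have := U.bdd i hi
      infer_instance }

/-- The reduction map. -/
noncomputable def redM (φ : S →+* B) (s : S) (hφ : Function.Surjective φ)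
    (hk : ∀ a, φ a = 0 ↔ ∃ b, a = s * b) (U : ZCx S) : RedZ φ s U (redZ φ U) :=
  letI : Algebra S B := φ.toAlgebra
  { c := fun i => ((TensorProduct.mk S B (U.P i)) 1).toAddMonoidHom
    sl := fun i a x => by
      change (1 : B) ⊗ₜ[S] (a • x) = φ a • ((1 : B) ⊗ₜ[S] x)
      rw [TensorProduct.tmul_smul, TensorProduct.smul_tmul', TensorProduct.smul_tmul']
      congr 1
    surj := fun i t => by
      change ∃ x : U.P i, (1 : B) ⊗ₜ[S] x = t
      induction t using TensorProduct.induction_on with
      | zero => exact ⟨0, TensorProduct.tmul_zero _ _⟩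
      | tmul b m =>
        obtain ⟨a, rfl⟩ := hφ b
        refine ⟨a • m, ?_⟩
        rw [TensorProduct.tmul_smul, TensorProduct.smul_tmul']
        congr 1
        change φ a * 1 = φ a
        rw [mul_one]
      | add a b ha hb =>
        obtain ⟨x, hx⟩ := ha
        obtain ⟨y, hy⟩ := hb
        exact ⟨x + y, by rw [TensorProduct.tmul_add, hx, hy]⟩
    ker := fun i x => tens_ker φ s hφ hk (U.P i) x
    comm := fun i j x => by
      change (1 : B) ⊗ₜ[S] (U.d i j x) = (U.d i j).baseChange B ((1 : B) ⊗ₜ[S] x)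
      rw [LinearMap.baseChange_tmul] }

end

theorem sRed : S_Red := by
  intro S B _ _ φ s hφ hk hs T Tb c hc H U u hu
  have hreg : ∀ i (x : U.P i), s • x = 0 → x = 0 := fun i x hx => proj_reg s hs (U.P i) x hx
  have hregT : ∀ x : T.V, s • x = 0 → x = 0 := fun x hx => H.inj x hx
  have hcd : ∀ x, c (T.d x) = Tb.d (c x) := H.chb.2
  -- the map
  obtain ⟨Ub, r, ub, hub⟩ : ∃ (Ub : ZCx B) (r : RedZ φ s U Ub) (ub : FMap Ub Tb),
      ∀ i x, ub.f i (r.c i x) = c (u.f i x) := by
    refine ⟨redZ φ U, redM φ s hφ hk U, ?_⟩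
    let : Algebra S B := φ.toAlgebra
    let : Module S Tb.V := Module.compHom Tb.V φ
    have : IsScalarTower S B Tb.V := ⟨fun a b x => by
      change (φ a * b) • x = φ a • b • x
      rw [mul_smul]⟩
    let f : ∀ i, U.P i →ₗ[S] Tb.V := fun i =>
      { toFun := fun x => c (u.f i x)
        map_add' := fun x y => by rw [map_add, map_add]
        map_smul' := fun a x => by
          rw [map_smul, hc]
          rfl }
    have hf : ∀ i (b : B) (x : U.P i), (f i).liftBaseChange B (b ⊗ₜ[S] x) = b • c (u.f i x) :=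
      fun i b x => LinearMap.liftBaseChange_tmul _ _ _ _
    refine ⟨⟨fun i => (f i).liftBaseChange B, fun i t => ?_, fun i t => ?_⟩, fun i x => ?_⟩
    · change (f i).liftBaseChange B t ∈ Tb.G i
      induction t using TensorProduct.induction_on with
      | zero =>
        rw [map_zero]
        exact (Tb.G i).zero_mem
      | tmul b m =>
        rw [hf]
        exact (Tb.G i).smul_mem b (H.chb.1 i _ (u.fG i m))
      | add a b ha hb =>
        rw [map_add]
        exact (Tb.G i).add_mem ha hb
    · change (f (i - 1)).liftBaseChange B ((U.d i (i - 1)).baseChange B t) =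
        Tb.d ((f i).liftBaseChange B t)
      induction t using TensorProduct.induction_on with
      | zero => rw [map_zero, map_zero, map_zero, map_zero]
      | tmul b m =>
        rw [LinearMap.baseChange_tmul, hf, hf, map_smul, ← hcd, u.fd]
      | add a b ha hb => rw [map_add, map_add, ha, hb, map_add, map_add]
    · change (f i).liftBaseChange B ((1 : B) ⊗ₜ[S] x) = _
      rw [hf, one_smul]
  refine ⟨Ub, r, ub, ⟨fun i t ht hb => ?_, fun i y hy => ?_⟩, hub⟩
  · obtain ⟨x, rfl⟩ := r.surj i t
    rw [hub] at hb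
    obtain ⟨y, hy, hyx⟩ := hb
    obtain ⟨y', hy', hyy⟩ := H.sur (i + 1) y hy
    -- `d x = s z`
    have h1 : r.c (i - 1) (U.d i (i - 1) x) = 0 := by
      rw [r.comm]
      exact ht _
    obtain ⟨z, hz⟩ := (r.ker _ _).1 h1
    have hzc : U.Cyc (i - 1) z := by
      intro j
      apply hreg
      rw [← map_smul, ← hz, U.dd]
    -- `u x - d y' = s w`
    have hyG := T.dG (i + 1) y' hy'
    rw [add_sub_cancel_right] at hyG
    obtain ⟨w, hw, hww⟩ := H.ex i (u.f i x - T.d y') ((T.G i).sub_mem (u.fG i x) hyG) (by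
      rw [map_sub, hcd, hyy, hyx, sub_self])
    have hww' : s • w = u.f i x - T.d y' := hww
    have hdw : T.d w = u.f (i - 1) z := by
      rw [← sub_eq_zero]
      apply hregT
      rw [smul_sub, ← map_smul, hww', map_sub, T.dd, sub_zero, ← u.fd, hz, map_smul, sub_self]
    obtain ⟨k, z', hz'⟩ := hu.1 (i - 1) z hzc ⟨w, by
      rw [sub_add_cancel]
      exact hw, hdw⟩
    obtain ⟨z', hz'⟩ : ∃ z' : U.P i, U.d i (i - 1) z' = z := by
      by_cases hki : k = i
      · subst hki
        exact ⟨z', hz'⟩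
      · rw [U.shape k (i - 1) (by omega)] at hz'
        exact ⟨0, by rw [map_zero]; exact hz'⟩
    have hx' : U.Cyc i (x - s • z') := z_cyc.2 (by
      rw [map_sub, map_smul, hz', hz, sub_self])
    have hwc : T.Cyc i (w - u.f i z') := by
      refine ⟨(T.G i).sub_mem hw (u.fG i _), ?_⟩
      rw [map_sub, hdw, ← u.fd, hz', sub_self]
    obtain ⟨x'', hx'', w', hw', hww''⟩ := hu.2 i _ hwc
    have hB : U.Bdy i (x - s • z' - s • x'') := by
      refine hu.1 i _ ?_ ⟨y' + s • w', ?_, ?_⟩
      · intro j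
        rw [map_sub, map_smul, hx' j, hx'' j, smul_zero, sub_zero]
      · exact (T.G (i + 1)).add_mem hy' ((T.G (i + 1)).smul_mem s hw')
      · rw [map_add, map_smul, hww'', map_sub, map_sub, map_smul, map_smul, smul_sub, smul_sub,
          hww']
        abel
    obtain ⟨k', q, hq⟩ := hB
    refine ⟨k', r.c k' q, ?_⟩
    rw [← r.comm, hq, map_sub, map_sub, (r.ker i (s • z')).2 ⟨_, rfl⟩,
      (r.ker i (s • x'')).2 ⟨_, rfl⟩, sub_zero, sub_zero]
  · obtain ⟨y', hy', rfl⟩ := H.sur i y hy.1
    obtain ⟨w, hw, hww⟩ := H.ex (i - 1) (T.d y') (T.dG i y' hy') (by rw [hcd]; exact hy.2)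
    have hww' : s • w = T.d y' := hww
    have hwc : T.Cyc (i - 1) w := by
      refine ⟨hw, ?_⟩
      apply hregT
      rw [← map_smul, hww', T.dd]
    obtain ⟨z, hz, v, hv, hvv⟩ := hu.2 (i - 1) w hwc
    rw [sub_add_cancel] at hv
    have hB : U.Bdy (i - 1) (s • z) := by
      refine hu.1 (i - 1) _ ?_ ⟨y' - s • v, ?_, ?_⟩
      · intro j
        rw [map_smul, hz j, smul_zero]
      · rw [sub_add_cancel]
        exact (T.G i).sub_mem hy' ((T.G i).smul_mem s hv)
      · rw [map_sub, map_smul, hvv, map_smul, smul_sub, hww', sub_sub_cancel]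
    obtain ⟨k, x, hx⟩ := hB
    obtain ⟨x, hx⟩ : ∃ x : U.P i, U.d i (i - 1) x = s • z := by
      by_cases hki : k = i
      · subst hki
        exact ⟨x, hx⟩
      · rw [U.shape k (i - 1) (by omega)] at hx
        exact ⟨0, by rw [map_zero]; exact hx⟩
    have hcyc : T.Cyc i (y' - s • v - u.f i x) := by
      refine ⟨(T.G i).sub_mem ((T.G i).sub_mem hy' ((T.G i).smul_mem s hv)) (u.fG i _), ?_⟩
      rw [map_sub, map_sub, map_smul, hvv, ← u.fd, hx, map_smul, smul_sub, hww']
      abel
    obtain ⟨x2, hx2, v2, hv2, hvv2⟩ := hu.2 i _ hcyc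
    refine ⟨r.c i (x + x2), ?_, ?_⟩
    · rw [z_cyc, ← r.comm, map_add, hx, hx2, add_zero, (r.ker _ (s • z)).2 ⟨_, rfl⟩]
    · rw [hub]
      refine ⟨c v2, H.chb.1 _ _ hv2, ?_⟩
      have h3 : c (s • v) = 0 := H.ba v
      rw [← hcd, hvv2, map_sub, map_sub, map_sub, h3, map_add, map_add]
      abel

end HBy
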