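import Pool.Agent.Lib.MP_181146_gt.HB.Rst
import Pool.Agent.Lib.MP_181146_gt.HB.ECt

/-!
# Project HB, module Up (helper80): perfect complexes over `S / s` are perfect over `S`
-/

set_option autoImplicit false

namespace HBy

open HEp HRx

section

variable {S B : Type} [CommRing S] [CommRing B]

/-- A linear map between restricted complexes. -/
def rstL (φ : S →+* B) {X Y : GC B} (f : X.V →ₗ[B] Y.V) : (rst φ X).V →ₗ[S] (rst φ Y).V where
  toFun x := f x
  map_add' x y := f.map_add x y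
  map_smul' a x := f.map_smul (φ a) x

lemma rst_SES (φ : S →+* B) {X Y Z : GC B} {a : X.V →ₗ[B] Y.V} {b : Y.V →ₗ[B] Z.V}
    (H : SES X Y Z a.toAddMonoidHom b.toAddMonoidHom) :
    SES (rst φ X) (rst φ Y) (rst φ Z) (rstL φ a).toAddMonoidHom (rstL φ b).toAddMonoidHom :=
  ⟨H.cha, H.chb, H.inj, H.ba, H.ex, H.sur⟩

lemma rst_LQI (φ : S →+* B) {X Y : GC B} {f : X.V →ₗ[B] Y.V} (H : LQI X Y f) :
    LQI (rst φ X) (rst φ Y) (rstL φ f) := H

/-- An acyclic complex is perfect. -/
lemma acy_perf {T : GC S} (h : T.Acy) : T.Perf := by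
  refine ⟨zone PUnit 0, ⟨fun _ => 0, fun i x => (T.G i).zero_mem, fun i x => ?_⟩,
    ⟨fun i x hx hb => ?_, fun i y hy => ⟨0, fun j => map_zero _, ?_⟩⟩⟩
  · rw [LinearMap.zero_apply, LinearMap.zero_apply, map_zero]
  · have h0 : x = 0 := by
      funext j
      rfl
    rw [h0]
    exact ⟨i, 0, map_zero _⟩
  · rw [LinearMap.zero_apply, sub_zero]
    exact h i y hy

variable (φ : S →+* B) (s : S) (hφ : Function.Surjective φ)
  (hk : ∀ a, φ a = 0 ↔ ∃ b, a = s * b) (hs : ∀ a, s * a = 0 → a = 0)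

/-- Coordinatewise reduction. -/
def Phi (n : ℕ) : (Fin n → S) →+ (Fin n → B) := AddMonoidHom.compLeft φ.toAddMonoidHom (Fin n)

lemma Phi_apply (n : ℕ) (x : Fin n → S) (j : Fin n) : Phi φ n x j = φ (x j) := rfl

lemma Phi_smul (n : ℕ) (a : S) (x : Fin n → S) : Phi φ n (a • x) = φ a • Phi φ n x := by
  funext j
  rw [Phi_apply, Pi.smul_apply, Pi.smul_apply, Phi_apply, smul_eq_mul, smul_eq_mul, map_mul]

include hφ in
lemma Phi_surj (n : ℕ) : Function.Surjective (Phi φ n) := by
  intro y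
  choose g hg using hφ
  exact ⟨fun j => g (y j), funext fun j => hg (y j)⟩

include hk in
lemma Phi_ker (n : ℕ) (x : Fin n → S) : Phi φ n x = 0 ↔ ∃ y, x = s • y := by
  constructor
  · intro h
    have h1 : ∀ j, ∃ b, x j = s * b := fun j => (hk _).1 (congrFun h j)
    choose y hy using h1
    exact ⟨y, funext hy⟩
  · rintro ⟨y, rfl⟩
    rw [Phi_smul, (hk s).2 ⟨1, (mul_one s).symm⟩, zero_smul]

/-- The kernel of `S^n → B^n → M`. -/
def KerM (n : ℕ) {M : Type} [AddCommGroup M] [Module B M] (β : (Fin n → B) →ₗ[B] M) :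
    Submodule S (Fin n → S) where
  carrier := {x | β (Phi φ n x) = 0}
  add_mem' := fun {x y} hx hy => by
    change β (Phi φ n (x + y)) = 0
    rw [map_add, map_add, hx, hy, add_zero]
  zero_mem' := by
    change β (Phi φ n 0) = 0
    rw [map_zero, map_zero]
  smul_mem' := fun a x hx => by
    change β (Phi φ n (a • x)) = 0
    rw [Phi_smul, map_smul, hx, smul_zero]

include hφ hk hs in
lemma KerM_fp (n : ℕ) {M : Type} [AddCommGroup M] [Module B M] (β : (Fin n → B) →ₗ[B] M)
    (α : M →ₗ[B] (Fin n → B)) (hαβ : ∀ x, β (α x) = x) :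
    Module.Finite S (KerM φ n β) ∧ Module.Projective S (KerM φ n β) := by
  classical
  -- the lift of `α β`
  have h1 : ∀ j : Fin n, ∃ a : Fin n → S, Phi φ n a = α (β (Pi.single j 1)) := fun j =>
    Phi_surj φ hφ n _
  choose a ha using h1
  let ε : (Fin n → S) →ₗ[S] (Fin n → S) := Fintype.linearCombination S a
  have hε : ∀ x, Phi φ n (ε x) = α (β (Phi φ n x)) := by
    intro x
    have e1 : ε x = ∑ j, x j • a j := rfl
    have e2 : Phi φ n x = ∑ j, φ (x j) • (Pi.single j (1 : B) : Fin n → B) := by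
      funext l
      rw [Finset.sum_apply, Phi_apply]
      simp [Pi.single_apply]
    rw [e1, map_sum, e2, map_sum, map_sum]
    refine Finset.sum_congr rfl fun j _ => ?_
    rw [Phi_smul, ha, map_smul, map_smul]
  have hreg : ∀ x : Fin n → S, s • x = 0 → x = 0 := fun x hx => funext fun j => hs _ (congrFun hx j)
  have hinj : Function.Injective (LinearMap.lsmul S (Fin n → S) s) := by
    intro x y hxy
    rw [← sub_eq_zero]
    apply hreg
    rw [smul_sub, sub_eq_zero]
    exact hxy
  let div := (LinearEquiv.ofInjective (LinearMap.lsmul S (Fin n → S) s) hinj).symm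
  let i2 : KerM φ n β →ₗ[S] LinearMap.range (LinearMap.lsmul S (Fin n → S) s) :=
    LinearMap.codRestrict _ (ε ∘ₗ (KerM φ n β).subtype) (fun x => by
      have h2 : Phi φ n (ε x) = 0 := by
        have h3 : β (Phi φ n x) = 0 := x.2
        rw [hε, h3, map_zero]
      obtain ⟨y, hy⟩ := (Phi_ker φ s hk n _).1 h2
      exact ⟨y, hy.symm⟩)
  let ii : KerM φ n β →ₗ[S] (Fin n → S) × (Fin n → S) :=
    LinearMap.prod (KerM φ n β).subtype (div.toLinearMap ∘ₗ i2)
  let pp : ((Fin n → S) × (Fin n → S)) →ₗ[S] KerM φ n β :=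
    LinearMap.codRestrict (KerM φ n β)
      ((LinearMap.id - ε) ∘ₗ LinearMap.fst S _ _ + s • LinearMap.snd S _ _) (fun x => by
        change β (Phi φ n (x.1 - ε x.1 + s • x.2)) = 0
        rw [map_add, (Phi_ker φ s hk n (s • x.2)).2 ⟨_, rfl⟩, add_zero, map_sub, hε, map_sub, hαβ,
          sub_self])
  have hpi : ∀ x, pp (ii x) = x := by
    intro x
    apply Subtype.ext
    change (x : Fin n → S) - ε x + s • div (i2 x) = x
    have h2 : s • div (i2 x) = ε x := by
      have h3 := (LinearEquiv.ofInjective (LinearMap.lsmul S (Fin n → S) s) hinj).apply_symm_apply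
        (i2 x)
      exact congrArg Subtype.val h3
    rw [h2, sub_add_cancel]
  exact ⟨Module.Finite.of_surjective pp fun x => ⟨ii x, hpi x⟩,
    Module.Projective.of_split ii pp (LinearMap.ext hpi)⟩

include hφ hk hs in
/-- A finitely generated projective `B`-module in one degree is perfect over `S`. -/
lemma perf_zone (M : Type) [AddCommGroup M] [Module B M] [Module.Finite B M]
    [Module.Projective B M] (m : ℤ) : (rst φ (ofZ (zone (R := B) M m))).Perf := by
  classical
  obtain ⟨N, n, ⟨e⟩⟩ := exists_compl (R := B) M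
  let β : (Fin n → B) →ₗ[B] M := LinearMap.fst B M N.M ∘ₗ e.symm.toLinearMap
  let α : M →ₗ[B] (Fin n → B) := e.toLinearMap ∘ₗ LinearMap.inl B M N.M
  have hαβ : ∀ x, β (α x) = x := fun x => by
    change (e.symm (e (x, 0))).1 = x
    rw [e.symm_apply_apply]
  obtain ⟨hf, hp⟩ := KerM_fp φ s hφ hk hs n β α hαβ
  -- a section
  have hsec : ∀ t : M, ∃ y : Fin n → S, β (Phi φ n y) = t ∧ (t = 0 → y = 0) := by
    intro t
    by_cases ht : t = 0
    · exact ⟨0, by rw [map_zero, map_zero, ht], fun _ => rfl⟩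
    · obtain ⟨y, hy⟩ := Phi_surj φ hφ n (α t)
      exact ⟨y, by rw [hy, hαβ], fun h => absurd h ht⟩
  choose σ hσ hσ0 using hsec
  let X : GC S := ofZ (zone (R := S) (KerM φ n β) m)
  let Y : GC S := ofZ (zone (R := S) (Fin n → S) m)
  let Z : GC S := rst φ (ofZ (zone (R := B) M m))
  let a : X.V →ₗ[S] Y.V :=
    { toFun := fun x i h => (x i h : Fin n → S)
      map_add' := fun x y => rfl
      map_smul' := fun c x => rfl }
  let b : Y.V →ₗ[S] Z.V :=
    { toFun := fun y i h => β (Phi φ n (y i h))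
      map_add' := fun x y => by
        funext i h
        change β (Phi φ n (x i h + y i h)) = β (Phi φ n (x i h)) + β (Phi φ n (y i h))
        rw [map_add, map_add]
      map_smul' := fun c x => by
        funext i h
        change β (Phi φ n (c • x i h)) = φ c • β (Phi φ n (x i h))
        rw [Phi_smul, map_smul] }
  have H : SES X Y Z a.toAddMonoidHom b.toAddMonoidHom := by
    refine ⟨⟨fun i x hx j hj => ?_, fun x => ?_⟩, ⟨fun i y hy j hj => ?_, fun y => ?_⟩,
      fun x hx => ?_, fun x => ?_, fun i y hy hb => ?_, fun i z hz => ?_⟩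
    · funext h
      have h1 : x j = 0 := hx j hj
      have h2 : x j h = 0 := congrFun h1 h
      change (x j h : Fin n → S) = 0
      rw [h2]
      rfl
    · funext j h
      rfl
    · funext h
      have h1 : y j = 0 := hy j hj
      have h2 : y j h = 0 := congrFun h1 h
      change β (Phi φ n (y j h)) = 0
      rw [h2, map_zero, map_zero]
    · funext j h
      change β (Phi φ n (0 : Fin n → S)) = (0 : M)
      rw [map_zero, map_zero]
    · funext j h
      apply Subtype.ext
      exact congrFun (congrFun hx j) h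
    · funext j h
      exact (x j h).2
    · refine ⟨fun j h => ⟨y j h, congrFun (congrFun hb j) h⟩, fun j hj => ?_, rfl⟩
      funext h
      apply Subtype.ext
      exact congrFun (hy j hj) h
    · refine ⟨fun j h => σ (z j h), fun j hj => ?_, ?_⟩
      · funext h
        exact hσ0 _ (congrFun (hz j hj) h)
      · funext j h
        exact hσ _
  have h1 := ofZ_HasEC (zone (R := S) (KerM φ n β) m)
  have h2 := ofZ_HasEC (zone (R := S) (Fin n → S) m)
  exact (perf_iff _).2 ⟨_, (sECx S X Y Z a b H).1 _ _ h1 h2⟩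

end

section

variable {B : Type} [CommRing B]

/-- The part of degrees `≤ m`. -/
def ltW (U : ZCx B) (m : ℤ) : Submodule B (ofZ U).V where
  carrier := {x | ∀ j, m < j → x j = 0}
  add_mem' := fun {x y} hx hy j hj => by
    change x j + y j = 0
    rw [hx j hj, hy j hj, add_zero]
  zero_mem' := fun j _ => rfl
  smul_mem' := fun a x hx j hj => by
    change a • x j = 0
    rw [hx j hj, smul_zero]

/-- The subcomplex of degrees `≤ m`. -/
def ltC (U : ZCx B) (m : ℤ) : GC B where
  V := ltW U m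
  d := LinearMap.codRestrict (ltW U m) ((ofZ U).d ∘ₗ (ltW U m).subtype) (fun x j hj => by
    change U.d (j + 1) j ((x : (ofZ U).V) (j + 1)) = 0
    rw [x.2 (j + 1) (by omega), map_zero])
  G i := ((ofZ U).G i).comap (ltW U m).subtype
  dG i x hx := (ofZ U).dG i x hx
  dd x := Subtype.ext ((ofZ U).dd x)

lemma ltC_SES (U : ZCx B) (m : ℤ) : ∃ (a : (ltC U (m - 1)).V →ₗ[B] (ltC U m).V)
    (b : (ltC U m).V →ₗ[B] (ofZ (zone (R := B) (U.P m) m)).V),
    SES (ltC U (m - 1)) (ltC U m) (ofZ (zone (R := B) (U.P m) m)) a.toAddMonoidHom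
      b.toAddMonoidHom := by
  have hle : ltW U (m - 1) ≤ ltW U m := fun x hx j hj => hx j (by omega)
  let a : (ltC U (m - 1)).V →ₗ[B] (ltC U m).V := Submodule.inclusion hle
  let b : (ltC U m).V →ₗ[B] (ofZ (zone (R := B) (U.P m) m)).V :=
    { toFun := fun x _ _ => x.1 m
      map_add' := fun x y => rfl
      map_smul' := fun c x => rfl }
  refine ⟨a, b, ⟨⟨fun i x hx => hx, fun x => rfl⟩, ⟨fun i x hx j hj => ?_, fun x => ?_⟩,
    fun x hx => ?_, fun x => ?_, fun i x hx hb => ?_, fun i z hz => ?_⟩⟩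
  · funext h
    obtain ⟨h'⟩ := h
    subst h'
    exact hx j hj
  · funext j h
    change U.d (m + 1) m (x.1 (m + 1)) = 0
    rw [x.2 (m + 1) (by omega), map_zero]
  · exact Submodule.inclusion_injective hle (hx.trans (map_zero a).symm)
  · funext j h
    exact x.2 m (by omega)
  · refine ⟨⟨x.1, fun j hj => ?_⟩, hx, rfl⟩
    rcases (show j = m ∨ m < j by omega) with h | h
    · subst h
      exact congrFun (congrFun hb j) ⟨rfl⟩
    · exact x.2 j h
  · by_cases hi : i = m
    · subst hi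
      refine ⟨⟨ofZs U i (z i ⟨rfl⟩), fun j hj => ofZs_ne U i j _ (by omega)⟩, ofZs_G U i _, ?_⟩
      funext j h
      obtain ⟨h'⟩ := h
      subst h'
      exact ofZs_self U j _
    · refine ⟨0, ((ltC U m).G i).zero_mem, ?_⟩
      rw [map_zero]
      funext j h
      obtain ⟨h'⟩ := h
      subst h'
      exact (congrFun (hz j (fun h'' => hi h''.symm)) ⟨rfl⟩).symm

end

theorem sUp : S_Up := by
  intro S B _ _ φ s hφ hk hs T Tb q hq hQ hP
  obtain ⟨w, hw, _⟩ := rst_QI φ Tb T q hq hQ
  obtain ⟨U, u, hu⟩ := hP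
  have hN : ∀ k : ℕ, (rst φ (ltC U (-(U.N : ℤ) - 1 + k))).Perf := by
    intro k
    induction k with
    | zero =>
      apply acy_perf
      intro i x hx
      have h0 : x = 0 := by
        apply Subtype.ext
        funext j
        by_cases hj : -(U.N : ℤ) - 1 + (0 : ℕ) < j
        · exact x.2 j hj
        · exact ofZ_zero U _ j (by
            rw [lt_abs]
            right
            push_cast at hj
            omega)
      rw [h0]
      exact bdy_zero _ _
    | succ k ih =>
      obtain ⟨a, b, H⟩ := ltC_SES U (-(U.N : ℤ) - 1 + (k + 1 : ℕ))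
      have e : -(U.N : ℤ) - 1 + (k + 1 : ℕ) - 1 = -(U.N : ℤ) - 1 + k := by
        push_cast
        ring
      rw [← e] at ih
      obtain ⟨x, hx⟩ := (perf_iff _).1 ih
      obtain ⟨z, hz⟩ := (perf_iff _).1 (perf_zone φ s hφ hk hs
        (U.P (-(U.N : ℤ) - 1 + (k + 1 : ℕ))) (-(U.N : ℤ) - 1 + (k + 1 : ℕ)))
      exact (perf_iff _).2 ⟨_, (sECx S _ _ _ _ _ (rst_SES φ H)).2.2 _ _ hx hz⟩
  have h1 := hN (2 * U.N + 1)
  have e : -(U.N : ℤ) - 1 + (2 * U.N + 1 : ℕ) = U.N := by
    push_cast
    ring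
  rw [e] at h1
  have h2 : LQI (ltC U U.N) (ofZ U) (ltW U U.N).subtype := by
    have hall : ∀ x : (ofZ U).V, x ∈ ltW U U.N := fun x j hj =>
      ofZ_zero U x j (by rw [lt_abs]; left; exact hj)
    refine ⟨⟨fun i x hx => hx, fun x => rfl⟩, fun i x hx hb => ?_, fun i y hy => ?_⟩
    · obtain ⟨z, hz, hzx⟩ := hb
      exact ⟨⟨z, hall z⟩, hz, Subtype.ext hzx⟩
    · refine ⟨⟨y, hall y⟩, ⟨hy.1, Subtype.ext hy.2⟩, ?_⟩
      change (ofZ U).Bdy i (y - y)
      rw [sub_self]
      exact bdy_zero _ _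
  obtain ⟨x, hx⟩ := (perf_iff _).1 h1
  have h3 := (sECq S _ _ _ (rst_LQI φ h2) x).1 hx
  have h4 := (sECq S _ _ _ (rst_LQI φ (ofZw_QI u hu)) x).1 h3
  exact (perf_iff _).2 ⟨x, (sECq S T (rst φ Tb) w hw x).2 h4⟩

end HBy
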