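import Pool.Agent.Lib.MP_181146_gt.HB.ClA
import Pool.Agent.Lib.MP_181146_gt.HB.Cl0
import Pool.Agent.Lib.MP_181146_gt.HB.Red
import Pool.Agent.Lib.MP_181146_gt.HB.Up

/-!
# Project HB (part B of the full theorem for MP_181146_gt): all modules
-/
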