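import Pool.Agent.Lib.MP_181146_gt.HB.Lift

/-!
# Project HB, modules ECs, ECc, ECx (helper80)
-/

set_option autoImplicit false

namespace HBy

open HEp HRx

section

variable {R : Type} [CommRing R]

/-! ## Signs and shifts -/

lemma EC_finsum (U : ZCx R) : U.EC = ∑ᶠ i : ℤ, (i.negOnePow : ℤ) • cl R (U.P i) := by
  unfold ZCx.EC
  symm
  apply finsum_eq_sum_of_support_subset
  intro i hi
  rw [Finset.mem_coe, mem_Icc_abs]
  by_contra h
  have := U.bdd i (not_le.1 h)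
  rw [Function.mem_support, cl_subsingleton, smul_zero] at hi
  exact hi rfl

/-- The shifted complex. -/
def zsh (U : ZCx R) (m : ℤ) : ZCx R where
  P i := U.P (i - m)
  d i j := U.d (i - m) (j - m)
  shape i j h := U.shape _ _ (by omega)
  dd i j k x := U.dd _ _ _ x
  N := U.N + m.natAbs
  bdd i hi := U.bdd _ (by
    have h1 : ((U.N + m.natAbs : ℕ) : ℤ) = U.N + |m| := by
      rw [Nat.cast_add, Int.natCast_natAbs]
    rw [h1] at hi
    have h2 : |i| ≤ |i - m| + |m| := by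
      have := abs_add_le (i - m) m
      rwa [sub_add_cancel] at this
    linarith)

lemma zsh_EC (U : ZCx R) (m : ℤ) : (zsh U m).EC = (m.negOnePow : ℤ) • U.EC := by
  have hfin : (Function.support fun i : ℤ => (i.negOnePow : ℤ) • cl R (U.P i)).Finite := by
    refine (Finset.Icc (-(U.N : ℤ)) U.N).finite_toSet.subset fun i hi => ?_
    rw [Finset.mem_coe, mem_Icc_abs]
    by_contra h
    have := U.bdd i (not_le.1 h)
    rw [Function.mem_support, cl_subsingleton, smul_zero] at hi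
    exact hi rfl
  rw [EC_finsum, EC_finsum, smul_finsum' _ hfin, ← finsum_comp_equiv (Equiv.addRight m)]
  refine finsum_congr fun i => ?_
  change ((i + m).negOnePow : ℤ) • cl R (U.P (i + m - m)) = _
  have h1 : cl R (U.P (i + m - m)) = cl R (U.P i) := by
    have : ∀ j : ℤ, j = i → cl R (U.P j) = cl R (U.P i) := by
      rintro _ rfl
      rfl
    exact this _ (add_sub_cancel_right i m)
  rw [h1, Int.negOnePow_add, smul_smul, mul_comm (i.negOnePow), Units.val_mul]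

lemma ng_cyc (T : GC R) (i : ℤ) (x : T.V) : T.ng.Cyc i x ↔ T.Cyc i x :=
  ⟨fun h => ⟨h.1, neg_eq_zero.1 h.2⟩, fun h => ⟨h.1, neg_eq_zero.2 h.2⟩⟩

lemma ng_bdy (T : GC R) (i : ℤ) (x : T.V) : T.ng.Bdy i x ↔ T.Bdy i x := by
  constructor
  · intro hb
    obtain ⟨y, hy, h⟩ : ∃ y ∈ T.G (i + 1), -(T.d y) = x := hb
    exact ⟨-y, (T.G (i + 1)).neg_mem hy, by rw [map_neg, h]⟩
  · rintro ⟨y, hy, h⟩
    refine ⟨-y, (T.G (i + 1)).neg_mem hy, ?_⟩
    change -(T.d (-y)) = x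
    rw [map_neg, neg_neg, h]

lemma bdy_zsmul {T : GC R} {i : ℤ} {x : T.V} (a : ℤ) (hx : T.Bdy i x) : T.Bdy i (a • x) := by
  obtain ⟨b, hb, rfl⟩ := hx
  exact ⟨a • b, zsmul_mem hb _, map_zsmul _ _ _⟩

lemma sq_sign (i : ℤ) {M : Type} [AddCommGroup M] (x : M) :
    (i.negOnePow : ℤ) • (i.negOnePow : ℤ) • x = x := by
  rw [smul_smul, ← Units.val_mul, ← sq, Int.units_sq, Units.val_one, one_smul]

lemma bdy_sign {T : GC R} {i : ℤ} {x : T.V} (j : ℤ) :
    T.Bdy i ((j.negOnePow : ℤ) • x) ↔ T.Bdy i x :=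
  ⟨fun h => by have := bdy_zsmul (j.negOnePow : ℤ) h; rwa [sq_sign] at this, fun h => bdy_zsmul _ h⟩

lemma sh_cyc (T : GC R) (m i : ℤ) (x : T.V) : (T.sh m).Cyc i x ↔ T.Cyc (i - m) x := Iff.rfl

lemma sh_bdy (T : GC R) (m i : ℤ) (x : T.V) : (T.sh m).Bdy i x ↔ T.Bdy (i - m) x := by
  have e : i + 1 - m = i - m + 1 := by ring
  constructor
  · rintro ⟨y, hy, h⟩
    have hy' : y ∈ T.G (i + 1 - m) := hy
    rw [e] at hy'
    exact ⟨y, hy', h⟩
  · rintro ⟨y, hy, h⟩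
    refine ⟨y, ?_, h⟩
    change y ∈ T.G (i + 1 - m)
    rwa [e]

/-- The model of `T.ng`. -/
noncomputable def fng {U : ZCx R} {T : GC R} (u : FMap U T) : FMap U T.ng where
  f i := (i.negOnePow : ℤ) • u.f i
  fG i x := by
    change (i.negOnePow : ℤ) • u.f i x ∈ T.G i
    exact zsmul_mem (u.fG i x) _
  fd i x := by
    change ((i - 1).negOnePow : ℤ) • u.f (i - 1) (U.d i (i - 1) x) =
      -(T.d ((i.negOnePow : ℤ) • u.f i x))
    rw [u.fd, map_zsmul, Int.negOnePow_sub, Int.negOnePow_one, mul_neg, mul_one, Units.val_neg,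
      neg_smul]

lemma fng_apply {U : ZCx R} {T : GC R} (u : FMap U T) (i : ℤ) (x : U.P i) :
    (fng u).f i x = (i.negOnePow : ℤ) • u.f i x := rfl

/-- The model of `T.sh m`. -/
def fsh {U : ZCx R} {T : GC R} (u : FMap U T) (m : ℤ) : FMap (zsh U m) (T.sh m) where
  f i := u.f (i - m)
  fG i x := u.fG _ x
  fd i x := by
    change u.f (i - 1 - m) (U.d (i - m) (i - 1 - m) x) = T.d (u.f (i - m) x)
    rw [← u.fd]
    have : ∀ j : ℤ, j = i - m - 1 →
        u.f j (U.d (i - m) j x) = u.f (i - m - 1) (U.d (i - m) (i - m - 1) x) := by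
      rintro _ rfl
      rfl
    exact this _ (by omega)

end

theorem sECs : S_ECs := by
  rintro R _ T x ⟨U, u, hu, rfl⟩
  refine ⟨⟨U, fng u, ⟨fun i x hx hb => ?_, fun i y hy => ?_⟩, rfl⟩,
    fun m => ⟨zsh U m, fsh u m, ⟨fun i x hx hb => ?_, fun i y hy => ?_⟩, zsh_EC U m⟩⟩
  · rw [fng_apply, ng_bdy] at hb
    exact hu.1 i x hx ((bdy_sign i).1 hb)
  · obtain ⟨x, hx, hb⟩ := hu.2 i y ((ng_cyc T i y).1 hy)
    refine ⟨(i.negOnePow : ℤ) • x, fun j => by rw [map_zsmul, hx, smul_zero], ?_⟩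
    rw [fng_apply, map_zsmul, sq_sign]
    exact (ng_bdy T i _).2 hb
  · have hx' : U.Cyc (i - m) x := z_cyc.2 (by
      have h1 : U.d (i - m) (i - 1 - m) x = 0 := hx (i - 1)
      have : ∀ j : ℤ, j = i - 1 - m → U.d (i - m) j x = 0 := by
        rintro _ rfl
        exact h1
      exact this _ (by omega))
    obtain ⟨k, y, h⟩ := hu.1 _ x hx' ((sh_bdy T m i _).1 hb)
    have : ∀ l : ℤ, l = k → ∃ y : U.P l, U.d l (i - m) y = x := by
      rintro _ rfl
      exact ⟨y, h⟩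
    exact ⟨k + m, this _ (add_sub_cancel_right k m)⟩
  · obtain ⟨x, hx, hb⟩ := hu.2 (i - m) y hy
    exact ⟨x, fun j => hx _, (sh_bdy T m i _).2 hb⟩

section

variable {R : Type} [CommRing R]

lemma zbdy_iff {U : ZCx R} {i : ℤ} {x : U.P (i - 1)} :
    U.Bdy (i - 1) x ↔ ∃ y : U.P i, U.d i (i - 1) y = x := by
  constructor
  · rintro ⟨k, y, h⟩
    by_cases hk : i = k
    · subst hk
      exact ⟨y, h⟩
    · rw [U.shape k (i - 1) (by omega)] at h
      exact ⟨0, by rw [map_zero]; exact h⟩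
  · rintro ⟨y, h⟩
    exact ⟨i, y, h⟩

end

theorem sECc : S_ECc := by
  rintro R _ X Y f hf _ _ ⟨U, u, hu, rfl⟩ ⟨U', v, hv, rfl⟩
  obtain ⟨g, h, hh⟩ := sLiftZ R Y U' v hv U (cmp u f hf)
  have hh1 : ∀ i x, h i x ∈ Y.G (i + 1) := hh.1
  have hh2 : ∀ i x, v.f i (g.f i x) = f (u.f i x) + Y.d (h i x) + h (i - 1) (U.d i (i - 1) x) := by
    intro i x
    have h1 : v.f i (g.f i x) - f (u.f i x) = _ := hh.2 i x
    rw [add_assoc, ← h1]
    abel
  have hfd : ∀ x, f (X.d x) = Y.d (f x) := fun x => hf.2 x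
  have hfG : ∀ i, ∀ x ∈ X.G i, f x ∈ Y.G i := fun i x hx => hf.1 i x hx
  obtain ⟨C, e, he, hEC⟩ := sKCone R U U' g
  have hbd : ∀ (j : ℤ) (a : U.P (j - 1)) (b : U'.P j),
      C.Bdy (j - 1) ((e (j - 1)).symm (-(U.d (j - 1) (j - 1 - 1) a),
        U'.d j (j - 1) b + g.f (j - 1) a)) := by
    intro j a b
    refine ⟨j, (e j).symm (a, b), ?_⟩
    apply (e (j - 1)).injective
    rw [he, LinearEquiv.apply_symm_apply, LinearEquiv.apply_symm_apply]
  have hcy : ∀ (i : ℤ) (c : C.P i), C.Cyc i c ↔ U.d (i - 1) (i - 1 - 1) (e i c).1 = 0 ∧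
      U'.d i (i - 1) (e i c).2 + g.f (i - 1) (e i c).1 = 0 := by
    intro i c
    rw [z_cyc, ← (e (i - 1)).map_eq_zero_iff, he, Prod.mk_eq_zero, neg_eq_zero]
  let φ : FMap C (cone X Y f hf) :=
    { f := fun i => LinearMap.prod (u.f (i - 1) ∘ₗ LinearMap.fst R _ _ ∘ₗ (e i).toLinearMap)
        (v.f i ∘ₗ LinearMap.snd R _ _ ∘ₗ (e i).toLinearMap +
          h (i - 1) ∘ₗ LinearMap.fst R _ _ ∘ₗ (e i).toLinearMap)
      fG := fun i c => by
        refine ⟨u.fG (i - 1) _, ?_⟩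
        have h1 := hh1 (i - 1) (e i c).1
        rw [sub_add_cancel] at h1
        exact (Y.G i).add_mem (v.fG i _) h1
      fd := fun i c => by
        change (u.f (i - 1 - 1) (e (i - 1) (C.d i (i - 1) c)).1,
          v.f (i - 1) (e (i - 1) (C.d i (i - 1) c)).2 +
            h (i - 1 - 1) (e (i - 1) (C.d i (i - 1) c)).1) =
          (cone X Y f hf).d (u.f (i - 1) (e i c).1, v.f i (e i c).2 + h (i - 1) (e i c).1)
        rw [he, cone_d]
        refine Prod.ext ?_ ?_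
        · change u.f (i - 1 - 1) (-(U.d (i - 1) (i - 1 - 1) (e i c).1)) = -(X.d (u.f (i - 1) (e i c).1))
          rw [map_neg, u.fd]
        · change v.f (i - 1) (U'.d i (i - 1) (e i c).2 + g.f (i - 1) (e i c).1) +
            h (i - 1 - 1) (-(U.d (i - 1) (i - 1 - 1) (e i c).1)) =
            Y.d (v.f i (e i c).2 + h (i - 1) (e i c).1) + f (u.f (i - 1) (e i c).1)
          rw [map_add, map_add, v.fd, hh2, map_neg]
          abel }
  have hφ : ∀ i c, φ.f i c = (u.f (i - 1) (e i c).1, v.f i (e i c).2 + h (i - 1) (e i c).1) :=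
    fun i c => rfl
  refine ⟨C, φ, ⟨?_, ?_⟩, hEC⟩
  · intro i c hc hb
    obtain ⟨hc1, hc2⟩ := (hcy i c).1 hc
    obtain ⟨⟨a', b'⟩, ⟨ha', hb'⟩, hab⟩ := hb
    rw [cone_d, hφ] at hab
    have hab1 : -(X.d a') = u.f (i - 1) (e i c).1 := congrArg Prod.fst hab
    have hab2 : Y.d b' + f a' = v.f i (e i c).2 + h (i - 1) (e i c).1 := congrArg Prod.snd hab
    have ha'' : a' ∈ X.G i := by
      have h1 : a' ∈ X.G (i + 1 - 1) := ha'
      rwa [add_sub_cancel_right] at h1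
    have hBa : U.Bdy (i - 1) (e i c).1 := by
      refine hu.1 (i - 1) _ (z_cyc.2 hc1) ⟨-a', ?_, ?_⟩
      · rw [sub_add_cancel]
        exact (X.G i).neg_mem ha''
      · rw [map_neg, hab1]
    obtain ⟨a1, ha1⟩ := zbdy_iff.1 hBa
    -- `(e c).1 = d a1`
    have hcyc1 : X.Cyc i (u.f i a1 + a') := by
      refine ⟨(X.G i).add_mem (u.fG i _) ha'', ?_⟩
      rw [map_add, ← u.fd, ha1, ← hab1, neg_add_cancel]
    obtain ⟨a3, ha3, x4, hx4, hx4'⟩ := hu.2 i _ hcyc1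
    -- `u a1 + a' = u a3 + d x4`
    have e3 : v.f i ((e i c).2 + g.f i a1 - g.f i a3) =
        Y.d (b' + f x4 + h i a1 - h i a3) := by
      have h1 : v.f i (g.f i a3) = f (u.f i a3) + Y.d (h i a3) := by
        rw [hh2, ha3, map_zero, add_zero]
      have h2 : v.f i (g.f i a1) = f (u.f i a1) + Y.d (h i a1) + h (i - 1) (e i c).1 := by
        rw [hh2, ha1]
      have h3 : f (X.d x4) = f (u.f i a1) + f a' - f (u.f i a3) := by
        rw [hx4', map_sub, map_add]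
      rw [hfd] at h3
      rw [map_sub, map_add, h1, h2, map_sub, map_add, map_add, h3]
      have h4 : v.f i (e i c).2 = Y.d b' + f a' - h (i - 1) (e i c).1 := by
        rw [hab2, add_sub_cancel_right]
      rw [h4]
      abel
    have hB5 : U'.Bdy i ((e i c).2 + g.f i a1 - g.f i a3) := by
      refine hv.1 i _ ?_ ⟨_, ?_, e3.symm⟩
      · rw [z_cyc, map_sub, map_add, ← g.comm, ← g.comm, ha1, ha3, map_zero, sub_zero]
        exact hc2
      · refine (Y.G (i + 1)).sub_mem ((Y.G (i + 1)).add_mem ((Y.G (i + 1)).add_mem hb' ?_) (hh1 i a1))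
          (hh1 i a3)
        exact hfG _ _ hx4
    obtain ⟨j, rfl⟩ : ∃ j, i = j - 1 := ⟨i + 1, by ring⟩
    obtain ⟨b5, hb5⟩ := zbdy_iff.1 hB5
    have hfin := hbd j (-a1 + a3) b5
    have e4 : (e (j - 1)).symm (-(U.d (j - 1) (j - 1 - 1) (-a1 + a3)),
        U'.d j (j - 1) b5 + g.f (j - 1) (-a1 + a3)) = c := by
      rw [LinearEquiv.symm_apply_eq]
      refine Prod.ext ?_ ?_
      · change -(U.d (j - 1) (j - 1 - 1) (-a1 + a3)) = (e (j - 1) c).1
        rw [map_add, map_neg, ha1, ha3, add_zero, neg_neg]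
      · change U'.d j (j - 1) b5 + g.f (j - 1) (-a1 + a3) = (e (j - 1) c).2
        rw [hb5, map_add, map_neg]
        abel
    rwa [e4] at hfin
  · rintro i ⟨x, y⟩ ⟨⟨hx, hy⟩, hd⟩
    rw [cone_d] at hd
    have hd1 : X.d x = 0 := neg_eq_zero.1 (congrArg Prod.fst hd)
    have hd2 : Y.d y + f x = 0 := congrArg Prod.snd hd
    have hx' : x ∈ X.G (i - 1) := hx
    have hy' : y ∈ Y.G i := hy
    obtain ⟨a, ha, x1, hx1, hx1'⟩ := hu.2 (i - 1) x ⟨hx', hd1⟩
    rw [sub_add_cancel] at hx1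
    have hG := hh1 (i - 1) a
    rw [sub_add_cancel] at hG
    have hvg : v.f (i - 1) (g.f (i - 1) a) = f (u.f (i - 1) a) + Y.d (h (i - 1) a) := by
      rw [hh2, ha, map_zero, add_zero]
    have hfu : f (u.f (i - 1) a) = -(Y.d (y + f x1)) := by
      rw [map_add, ← hfd, hx1', map_sub]
      have h1 : Y.d y = -(f x) := eq_neg_of_add_eq_zero_left hd2
      rw [h1]
      abel
    have hBg : U'.Bdy (i - 1) (g.f (i - 1) a) := by
      refine hv.1 (i - 1) _ ?_ ⟨h (i - 1) a - (y + f x1), ?_, ?_⟩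
      · rw [z_cyc, ← g.comm, ha, map_zero]
      · rw [sub_add_cancel]
        exact (Y.G i).sub_mem hG ((Y.G i).add_mem hy' (hfG _ _ hx1))
      · rw [map_sub, hvg, hfu]
        abel
    obtain ⟨b', hb'⟩ := zbdy_iff.1 hBg
    have hcyc2 : Y.Cyc i (y + f x1 - h (i - 1) a + v.f i b') := by
      refine ⟨(Y.G i).add_mem ((Y.G i).sub_mem ((Y.G i).add_mem hy' (hfG _ _ hx1)) hG)
        (v.fG i _), ?_⟩
      rw [map_add, map_sub, ← v.fd, hb', hvg, hfu]
      abel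
    obtain ⟨b2, hb2, y3, hy3, hy3'⟩ := hv.2 i _ hcyc2
    refine ⟨(e i).symm (a, -b' + b2), ?_, (-x1, y3), ⟨?_, hy3⟩, ?_⟩
    · rw [hcy, LinearEquiv.apply_symm_apply]
      refine ⟨ha _, ?_⟩
      change U'.d i (i - 1) (-b' + b2) + g.f (i - 1) a = 0
      rw [map_add, map_neg, hb', hb2, add_zero, neg_add_cancel]
    · change -x1 ∈ X.G (i + 1 - 1)
      rw [add_sub_cancel_right]
      exact (X.G i).neg_mem hx1
    · rw [cone_d, hφ, LinearEquiv.apply_symm_apply]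
      refine Prod.ext ?_ ?_
      · change -(X.d (-x1)) = x - u.f (i - 1) a
        rw [map_neg, neg_neg, hx1']
      · change Y.d y3 + f (-x1) = y - (v.f i (-b' + b2) + h (i - 1) a)
        rw [hy3', map_neg, map_add, map_neg]
        abel

section

variable {R : Type} [CommRing R]

/-- For a short exact sequence, the cone of the first map is quasi-isomorphic to the quotient. -/
lemma ses_quot {X Y Z : GC R} {a : X.V →ₗ[R] Y.V} {b : Y.V →ₗ[R] Z.V}
    (H : SES X Y Z a.toAddMonoidHom b.toAddMonoidHom) :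
    LQI (cone X Y a H.cha) Z (b ∘ₗ LinearMap.snd R _ _) := by
  have had : ∀ x, a (X.d x) = Y.d (a x) := fun x => H.cha.2 x
  have hbd : ∀ x, b (Y.d x) = Z.d (b x) := fun x => H.chb.2 x
  have hba : ∀ x, b (a x) = 0 := H.ba
  have hinj : ∀ x, a x = 0 → x = 0 := H.inj
  refine ⟨⟨?_, ?_⟩, ?_, ?_⟩
  · rintro i ⟨x, y⟩ ⟨_, hy⟩
    exact H.chb.1 i y hy
  · rintro ⟨x, y⟩
    change b (Y.d y + a x) = Z.d (b y)
    rw [map_add, hba, add_zero, hbd]
  · rintro i ⟨x, y⟩ ⟨⟨hx, hy⟩, hd⟩ ⟨z1, hz1, hz1'⟩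
    rw [cone_d] at hd
    have hd2 : Y.d y + a x = 0 := congrArg Prod.snd hd
    have hz1'' : Z.d z1 = b y := hz1'
    obtain ⟨y1, hy1, hy1'⟩ := H.sur (i + 1) z1 hz1
    have hy1'' : b y1 = z1 := hy1'
    have hyG := Y.dG (i + 1) y1 hy1
    rw [add_sub_cancel_right] at hyG
    obtain ⟨x1, hx1, hx1'⟩ := H.ex i (y - Y.d y1) ((Y.G i).sub_mem hy hyG) (by
      change b (y - Y.d y1) = 0
      rw [map_sub, hbd, hy1'', hz1'', sub_self])
    have hx1'' : a x1 = y - Y.d y1 := hx1'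
    refine ⟨(x1, y1), ⟨?_, hy1⟩, ?_⟩
    · change x1 ∈ X.G (i + 1 - 1)
      rwa [add_sub_cancel_right]
    · rw [cone_d, hx1'', add_sub_cancel]
      refine Prod.ext ?_ rfl
      change -(X.d x1) = x
      have h1 : x + X.d x1 = 0 := by
        apply hinj
        rw [map_add, had, hx1'', map_sub, Y.dd, sub_zero, add_comm]
        exact hd2
      exact (eq_neg_of_add_eq_zero_left h1).symm
  · rintro i z ⟨hz, hdz⟩
    obtain ⟨y, hy, hy'⟩ := H.sur i z hz
    have hy'' : b y = z := hy'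
    obtain ⟨x', hx', hx''⟩ := H.ex (i - 1) (Y.d y) (Y.dG i y hy) (by
      change b (Y.d y) = 0
      rw [hbd, hy'', hdz])
    have hx3 : a x' = Y.d y := hx''
    refine ⟨(-x', y), ⟨⟨(X.G (i - 1)).neg_mem hx', hy⟩, ?_⟩, ?_⟩
    · rw [cone_d]
      refine Prod.ext ?_ ?_
      · change -(X.d (-x')) = 0
        rw [map_neg, neg_neg]
        apply hinj
        rw [had, hx3, Y.dd]
      · change Y.d y + a (-x') = 0
        rw [map_neg, hx3, add_neg_cancel]
    · change Z.Bdy i (z - b y)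
      rw [hy'', sub_self]
      exact bdy_zero Z i

/-- For a short exact sequence, the first complex, shifted, is quasi-isomorphic to the cone of the
second map. -/
lemma ses_sub {X Y Z : GC R} {a : X.V →ₗ[R] Y.V} {b : Y.V →ₗ[R] Z.V}
    (H : SES X Y Z a.toAddMonoidHom b.toAddMonoidHom) :
    LQI (X.sh 1).ng (cone Y Z b H.chb) (LinearMap.inl R Y.V Z.V ∘ₗ a) := by
  have had : ∀ x, a (X.d x) = Y.d (a x) := fun x => H.cha.2 x
  have hbd : ∀ x, b (Y.d x) = Z.d (b x) := fun x => H.chb.2 x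
  have hba : ∀ x, b (a x) = 0 := H.ba
  have hinj : ∀ x, a x = 0 → x = 0 := H.inj
  refine ⟨⟨?_, ?_⟩, ?_, ?_⟩
  · intro i x hx
    exact ⟨H.cha.1 (i - 1) x hx, (Z.G i).zero_mem⟩
  · intro x
    change (a (-(X.d x)), (0 : Z.V)) = (cone Y Z b H.chb).d (a x, 0)
    rw [cone_d, map_neg, had, map_zero, hba, add_zero]
  · rintro i (x : X.V) hx ⟨⟨y, z⟩, ⟨hy, hz⟩, hyz⟩
    rw [cone_d] at hyz
    have h1 : -(Y.d y) = a x := congrArg Prod.fst hyz
    have h2 : Z.d z + b y = 0 := congrArg Prod.snd hyz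
    have hy0 : y ∈ Y.G (i + 1 - 1) := hy
    rw [add_sub_cancel_right] at hy0
    obtain ⟨y1, hy1, hy1'⟩ := H.sur (i + 1) z hz
    have hy1'' : b y1 = z := hy1'
    have hyG := Y.dG (i + 1) y1 hy1
    rw [add_sub_cancel_right] at hyG
    obtain ⟨x1, hx1, hx1'⟩ := H.ex i (Y.d y1 + y) ((Y.G i).add_mem hyG hy0) (by
      change b (Y.d y1 + y) = 0
      rw [map_add, hbd, hy1'', h2])
    have hx1'' : a x1 = Y.d y1 + y := hx1'
    rw [ng_bdy, sh_bdy]
    refine ⟨-x1, ?_, ?_⟩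
    · rw [sub_add_cancel]
      exact (X.G i).neg_mem hx1
    · have h3 : x + X.d x1 = 0 := by
        apply hinj
        rw [map_add, had, hx1'', map_add, Y.dd, zero_add, ← h1, neg_add_cancel]
      rw [map_neg]
      exact (eq_neg_of_add_eq_zero_left h3).symm
  · rintro i ⟨y, z⟩ ⟨⟨hy, hz⟩, hd⟩
    rw [cone_d] at hd
    have h1 : Y.d y = 0 := neg_eq_zero.1 (congrArg Prod.fst hd)
    have h2 : Z.d z + b y = 0 := congrArg Prod.snd hd
    obtain ⟨y1, hy1, hy1'⟩ := H.sur i z hz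
    have hy1'' : b y1 = z := hy1'
    obtain ⟨x, hx, hx'⟩ := H.ex (i - 1) (Y.d y1 + y) ((Y.G (i - 1)).add_mem (Y.dG i y1 hy1) hy) (by
      change b (Y.d y1 + y) = 0
      rw [map_add, hbd, hy1'', h2])
    have hx'' : a x = Y.d y1 + y := hx'
    refine ⟨x, ⟨hx, ?_⟩, (y1, 0), ⟨?_, (Z.G (i + 1)).zero_mem⟩, ?_⟩
    · change -(X.d x) = 0
      rw [neg_eq_zero]
      apply hinj
      rw [had, hx'', map_add, Y.dd, h1, zero_add]
    · change y1 ∈ Y.G (i + 1 - 1)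
      rwa [add_sub_cancel_right]
    · rw [cone_d, hy1'', map_zero, zero_add]
      change (-(Y.d y1), z) = (y - a x, z - 0)
      rw [hx'', sub_zero]
      refine Prod.ext ?_ rfl
      change -(Y.d y1) = y - (Y.d y1 + y)
      abel

/-- `0 → Y → cone(X → Y) → X[1] → 0`. -/
lemma ses_cone {X Y : GC R} (f : X.V →ₗ[R] Y.V) (hf : LCh X Y f) :
    SES Y (cone X Y f hf) (X.sh 1).ng (LinearMap.inr R X.V Y.V).toAddMonoidHom
      (LinearMap.fst R X.V Y.V).toAddMonoidHom where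
  cha := ⟨fun i y hy => ⟨(X.G (i - 1)).zero_mem, hy⟩, fun y => by
    change ((0 : X.V), Y.d y) = (cone X Y f hf).d (0, y)
    rw [cone_d, map_zero, map_zero, neg_zero, add_zero]⟩
  chb := ⟨fun i p hp => hp.1, fun p => rfl⟩
  inj y hy := congrArg Prod.snd hy
  ba y := rfl
  ex i p hp h := ⟨p.2, hp.2, Prod.ext (Eq.symm h) rfl⟩
  sur i x hx := ⟨(x, 0), ⟨hx, (Y.G i).zero_mem⟩, rfl⟩

lemma HasEC_unshift {X : GC R} {x : KT R} (h : (X.sh 1).ng.HasEC x) : X.HasEC (-x) := by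
  have h1 := (sECs R _ x h).1
  have h2 : (X.sh 1).HasEC x := by
    refine (sECq R (X.sh 1).ng.ng (X.sh 1) LinearMap.id ⟨⟨fun i x hx => hx, fun x => ?_⟩,
      fun i x _ hb => ?_, fun i y hy => ⟨y, ?_, ?_⟩⟩ x).1 h1
    · exact neg_neg _
    · exact (ng_bdy (X.sh 1).ng i x).2 ((ng_bdy (X.sh 1) i x).2 hb)
    · exact (ng_cyc (X.sh 1).ng i y).2 ((ng_cyc (X.sh 1) i y).2 hy)
    · change (X.sh 1).Bdy i (y - y)
      rw [sub_self]
      exact bdy_zero _ i
  have h3 := (sECs R _ x h2).2 (-1)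
  rw [Int.negOnePow_neg, Int.negOnePow_one, Units.val_neg, Units.val_one, neg_smul, one_smul] at h3
  have e : ∀ i : ℤ, i - -1 - 1 = i := fun i => by ring
  have hG : ∀ i, ((X.sh 1).sh (-1)).G i = X.G i := fun i => by
    change X.G (i - -1 - 1) = X.G i
    rw [e]
  refine (sECq R ((X.sh 1).sh (-1)) X LinearMap.id ⟨⟨fun i x hx => ?_, fun x => rfl⟩,
      fun i x _ hb => ?_, fun i y hy => ⟨y, ⟨?_, hy.2⟩, ?_⟩⟩ _).1 h3
  · rw [hG] at hx
    exact hx
  · obtain ⟨y, hy, h⟩ := hb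
    refine ⟨y, ?_, h⟩
    rw [hG]
    exact hy
  · rw [hG]
    exact hy.1
  · change X.Bdy i (y - y)
    rw [sub_self]
    exact bdy_zero _ i

end

theorem sECx : S_ECx := by
  intro R _ X Y Z a b H
  have h2 : ∀ (X Y Z : GC R) (a : X.V →ₗ[R] Y.V) (b : Y.V →ₗ[R] Z.V),
      SES X Y Z a.toAddMonoidHom b.toAddMonoidHom →
      ∀ y z, Y.HasEC y → Z.HasEC z → X.HasEC (y - z) := by
    intro X Y Z a b H y z hy hz
    have h1 := sECc R Y Z b H.chb y z hy hz
    have h3 := HasEC_unshift ((sECq R _ _ _ (ses_sub H) _).2 h1)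
    rwa [neg_sub] at h3
  have h1 : ∀ z, (cone X Y a H.cha).HasEC z ↔ Z.HasEC z := fun z => sECq R _ _ _ (ses_quot H) z
  refine ⟨fun x y hx hy => (h1 _).1 (sECc R X Y a H.cha x y hx hy), h2 X Y Z a b H, ?_⟩
  intro x z hx hz
  have hs := (sECs R _ _ ((sECs R X x hx).2 1)).1
  rw [Int.negOnePow_one, Units.val_neg, Units.val_one, neg_smul, one_smul] at hs
  have h3 := h2 Y (cone X Y a H.cha) (X.sh 1).ng _ _ (ses_cone a H.cha) z (-x) ((h1 z).2 hz) hs
  rwa [sub_neg_eq_add, add_comm] at h3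

end HBy
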