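import Pool.Agent.Lib.MP_181146_gt.HE.DefsG

/-!
# Project HB: complexes of arbitrary modules and their classes in `KT R`

Shared definitions of the parts B, H, X, R, A of the full theorem for MP_181146_gt.  `GC R`: complexes of
`R`-modules indexed by `ℤ` (no finiteness); `HasEC T x`: there is a quasi-isomorphism from a bounded
complex of finitely generated projective modules, of Euler class `x`, to `T`; `Tel Q E`: the direct limit of
`Q → Q → …` (all maps equal to the endomorphism `E`); `Red`: reduction modulo a non zero divisor `s`.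
-/

set_option autoImplicit false

namespace HBx

open HEp
open scoped TensorProduct

/-- A complex of `R`-modules, indexed by `ℤ`, differential of degree `-1`. -/
structure GC (R : Type) [CommRing R] where
  P : ℤ → Type
  [ac : ∀ i, AddCommGroup (P i)]
  [mo : ∀ i, Module R (P i)]
  d : ∀ i j : ℤ, P i →ₗ[R] P j
  shape : ∀ i j : ℤ, j + 1 ≠ i → d i j = 0
  dd : ∀ (i j k : ℤ) (x : P i), d j k (d i j x) = 0

attribute [instance] GC.ac GC.mo

section

variable {R : Type} [CommRing R]

/-- A bounded complex of finitely generated projective modules, as a complex. -/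
def gc (U : ZCx R) : GC R where
  P := U.P
  d := U.d
  shape := U.shape
  dd := U.dd

/-- Cycles. -/
def GC.Cyc (X : GC R) (i : ℤ) (x : X.P i) : Prop := ∀ j, X.d i j x = 0

/-- Boundaries. -/
def GC.Bdy (X : GC R) (i : ℤ) (x : X.P i) : Prop := ∃ (k : ℤ) (y : X.P k), X.d k i y = x

/-- Chain maps. -/
@[ext]
structure GHom (X Y : GC R) where
  f : ∀ i, X.P i →ₗ[R] Y.P i
  comm : ∀ (i j : ℤ) (x : X.P i), f j (X.d i j x) = Y.d i j (f i x)

/-- Quasi-isomorphisms. -/
def GHom.QI {X Y : GC R} (F : GHom X Y) : Prop :=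
  (∀ i (x : X.P i), X.Cyc i x → Y.Bdy i (F.f i x) → X.Bdy i x) ∧
  ∀ i (y : Y.P i), Y.Cyc i y → ∃ x : X.P i, X.Cyc i x ∧ Y.Bdy i (y - F.f i x)

/-- The identity. -/
def GHom.id (X : GC R) : GHom X X where
  f _ := LinearMap.id
  comm _ _ _ := rfl

/-- Composition (first `F`, then `G`). -/
def GHom.comp {X Y Z : GC R} (G : GHom Y Z) (F : GHom X Y) : GHom X Z where
  f i := G.f i ∘ₗ F.f i
  comm i j x := by
    rw [LinearMap.comp_apply, LinearMap.comp_apply, F.comm, G.comm]

/-- The difference of two chain maps. -/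
def GHom.sub {X Y : GC R} (F G : GHom X Y) : GHom X Y where
  f i := F.f i - G.f i
  comm i j x := by
    rw [LinearMap.sub_apply, LinearMap.sub_apply, F.comm, G.comm, map_sub]

/-- `F` and `G` are equal on homology. -/
def GHom.Eqv {X Y : GC R} (F G : GHom X Y) : Prop :=
  ∀ i (x : X.P i), X.Cyc i x → Y.Bdy i (F.f i x - G.f i x)

/-- Chain homotopy `F - G = d h + h d`. -/
def GHom.Htp {X Y : GC R} (F G : GHom X Y) : Prop :=
  ∃ h : ∀ i j : ℤ, X.P i →ₗ[R] Y.P j, ∀ (i : ℤ) (x : X.P i),
    F.f i x - G.f i x = Y.d (i + 1) i (h i (i + 1) x) + h (i - 1) i (X.d i (i - 1) x)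

/-- Short exact sequences `0 → X → Y → Z → 0`. -/
def ExS {X Y Z : GC R} (F : GHom X Y) (G : GHom Y Z) : Prop :=
  ∀ i, Function.Injective (F.f i) ∧ Function.Surjective (G.f i) ∧
    ∀ y, G.f i y = 0 ↔ ∃ x, F.f i x = y

/-- The class of `T` is `x`. -/
def HasEC (T : GC R) (x : KT R) : Prop :=
  ∃ (U : ZCx R) (u : GHom (gc U) T), u.QI ∧ U.EC = x

/-- The shifted complex `X[m]`, `X[m]_i = X_(i-m)`, with the differential `(-1)^m d`. -/
def GC.sh (X : GC R) (m : ℤ) : GC R where
  P i := X.P (i - m)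
  d i j := (m.negOnePow : ℤ) • X.d (i - m) (j - m)
  shape i j h := by
    rw [X.shape (i - m) (j - m) (by omega), smul_zero]
  dd i j k x := by
    rw [LinearMap.smul_apply, LinearMap.smul_apply, map_zsmul, X.dd, smul_zero, smul_zero]

/-! ## Homology modules -/

/-- The cycles of degree `i`. -/
def GC.Z (X : GC R) (i : ℤ) : Submodule R (X.P i) := LinearMap.ker (X.d i (i - 1))

/-- The boundaries, as a submodule of the cycles. -/
def GC.B (X : GC R) (i : ℤ) : Submodule R (X.Z i) :=
  (LinearMap.range (X.d (i + 1) i)).comap (X.Z i).subtype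

/-- The homology. -/
abbrev GC.H (X : GC R) (i : ℤ) : Type := X.Z i ⧸ X.B i

/-- The dimension of `L ⊗ M`, `L` a field, an algebra over `R` through `ε`. -/
noncomputable def hrk {L : Type} [Field L] (ε : R →+* L) (M : Type) [AddCommGroup M]
    [Module R M] : ℕ :=
  letI : Algebra R L := ε.toAlgebra
  Module.finrank L (L ⊗[R] M)

/-- The Euler characteristic of `L ⊗ H(X)` is defined and equal to zero. -/
def GC.EZ {L : Type} [Field L] (ε : R →+* L) (X : GC R) : Prop :=
  (∀ i, Module.Finite R (X.H i)) ∧ ∃ N : ℕ, (∀ i : ℤ, (N : ℤ) < |i| → Subsingleton (X.H i)) ∧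
    ∑ i ∈ Finset.Icc (-(N : ℤ)) N, (i.negOnePow : ℤ) * (hrk ε (X.H i) : ℤ) = 0

/-! ## Localization at an endomorphism -/

/-- The relations of the direct limit. -/
noncomputable def dlRel {M : Type} [AddCommGroup M] [Module R M] (e : Module.End R M) :
    Submodule R (ℕ →₀ M) :=
  Submodule.span R {y | ∃ (n : ℕ) (x : M),
    y = Finsupp.single n x - Finsupp.single (n + 1) (e x)}

/-- The direct limit of `M → M → …`, all maps equal to `e`. -/
abbrev DL {M : Type} [AddCommGroup M] [Module R M] (e : Module.End R M) : Type :=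
  (ℕ →₀ M) ⧸ dlRel e

/-- The `n`-th map `M → DL e`. -/
noncomputable def dlj {M : Type} [AddCommGroup M] [Module R M] (e : Module.End R M) (n : ℕ) :
    M →ₗ[R] DL e :=
  (dlRel e).mkQ ∘ₗ Finsupp.lsingle n

lemma dlj_succ {M : Type} [AddCommGroup M] [Module R M] (e : Module.End R M) (n : ℕ) (x : M) :
    dlj e (n + 1) (e x) = dlj e n x := by
  symm
  unfold dlj
  rw [LinearMap.comp_apply, LinearMap.comp_apply, ← sub_eq_zero, ← map_sub]
  exact (Submodule.Quotient.mk_eq_zero _).2 (Submodule.subset_span ⟨n, x, rfl⟩)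

/-- The map of direct limits induced by `f` with `f e = e' f`. -/
noncomputable def dlMap {M N : Type} [AddCommGroup M] [Module R M] [AddCommGroup N] [Module R N]
    (e : Module.End R M) (e' : Module.End R N) (f : M →ₗ[R] N)
    (h : ∀ x, f (e x) = e' (f x)) : DL e →ₗ[R] DL e' :=
  (dlRel e).mapQ (dlRel e') (Finsupp.mapRange.linearMap f) (by
    unfold dlRel
    rw [Submodule.span_le]
    rintro _ ⟨n, x, rfl⟩
    refine Submodule.subset_span ⟨n, f x, ?_⟩
    rw [map_sub, Finsupp.mapRange.linearMap_apply, Finsupp.mapRange.linearMap_apply,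
      Finsupp.mapRange_single, Finsupp.mapRange_single, h])

lemma dlMap_dlj {M N : Type} [AddCommGroup M] [Module R M] [AddCommGroup N] [Module R N]
    (e : Module.End R M) (e' : Module.End R N) (f : M →ₗ[R] N)
    (h : ∀ x, f (e x) = e' (f x)) (n : ℕ) (x : M) :
    dlMap e e' f h (dlj e n x) = dlj e' n (f x) := by
  change Submodule.Quotient.mk _ = Submodule.Quotient.mk _
  rw [Finsupp.lsingle_apply, Finsupp.mapRange.linearMap_apply, Finsupp.mapRange_single]
  rfl

lemma dl_ind {M : Type} [AddCommGroup M] [Module R M] (e : Module.End R M) (t : DL e) :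
    ∃ n x, dlj e n x = t := by
  have hj : ∀ (k n : ℕ) (x : M), dlj e (n + k) ((e ^ k) x) = dlj e n x := by
    intro k
    induction k with
    | zero => intro n x; rfl
    | succ k ih =>
      intro n x
      rw [pow_succ', Module.End.mul_apply, ← add_assoc, dlj_succ, ih]
  obtain ⟨y, rfl⟩ := Submodule.Quotient.mk_surjective _ t
  induction y using Finsupp.induction_linear with
  | zero => exact ⟨0, 0, by rw [map_zero]; rfl⟩
  | add a b ha hb =>
    obtain ⟨n, x, hx⟩ := ha
    obtain ⟨m, y, hy⟩ := hb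
    refine ⟨n + m, (e ^ m) x + (e ^ n) y, ?_⟩
    rw [map_add, hj, add_comm n m, hj, hx, hy]
    rfl
  | single n x => exact ⟨n, x, rfl⟩

/-- The direct limit of `Q → Q → …`, all maps equal to the chain map `E`. -/
noncomputable def Tel (Q : GC R) (E : GHom Q Q) : GC R where
  P i := DL (E.f i)
  d i j := dlMap (E.f i) (E.f j) (Q.d i j) (fun x => (E.comm i j x).symm)
  shape i j h := by
    apply LinearMap.ext
    intro t
    obtain ⟨n, x, rfl⟩ := dl_ind _ t
    rw [dlMap_dlj, Q.shape i j h]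
    exact map_zero (dlj (E.f j) n)
  dd i j k t := by
    obtain ⟨n, x, rfl⟩ := dl_ind _ t
    rw [dlMap_dlj, dlMap_dlj, Q.dd]
    exact map_zero (dlj (E.f k) n)

/-- The `n`-th map `Q → Tel Q E`. -/
noncomputable def telj (Q : GC R) (E : GHom Q Q) (n : ℕ) : GHom Q (Tel Q E) where
  f i := dlj (E.f i) n
  comm i j x :=
    (dlMap_dlj (E.f i) (E.f j) (Q.d i j) (fun x => (E.comm i j x).symm) n x).symm

/-- The map of direct limits induced by a chain map which commutes with the endomorphisms. -/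
noncomputable def telMap {Q Q' : GC R} (E : GHom Q Q) (E' : GHom Q' Q') (F : GHom Q Q')
    (h : ∀ i x, F.f i (E.f i x) = E'.f i (F.f i x)) : GHom (Tel Q E) (Tel Q' E') where
  f i := dlMap (E.f i) (E'.f i) (F.f i) (h i)
  comm i j t := by
    obtain ⟨n, x, rfl⟩ := dl_ind _ t
    change dlMap (E.f j) (E'.f j) (F.f j) (h j) (dlMap (E.f i) (E.f j) (Q.d i j)
        (fun x => (E.comm i j x).symm) (dlj (E.f i) n x)) =
      dlMap (E'.f i) (E'.f j) (Q'.d i j) (fun x => (E'.comm i j x).symm)
        (dlMap (E.f i) (E'.f i) (F.f i) (h i) (dlj (E.f i) n x))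
    rw [dlMap_dlj, dlMap_dlj, dlMap_dlj, dlMap_dlj, F.comm]

/-- Fitting condition: `E (1 - E)` is nilpotent on the homology. -/
def GHom.Fit {Q : GC R} (E : GHom Q Q) : Prop :=
  ∃ k : ℕ, ∀ i (x : Q.P i), Q.Cyc i x →
    Q.Bdy i (((E.f i * (1 - E.f i)) ^ k : Module.End R (Q.P i)) x)

end

/-! ## Reduction modulo `s`, restriction of scalars -/

section

variable {S B : Type} [CommRing S] [CommRing B]

/-- `Qb` is the reduction of `Q` modulo `s` (`φ : S → B` is surjective with kernel `s S`). -/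
structure Red (φ : S →+* B) (s : S) (Q : GC S) (Qb : GC B) where
  c : ∀ i, Q.P i →+ Qb.P i
  sl : ∀ i a x, c i (a • x) = φ a • c i x
  surj : ∀ i, Function.Surjective (c i)
  ker : ∀ i x, c i x = 0 ↔ ∃ y, x = s • y
  comm : ∀ i j x, c j (Q.d i j x) = Qb.d i j (c i x)

/-- `Q'` is the complex `Q`, restricted along `ρ : B → S`. -/
structure Rst (ρ : B →+* S) (Q' : GC B) (Q : GC S) where
  e : ∀ i, Q'.P i ≃+ Q.P i
  sl : ∀ i a x, e i (a • x) = ρ a • e i x
  comm : ∀ i j x, e j (Q'.d i j x) = Q.d i j (e i x)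

end

end HBx
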