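import Pool.Agent.Lib.MP_181146_gt.HB.HF

/-!
# Project HB, module ClA (helper80)
-/

set_option autoImplicit false

namespace HBy

open HEp HRx

section modl

variable {R H : Type} [CommRing R] [AddCommGroup H] [Module R H] (X Y : Module.End R H)
  (A : Submodule R H)

/-- The hypotheses of Lemma 1c in the homology. -/
structure ClD : Prop where
  rel : X * Y + Y * X = 1
  YA : ∀ a ∈ A, Y a ∈ A
  XA : ∀ a ∈ A, X (X a) ∈ A
  dir : ∀ a ∈ A, ∀ b ∈ A, a + X b = 0 → b = 0
  gen : ∀ h, ∃ a ∈ A, ∃ b ∈ A, h = a + X b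
  nil : ∃ M : ℕ, X ^ M = 0

variable {X Y A}

lemma ClD.cA (D : ClD X Y A) (a : H) (ha : a ∈ A) : (X * Y * (1 - X * Y)) a ∈ A := by
  rw [clr_c2 D.rel]
  exact D.YA _ (D.YA _ (D.XA a ha))

lemma ClD.cpA (D : ClD X Y A) (m : ℕ) (a : H) (ha : a ∈ A) :
    ((X * Y * (1 - X * Y)) ^ m) a ∈ A := by
  induction m with
  | zero => exact ha
  | succ m ih =>
    rw [pow_succ']
    exact D.cA _ ih

lemma clr_ct (t : Module.End R H) : Commute (t * (1 - t)) t :=
  (Commute.refl t).mul_left ((Commute.one_left t).sub_left (Commute.refl t))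

lemma cl_inj (D : ClD X Y A) (k : ℕ) (a : H) (ha : a ∈ A) (h : ((X * Y) ^ k) (X a) = 0) :
    a = 0 := by
  obtain ⟨M, hM⟩ := D.nil
  have hc := clr_nil D.rel hM
  set t : Module.End R H := X * Y with ht
  set c : Module.End R H := t * (1 - t) with hcd
  have hcX : Commute c X := clr_cX D.rel
  have hct : Commute c t := clr_ct t
  have hcc : ∀ y : H, c y = 0 → ∀ j : ℕ, (t ^ (j + 1)) y = t y := by
    intro y hy j
    induction j with
    | zero => rw [zero_add, pow_one]
    | succ j ih =>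
      rw [pow_succ', Module.End.mul_apply, ih]
      have h1 : t * t = t - c := by rw [hcd, mul_sub, mul_one, sub_sub_cancel]
      have h2 := LinearMap.congr_fun h1 y
      rw [LinearMap.sub_apply, hy, sub_zero] at h2
      exact h2
  have key : ∀ m : ℕ, ∀ a ∈ A, (c ^ m) a = 0 → (t ^ k) (X a) = 0 → a = 0 := by
    intro m
    induction m with
    | zero =>
      intro a _ h1 _
      exact h1
    | succ m ih =>
      intro a ha h1 h2
      have hb : (c ^ m) a ∈ A := D.cpA m a ha
      apply ih a ha _ h2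
      set b : H := (c ^ m) a with hbd
      have h3 : c b = 0 := by
        rw [pow_succ', Module.End.mul_apply] at h1
        exact h1
      have h4 : c (X b) = 0 := by
        have h5 := LinearMap.congr_fun hcX.eq b
        change c (X b) = X (c b) at h5
        rw [h3, map_zero] at h5
        exact h5
      have h5 : (t ^ (k + 1)) (X b) = 0 := by
        have h6 : t ^ (k + 1) * X * c ^ m = c ^ m * t * (t ^ k * X) := by
          have h7 : Commute (c ^ m) (t * (t ^ k * X)) :=
            (hct.mul_right ((hct.pow_right k).mul_right hcX)).pow_left m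
          rw [mul_assoc (c ^ m), h7.eq, pow_succ', mul_assoc t (t ^ k) X]
        have h7 := LinearMap.congr_fun h6 a
        change (t ^ (k + 1)) (X ((c ^ m) a)) = (c ^ m) (t ((t ^ k) (X a))) at h7
        rw [h2, map_zero, map_zero] at h7
        exact h7
      rw [hcc _ h4] at h5
      have h6 : t * X = X - Y * (X * X) := by
        rw [ht, clr_tX D.rel, mul_sub, mul_one, clr_Xt D.rel, ← clr_yx D.rel, mul_assoc]
      have h7 := LinearMap.congr_fun h6 b
      change t (X b) = X b - Y (X (X b)) at h7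
      rw [h5] at h7
      refine D.dir (-(Y (X (X b)))) (A.neg_mem (D.YA _ (D.XA b hb))) b hb ?_
      rw [h7]
      abel
  refine key M a ha ?_ h
  rw [hc, LinearMap.zero_apply]

lemma cl_sur (D : ClD X Y A) (h : H) : ∃ b ∈ A, ∃ k : ℕ, ((X * Y) ^ k) (h - X b) = 0 := by
  obtain ⟨M, hM⟩ := D.nil
  have hc := clr_nil D.rel hM
  set t : Module.End R H := X * Y with ht
  set c : Module.End R H := t * (1 - t) with hcd
  have hcX : Commute c X := clr_cX D.rel
  have hct : Commute c t := clr_ct t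
  have key : ∀ m : ℕ, ∃ b ∈ A, ∃ k : ℕ, ∃ y : H, (t ^ k) (h - X b) = (c ^ m) y := by
    intro m
    induction m with
    | zero =>
      refine ⟨0, A.zero_mem, 0, h, ?_⟩
      rw [map_zero, sub_zero]
      rfl
    | succ m ih =>
      obtain ⟨b, hb, k, y, hy⟩ := ih
      obtain ⟨a, ha, b0, hb0, rfl⟩ := D.gen y
      obtain ⟨s, hs, hk⟩ := clr_tk t k
      have hcs : Commute c s := hs
      have hb1 : b0 + Y a ∈ A := A.add_mem hb0 (D.YA a ha)
      refine ⟨b + (c ^ m) (b0 + Y a), A.add_mem hb (D.cpA m _ hb1), k + 1,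
        a + s (X (b0 + Y a)), ?_⟩
      set b1 : H := b0 + Y a with hb1d
      -- `t y = t X b1 + c a`
      have h1 : t (a + X b0) = t (X b1) + c a := by
        have h2 : c a = t a - t (t a) := by
          have h3 : c = t - t * t := by rw [hcd, mul_sub, mul_one]
          have h4 := LinearMap.congr_fun h3 a
          exact h4
        have h3 : X b1 = X b0 + t a := by
          rw [hb1d, map_add]
          rfl
        rw [h3, h2, map_add, map_add]
        abel
      have h2 : (t ^ (k + 1)) (h - X b) = (c ^ m) (t (X b1)) + (c ^ m) (c a) := by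
        rw [pow_succ', Module.End.mul_apply, hy, ← map_add, ← h1]
        exact LinearMap.congr_fun (hct.pow_left m).symm.eq _
      have h3 : (t ^ (k + 1)) (X ((c ^ m) b1)) = (c ^ m) (t (X b1)) - (c ^ m) (c (s (X b1))) := by
        have h4 : t ^ (k + 1) * X * c ^ m = c ^ m * (t * X) - c ^ m * (c * (s * X)) := by
          have h5 : t ^ (k + 1) * X = t * X - c * (s * X) := by
            rw [hk, sub_mul, ← mul_assoc c]
          have h6 : Commute (c ^ m) (t * X - c * (s * X)) :=
            ((hct.mul_right hcX).sub_right ((Commute.refl c).mul_right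
              (hcs.mul_right hcX))).pow_left m
          rw [h5, ← h6.eq, mul_sub]
        exact LinearMap.congr_fun h4 b1
      have h4 : h - X (b + (c ^ m) b1) = (h - X b) - X ((c ^ m) b1) := by
        rw [map_add]
        abel
      have h5 : (c ^ (m + 1)) (a + s (X b1)) = (c ^ m) (c a) + (c ^ m) (c (s (X b1))) := by
        rw [pow_succ]
        change (c ^ m) (c (a + s (X b1))) = _
        rw [map_add c, map_add (c ^ m)]
      rw [h4, map_sub, h2, h3, h5]
      abel
  obtain ⟨b, hb, k, y, hy⟩ := key M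
  refine ⟨b, hb, k, ?_⟩
  rw [hy, hc, LinearMap.zero_apply]

end modl

section

variable {R : Type} [CommRing R] {T : GC R} {n : ℤ}

/-- Families of cycles of `P`. -/
def ZP (P : ZCx R) : Submodule R (∀ i, P.P i) where
  carrier := {x | ∀ i j, P.d i j (x i) = 0}
  add_mem' := fun {x y} hx hy i j => by
    change P.d i j (x i + y i) = 0
    rw [map_add, hx i j, hy i j, add_zero]
  zero_mem' := fun i j => map_zero (P.d i j)
  smul_mem' := fun a x hx i j => by
    change P.d i j (a • x i) = 0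
    rw [map_smul, hx i j, smul_zero]

/-- The map induced by `z` in homology. -/
def zH (P : ZCx R) (z : ∀ i : ℤ, P.P i →ₗ[R] T.V)
    (hz : ∀ i x, P.Cyc i x → T.Cyc (i + n) (z i x)) : ZP P →ₗ[R] HF T :=
  Submodule.mkQ (BF T) ∘ₗ
    { toFun := fun x => ⟨fun i => z (i - n) (x.1 (i - n)), fun i => by
        have h := hz (i - n) (x.1 (i - n)) (x.2 (i - n))
        rwa [sub_add_cancel] at h⟩
      map_add' := fun _ _ => Subtype.ext (funext fun i => (z (i - n)).map_add _ _)
      map_smul' := fun a _ => Subtype.ext (funext fun i => (z (i - n)).map_smul a _) }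

lemma zH_cyc {P : ZCx R} {z : ∀ i : ℤ, P.P i →ₗ[R] T.V}
    (hz : ∀ i x, P.Cyc i x → T.Cyc (i + n) (z i x)) (x : ZP P) (i : ℤ) :
    T.Cyc i (z (i - n) (x.1 (i - n))) := by
  have h := hz (i - n) (x.1 (i - n)) (x.2 (i - n))
  rwa [sub_add_cancel] at h

lemma zH_mk {P : ZCx R} {z : ∀ i : ℤ, P.P i →ₗ[R] T.V}
    (hz : ∀ i x, P.Cyc i x → T.Cyc (i + n) (z i x)) (x : ZP P) :
    zH P z hz x = hmk (fun i => z (i - n) (x.1 (i - n))) (zH_cyc hz x) := rfl

/-- `X` on the image of `z`. -/
lemma XzH {P : ZCx R} {z : ∀ i : ℤ, P.P i →ₗ[R] T.V} (c : Clf T n)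
    (hz : ∀ i x, P.Cyc i x → T.Cyc (i + n) (z i x)) (x : ZP P) :
    ∃ hc, (oX c).h (zH P z hz x) = hmk (fun i => c.X (z i (x.1 i))) hc := by
  have hc : ∀ i, T.Cyc i (c.X (z i (x.1 i))) := by
    intro i
    apply (oX c).cyc
    rw [sub_neg_eq_add]
    exact hz i _ (x.2 i)
  refine ⟨hc, ?_⟩
  rw [zH_mk, oX_mk c _ _ (oX_cyc c (zH_cyc hz x)), hmk_eq]
  intro i
  rw [add_sub_cancel_right, sub_self]
  exact bdy_zero _ _

end

theorem sClA : S_ClA := by
  intro R _ T n c hn hT P w z hz hw hY hX hdir hgen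
  have hF : (cE c).Fit := sClF R T n c hn hT
  refine ⟨tj_ch (cE c) 0, ?_⟩
  -- `z` maps boundaries to boundaries
  have hXb : ∀ i x, P.Bdy i x → T.Bdy i (c.X (z i x)) := by
    intro i x hx
    have hxc : P.Cyc i x := by
      obtain ⟨k, y, rfl⟩ := hx
      intro j
      exact P.dd _ _ _ _
    rw [← hw i x hxc]
    exact fm_bdy w hx
  have hzb : ∀ i x, P.Bdy i x → T.Bdy (i + n) (z i x) := by
    intro i x hx
    have hxc : P.Cyc i x := by
      obtain ⟨k, y, rfl⟩ := hx
      intro j
      exact P.dd _ _ _ _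
    have h1 := hXb i x hx
    have h2 : T.Bdy (i + n) (c.Ξ (c.X (z i x))) := by
      apply (oY c).bdy
      rw [add_sub_cancel_right]
      exact h1
    have h3 := c.rel (i + n) (z i x) (hz i x hxc)
    obtain ⟨y, hy, hy2⟩ := hY i x hxc
    have h4 : T.Bdy (i + n) (c.X (c.Ξ (z i x) - z (i + n) y)) := by
      apply (oX c).bdy
      rw [sub_neg_eq_add]
      exact hy2
    rw [map_sub] at h4
    have h5 : T.Bdy (i + n) (z (i + n - n) (0 : P.P (i + n - n)) + c.X (z (i + n) (-y)) +
        z i x) := by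
      have h6 := bdy_sub (bdy_add h4 h2) h3
      have e : c.X (c.Ξ (z i x)) - c.X (z (i + n) y) + c.Ξ (c.X (z i x)) -
          (c.X (c.Ξ (z i x)) + c.Ξ (c.X (z i x)) - z i x) =
          z (i + n - n) (0 : P.P (i + n - n)) + c.X (z (i + n) (-y)) + z i x := by
        rw [map_zero, map_neg, map_neg]
        abel
      rwa [e] at h6
    have h7 : ∀ l : ℤ, l = i → ∃ x' : P.P l, P.Cyc l x' ∧ z l x' = z i x := by
      rintro _ rfl
      exact ⟨x, hxc, rfl⟩
    obtain ⟨x', hx', hzx⟩ := h7 (i + n - n) (add_sub_cancel_right _ _)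
    have hyn : P.Cyc (i + n) (-y) := fun j => by rw [map_neg, hy j, neg_zero]
    have h8 : T.Bdy (i + n) (z (i + n - n) x' + c.X (z (i + n) (-y))) := by
      rw [map_zero, zero_add] at h5
      rw [hzx]
      have e : z i x + c.X (z (i + n) (-y)) = c.X (z (i + n) (-y)) + z i x := add_comm _ _
      rw [e]
      exact h5
    have h9 := (hdir (i + n) x' (-y) hx' hyn h8).2
    have h10 := hXb _ _ h9
    have h11 := bdy_sub h8 h10
    rwa [add_sub_cancel_right, hzx] at h11
  -- the data in the homology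
  let A : Submodule R (HF T) := LinearMap.range (zH P z hz)
  have D : ClD (oX c).h (oY c).h A := by
    refine ⟨o_rel c, ?_, ?_, ?_, ?_, oX_nil c hn hT⟩
    · rintro _ ⟨x, rfl⟩
      have h1 : ∀ i, ∃ y : P.P i, P.Cyc i y ∧
          T.Bdy (i + n) (c.Ξ (z (i - n) (x.1 (i - n))) - z i y) := by
        intro i
        have h := hY (i - n) (x.1 (i - n)) (x.2 (i - n))
        rw [sub_add_cancel] at h
        exact h
      choose y hy hy2 using h1
      refine ⟨⟨y, hy⟩, ?_⟩
      symm
      rw [zH_mk, zH_mk, Op.h_mk, hmk_eq]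
      intro i
      have h := hy2 (i - n)
      rw [sub_add_cancel] at h
      exact h
    · rintro _ ⟨x, rfl⟩
      have h1 : ∀ i, ∃ y : P.P i, P.Cyc i y ∧
          T.Bdy (i + n) (c.X (c.X (z (i + n + n) (x.1 (i + n + n)))) - z i y) := by
        intro i
        have h := hX (i + n + n) (x.1 (i + n + n)) (x.2 (i + n + n))
        rw [add_sub_cancel_right, add_sub_cancel_right] at h
        exact h
      choose y hy hy2 using h1
      refine ⟨⟨y, hy⟩, ?_⟩
      symm
      obtain ⟨hc, e⟩ := XzH c hz x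
      rw [e, zH_mk, oX_mk c _ _ (oX_cyc c hc), hmk_eq]
      intro i
      have h := hy2 (i - n)
      rw [sub_add_cancel] at h
      exact h
    · rintro _ ⟨x, rfl⟩ _ ⟨y, rfl⟩ h
      obtain ⟨hc, e⟩ := XzH c hz y
      rw [e, zH_mk, hmk_add, hmk_zero] at h
      rw [zH_mk, hmk_zero]
      intro i
      have h1 := hzb _ _ (hdir (i - n) _ _ (x.2 _) (y.2 _) (h (i - n))).2
      rwa [sub_add_cancel] at h1
    · intro h
      obtain ⟨f, hf, rfl⟩ := hmk_surj h
      have h1 : ∀ i, ∃ y : P.P i, P.Cyc i y ∧ ∃ x : P.P (i - n), P.Cyc (i - n) x ∧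
          T.Bdy i (f i - z (i - n) x - c.X (z i y)) := by
        intro i
        obtain ⟨x, y, hx, hy, hb⟩ := hgen i (f i) (hf i)
        exact ⟨y, hy, x, hx, hb⟩
      choose y hy h2 using h1
      have h3 : ∀ i, ∃ x : P.P i, P.Cyc i x ∧
          T.Bdy (i + n) (f (i + n) - z i x - c.X (z (i + n) (y (i + n)))) := by
        intro i
        have h := h2 (i + n)
        rw [add_sub_cancel_right] at h
        exact h
      choose x hx h4 using h3
      refine ⟨_, ⟨⟨x, hx⟩, rfl⟩, _, ⟨⟨y, hy⟩, rfl⟩, ?_⟩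
      obtain ⟨hc, e⟩ := XzH c hz (⟨y, hy⟩ : ZP P)
      rw [e, zH_mk, hmk_add, hmk_eq]
      intro i
      have h := h4 (i - n)
      rw [sub_add_cancel, sub_sub] at h
      exact h
  have he := o_e c
  have hce : ChE T ((cE c).e : Module.End R T.V) := ChE.e (cE c)
  refine ⟨fun i x hx hb => ?_, fun i t ht => ?_⟩
  · change (tel (cE c)).Bdy i (tj (cE c) 0 (w.f i x)) at hb
    rw [tj_bdy (cE c) i 0 _ (fm_cyc w hx)] at hb
    obtain ⟨k, hk⟩ := hb
    have hs : ∀ j l, P.d j l ((Pi.single i x : ∀ j, P.P j) j) = 0 := by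
      intro j l
      by_cases hj : j = i
      · subst hj
        rw [Pi.single_eq_same]
        exact hx l
      · rw [Pi.single_eq_of_ne hj, map_zero]
    obtain ⟨hc, e⟩ := XzH c hz (⟨Pi.single i x, hs⟩ : ZP P)
    have h1 : zH P z hz ⟨Pi.single i x, hs⟩ = 0 := by
      apply cl_inj D k _ ⟨_, rfl⟩
      rw [e, ← he, ← opz_pow, opz_mk, hmk_zero]
      intro j
      change T.Bdy j (((cE c).e ^ k : Module.End R T.V)
        (c.X (z j ((Pi.single i x : ∀ j, P.P j) j))))
      by_cases hj : j = i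
      · subst hj
        rw [Pi.single_eq_same, ← hw j x hx]
        exact hk
      · rw [Pi.single_eq_of_ne hj, map_zero, map_zero, map_zero]
        exact bdy_zero _ _
    rw [zH_mk, hmk_zero] at h1
    have h2 := h1 (i + n)
    rw [add_sub_cancel_right] at h2
    change T.Bdy (i + n) (z i ((Pi.single i x : ∀ j, P.P j) i)) at h2
    rw [Pi.single_eq_same] at h2
    have h7 : ∀ l : ℤ, l = i → ∃ x' : P.P l, P.Cyc l x' ∧ z l x' = z i x ∧
        (P.Bdy l x' → P.Bdy i x) := by
      rintro _ rfl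
      exact ⟨x, hx, rfl, id⟩
    obtain ⟨x', hx', hzx, hxx⟩ := h7 (i + n - n) (add_sub_cancel_right _ _)
    apply hxx
    refine (hdir (i + n) x' 0 hx' (fun j => map_zero _) ?_).1
    rw [map_zero, map_zero, add_zero, hzx]
    exact h2
  · obtain ⟨x, hx, hxt⟩ := (sTelF R T (cE c) hF).1 i t ht
    obtain ⟨_, ⟨b, rfl⟩, k, hk⟩ := cl_sur D (hmk (sgl i x) (sgl_cyc hx))
    obtain ⟨hc, e⟩ := XzH c hz b
    rw [e, ← he, ← opz_pow, hmk_sub, opz_mk, hmk_zero] at hk
    have h1 := hk i
    rw [sgl_self, ← hw i _ (b.2 i)] at h1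
    refine ⟨b.1 i, b.2 i, ?_⟩
    have h2 : (tel (cE c)).Bdy i (tj (cE c) 0 (x - w.f i (b.1 i))) := by
      rw [tj_bdy (cE c) i 0 _ (cyc_sub hx (fm_cyc w (b.2 i)))]
      exact ⟨k, h1⟩
    rw [map_sub] at h2
    have h3 := bdy_add hxt h2
    rwa [sub_add_sub_cancel] at h3

end HBy
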