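import Pool.Agent.Lib.MP_181146_gt.HB.TelC

/-!
# Project HB, module ClF (helper80): the ring generated by a Clifford pair in the homology
-/

set_option autoImplicit false

namespace HBy

open HEp HRx

/-! ## Ring lemmas -/

section ring

variable {A : Type} [Ring A] {X Y : A}

lemma clr_yx (h : X * Y + Y * X = 1) : Y * X = 1 - X * Y := by
  rw [← h, add_sub_cancel_left]

lemma clr_tX (h : X * Y + Y * X = 1) : X * Y * X = X * (1 - X * Y) := by
  rw [← clr_yx h, mul_assoc]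

lemma clr_Xt (h : X * Y + Y * X = 1) : X * (X * Y) = (1 - X * Y) * X := by
  have e := clr_tX h
  rw [mul_sub, mul_one] at e
  rw [sub_mul, one_mul, e, sub_sub_cancel]

lemma clr_Yt (h : X * Y + Y * X = 1) : Y * (X * Y) = (1 - X * Y) * Y := by
  rw [← clr_yx h, mul_assoc]

/-- `c = t (1 - t)` commutes with `X`. -/
lemma clr_cX (h : X * Y + Y * X = 1) : Commute (X * Y * (1 - X * Y)) X := by
  have h1 := clr_Xt h
  have h2 : (1 - X * Y) * X = X * (X * Y) := h1.symm
  have h3 : (1 - X * Y) * (X * Y) = X * Y * (1 - X * Y) := by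
    rw [sub_mul, mul_sub, one_mul, mul_one]
  change X * Y * (1 - X * Y) * X = X * (X * Y * (1 - X * Y))
  rw [mul_assoc (X * Y), h2, ← mul_assoc (X * Y) X, clr_tX h, mul_assoc X (1 - X * Y), h3]

/-- `c` is a multiple of `X`. -/
lemma clr_cm (h : X * Y + Y * X = 1) : X * Y * (1 - X * Y) = X * (Y * (Y * X)) := by
  rw [← clr_yx h, mul_assoc]

lemma clr_pow (h : X * Y + Y * X = 1) (k : ℕ) : ∃ s, (X * Y * (1 - X * Y)) ^ k = X ^ k * s := by
  induction k with
  | zero => exact ⟨1, by rw [pow_zero, pow_zero, one_mul]⟩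
  | succ k ih =>
    obtain ⟨s, hs⟩ := ih
    refine ⟨s * (Y * (Y * X)), ?_⟩
    have h1 : (X * Y * (1 - X * Y)) ^ k * X = X * (X * Y * (1 - X * Y)) ^ k :=
      ((clr_cX h).pow_left k).eq
    have h2 : (X * Y * (1 - X * Y)) ^ (k + 1) = (X * Y * (1 - X * Y)) ^ k * (X * (Y * (Y * X))) := by
      rw [pow_succ]
      exact congrArg _ (clr_cm h)
    rw [h2, ← mul_assoc, h1, hs, pow_succ' X k, mul_assoc, mul_assoc, mul_assoc]

lemma clr_nil (h : X * Y + Y * X = 1) {k : ℕ} (hk : X ^ k = 0) : (X * Y * (1 - X * Y)) ^ k = 0 := by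
  obtain ⟨s, hs⟩ := clr_pow h k
  rw [hs, hk, zero_mul]

/-- `c = Y Y X X`. -/
lemma clr_c2 (h : X * Y + Y * X = 1) : X * Y * (1 - X * Y) = Y * (Y * (X * X)) := by
  have h1 : X * Y = 1 - Y * X := by rw [← h, add_sub_cancel_right]
  have h2 : Y * (Y * (X * X)) = Y * (Y * X) * X := by
    rw [mul_assoc, mul_assoc]
  have h4 : Y * (Y * X) * X = Y * X - Y * X * (Y * X) := by
    rw [clr_yx h, mul_sub, mul_one, sub_mul, mul_assoc Y, clr_tX h, clr_yx h]
    rw [← mul_assoc Y X, clr_yx h]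
  rw [h2, h4, clr_yx h]
  rw [mul_sub, mul_one, sub_mul, one_mul, mul_sub, mul_one]
  abel

/-- `t ^ (k + 1) = t - c s`, `s` commutes with `c`. -/
lemma clr_tk (t : A) (k : ℕ) : ∃ s, Commute (t * (1 - t)) s ∧ t ^ (k + 1) = t - t * (1 - t) * s := by
  have hct : Commute (t * (1 - t)) t :=
    (Commute.refl t).mul_left ((Commute.one_left t).sub_left (Commute.refl t))
  induction k with
  | zero => exact ⟨0, Commute.zero_right _, by rw [zero_add, pow_one, mul_zero, sub_zero]⟩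
  | succ k ih =>
    obtain ⟨s, hs, hk⟩ := ih
    refine ⟨1 + t * s, (Commute.one_right _).add_right (hct.mul_right hs), ?_⟩
    rw [pow_succ', hk, mul_sub, ← mul_assoc t (t * (1 - t)) s, ← hct.eq, mul_assoc (t * (1 - t)) t s,
      mul_add, mul_one, ← sub_sub]
    have h1 : t - t * (1 - t) = t * t := by
      rw [mul_sub, mul_one, sub_sub_cancel]
    rw [h1]

end ring

/-! ## Families of homology classes -/

section

variable {R : Type} [CommRing R]

/-- Families of cycles. -/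
def ZF (T : GC R) : Submodule R (ℤ → T.V) where
  carrier := {f | ∀ i, T.Cyc i (f i)}
  add_mem' := fun hf hg i => cyc_add (hf i) (hg i)
  zero_mem' := fun i => ⟨(T.G i).zero_mem, map_zero _⟩
  smul_mem' := fun a _ hf i => cyc_smul a (hf i)

/-- Families of boundaries. -/
def BF (T : GC R) : Submodule R (ZF T) where
  carrier := {f | ∀ i, T.Bdy i (f.1 i)}
  add_mem' := fun hf hg i => bdy_add (hf i) (hg i)
  zero_mem' := fun i => bdy_zero T i
  smul_mem' := fun a _ hf i => bdy_smul a (hf i)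

/-- The homology: families of classes. -/
abbrev HF (T : GC R) : Type := ZF T ⧸ BF T

variable {T : GC R}

/-- The class of a family of cycles. -/
def hmk (f : ℤ → T.V) (hf : ∀ i, T.Cyc i (f i)) : HF T := Submodule.Quotient.mk ⟨f, hf⟩

lemma hmk_surj (h : HF T) : ∃ f hf, h = hmk f hf := by
  obtain ⟨⟨f, hf⟩, rfl⟩ := Submodule.Quotient.mk_surjective _ h
  exact ⟨f, hf, rfl⟩

lemma hmk_eq {f g : ℤ → T.V} (hf : ∀ i, T.Cyc i (f i)) (hg : ∀ i, T.Cyc i (g i)) :
    hmk f hf = hmk g hg ↔ ∀ i, T.Bdy i (f i - g i) :=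
  Submodule.Quotient.eq (BF T)

lemma hmk_zero {f : ℤ → T.V} (hf : ∀ i, T.Cyc i (f i)) : hmk f hf = 0 ↔ ∀ i, T.Bdy i (f i) :=
  Submodule.Quotient.mk_eq_zero (BF T)

lemma hmk_add {f g : ℤ → T.V} (hf : ∀ i, T.Cyc i (f i)) (hg : ∀ i, T.Cyc i (g i)) :
    hmk f hf + hmk g hg = hmk (fun i => f i + g i) (fun i => cyc_add (hf i) (hg i)) := rfl

lemma hmk_sub {f g : ℤ → T.V} (hf : ∀ i, T.Cyc i (f i)) (hg : ∀ i, T.Cyc i (g i)) :
    hmk f hf - hmk g hg = hmk (fun i => f i - g i) (fun i => cyc_sub (hf i) (hg i)) := rfl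

/-- An operator of degree `s`. -/
structure Op (T : GC R) (s : ℤ) where
  g : T.V →ₗ[R] T.V
  cyc : ∀ i x, T.Cyc (i - s) x → T.Cyc i (g x)
  bdy : ∀ i x, T.Bdy (i - s) x → T.Bdy i (g x)

/-- The action on the families of cycles. -/
def Op.z {s : ℤ} (o : Op T s) : ZF T →ₗ[R] ZF T where
  toFun f := ⟨fun i => o.g (f.1 (i - s)), fun i => o.cyc i _ (f.2 (i - s))⟩
  map_add' _ _ := Subtype.ext (funext fun _ => o.g.map_add _ _)
  map_smul' a _ := Subtype.ext (funext fun _ => o.g.map_smul a _)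

/-- The action on the homology. -/
def Op.h {s : ℤ} (o : Op T s) : Module.End R (HF T) :=
  Submodule.mapQ (BF T) (BF T) o.z (fun _ hf i => o.bdy i _ (hf (i - s)))

lemma Op.h_mk {s : ℤ} (o : Op T s) (f : ℤ → T.V) (hf : ∀ i, T.Cyc i (f i)) :
    o.h (hmk f hf) = hmk (fun i => o.g (f (i - s))) (fun i => o.cyc i _ (hf (i - s))) := rfl

/-- A chain endomorphism of degree `0` as an operator. -/
def opz (g : Module.End R T.V) (hg : ChE T g) : Op T 0 where
  g := g
  cyc i x hx := by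
    rw [sub_zero] at hx
    exact hg.cyc hx
  bdy i x hx := by
    rw [sub_zero] at hx
    exact hg.bdy hx

lemma opz_mk (g : Module.End R T.V) (hg : ChE T g) (f : ℤ → T.V) (hf : ∀ i, T.Cyc i (f i)) :
    (opz g hg).h (hmk f hf) = hmk (fun i => g (f i)) (fun i => hg.cyc (hf i)) := by
  rw [Op.h_mk, hmk_eq]
  intro i
  rw [sub_zero]
  change T.Bdy i (g (f i) - g (f i))
  rw [sub_self]
  exact bdy_zero _ _

lemma opz_mul (g g' : Module.End R T.V) (hg : ChE T g) (hg' : ChE T g') :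
    (opz (g * g') (hg.mul hg')).h = (opz g hg).h * (opz g' hg').h := by
  refine LinearMap.ext fun h => ?_
  obtain ⟨f, hf, rfl⟩ := hmk_surj h
  rw [Module.End.mul_apply, opz_mk, opz_mk, opz_mk]
  rfl

lemma opz_one : (opz (1 : Module.End R T.V) ChE.one).h = 1 := by
  refine LinearMap.ext fun h => ?_
  obtain ⟨f, hf, rfl⟩ := hmk_surj h
  rw [opz_mk]
  rfl

lemma opz_sub (g g' : Module.End R T.V) (hg : ChE T g) (hg' : ChE T g') :
    (opz (g - g') (hg.sub hg')).h = (opz g hg).h - (opz g' hg').h := by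
  refine LinearMap.ext fun h => ?_
  obtain ⟨f, hf, rfl⟩ := hmk_surj h
  rw [LinearMap.sub_apply, opz_mk, opz_mk, opz_mk]
  rfl

lemma opz_congr {g g' : Module.End R T.V} (h : g = g') (hg : ChE T g) (hg' : ChE T g') :
    (opz g hg).h = (opz g' hg').h := by
  subst h
  rfl

lemma opz_pow (g : Module.End R T.V) (hg : ChE T g) (k : ℕ) :
    (opz (g ^ k) (hg.pow k)).h = (opz g hg).h ^ k := by
  induction k with
  | zero => exact (opz_congr (pow_zero g) _ ChE.one).trans (opz_one.trans (pow_zero _).symm)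
  | succ k ih =>
    rw [pow_succ (opz g hg).h, ← ih, ← opz_mul _ _ (hg.pow k) hg]
    exact opz_congr (pow_succ g k) _ _

/-- The family with one element. -/
def sgl (i : ℤ) (x : T.V) : ℤ → T.V := fun j => if j = i then x else 0

lemma sgl_self (i : ℤ) (x : T.V) : sgl (T := T) i x i = x := if_pos rfl

lemma sgl_cyc {i : ℤ} {x : T.V} (hx : T.Cyc i x) (j : ℤ) : T.Cyc j (sgl (T := T) i x j) := by
  change T.Cyc j (if j = i then x else 0)
  split_ifs with h
  · rw [h]
    exact hx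
  · exact ⟨(T.G j).zero_mem, map_zero _⟩

lemma opz_zero {g : Module.End R T.V} {hg : ChE T g} (h : (opz g hg).h = 0) (i : ℤ) (x : T.V)
    (hx : T.Cyc i x) : T.Bdy i (g x) := by
  have h1 := LinearMap.congr_fun h (hmk (sgl i x) (sgl_cyc hx))
  rw [opz_mk, LinearMap.zero_apply, hmk_zero] at h1
  have h2 := h1 i
  rwa [sgl_self] at h2

/-! ## Clifford pairs -/

variable {n : ℤ}

/-- The operator `X`. -/
def oX (c : Clf T n) : Op T (-n) where
  g := c.X
  cyc i x hx := by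
    rw [sub_neg_eq_add] at hx
    refine ⟨?_, ?_⟩
    · have h := c.XG _ x hx.1
      rwa [add_sub_cancel_right] at h
    · have h := c.Xd x
      rw [hx.2, map_zero] at h
      rw [← neg_eq_zero]
      exact h.symm
  bdy i x hx := by
    rw [sub_neg_eq_add] at hx
    obtain ⟨y, hy, rfl⟩ := hx
    refine ⟨-(c.X y), ?_, ?_⟩
    · have h := c.XG _ y hy
      have e : i + n + 1 - n = i + 1 := by ring
      rw [e] at h
      exact (T.G _).neg_mem h
    · rw [map_neg, c.Xd]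

/-- The operator `Ξ`. -/
def oY (c : Clf T n) : Op T n where
  g := c.Ξ
  cyc i x hx := by
    refine ⟨?_, ?_⟩
    · have h := c.ΞG _ x hx.1
      rwa [sub_add_cancel] at h
    · have h := c.Ξd x
      rw [hx.2, map_zero] at h
      rw [← neg_eq_zero]
      exact h.symm
  bdy i x hx := by
    obtain ⟨y, hy, rfl⟩ := hx
    refine ⟨-(c.Ξ y), ?_, ?_⟩
    · have h := c.ΞG _ y hy
      have e : i - n + 1 + n = i + 1 := by ring
      rw [e] at h
      exact (T.G _).neg_mem h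
    · rw [map_neg, c.Ξd]

lemma oX_mk (c : Clf T n) (f : ℤ → T.V) (hf : ∀ i, T.Cyc i (f i))
    (hf' : ∀ i, T.Cyc i (c.X (f (i + n)))) :
    (oX c).h (hmk f hf) = hmk (fun i => c.X (f (i + n))) hf' := by
  rw [Op.h_mk, hmk_eq]
  intro i
  rw [sub_neg_eq_add]
  change T.Bdy i (c.X (f (i + n)) - c.X (f (i + n)))
  rw [sub_self]
  exact bdy_zero _ _

lemma oX_cyc (c : Clf T n) {f : ℤ → T.V} (hf : ∀ i, T.Cyc i (f i)) (i : ℤ) :
    T.Cyc i (c.X (f (i + n))) :=
  (oX c).cyc i _ (by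
    rw [sub_neg_eq_add]
    exact hf (i + n))

lemma o_rel (c : Clf T n) : (oX c).h * (oY c).h + (oY c).h * (oX c).h = 1 := by
  refine LinearMap.ext fun h => ?_
  obtain ⟨f, hf, rfl⟩ := hmk_surj h
  rw [LinearMap.add_apply, Module.End.mul_apply, Module.End.mul_apply, Module.End.one_apply]
  rw [Op.h_mk, Op.h_mk, Op.h_mk, Op.h_mk, hmk_add, hmk_eq]
  intro i
  have e1 : i - -n - n = i := by ring
  have e2 : i - n - -n = i := by ring
  rw [e1, e2]
  exact c.rel i _ (hf i)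

lemma o_e (c : Clf T n) : (opz (cE c).e (ChE.e (cE c))).h = (oX c).h * (oY c).h := by
  refine LinearMap.ext fun h => ?_
  obtain ⟨f, hf, rfl⟩ := hmk_surj h
  rw [Module.End.mul_apply, opz_mk, Op.h_mk, Op.h_mk, hmk_eq]
  intro i
  have e1 : i - -n - n = i := by ring
  rw [e1]
  change T.Bdy i (c.X (c.Ξ (f i)) - c.X (c.Ξ (f i)))
  rw [sub_self]
  exact bdy_zero _ _

lemma oX_pow (c : Clf T n) (k : ℕ) : ∀ (f : ℤ → T.V) (hf : ∀ i, T.Cyc i (f i)),
    ∃ g : ℤ → T.V, ∃ hg : ∀ i, T.Cyc i (g i), ((oX c).h ^ k) (hmk f hf) = hmk g hg ∧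
      ∀ i, T.Bdy (i + k * n) (f (i + k * n)) → T.Bdy i (g i) := by
  induction k with
  | zero =>
    intro f hf
    refine ⟨f, hf, rfl, fun i h => ?_⟩
    rw [Nat.cast_zero, zero_mul, add_zero] at h
    exact h
  | succ k ih =>
    intro f hf
    obtain ⟨g, hg, h1, h2⟩ := ih (fun i => c.X (f (i + n))) (oX_cyc c hf)
    refine ⟨g, hg, ?_, fun i h => h2 i ?_⟩
    · rw [pow_succ, Module.End.mul_apply, oX_mk c f hf (oX_cyc c hf)]
      exact h1
    · apply (oX c).bdy
      have e : i + k * n - -n = i + (k + 1 : ℕ) * n := by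
        push_cast
        ring
      have e' : i + k * n + n = i + (k + 1 : ℕ) * n := by
        push_cast
        ring
      rw [e, e']
      exact h

lemma oX_nil (c : Clf T n) (hn : 0 < n) (hT : BdH T) : ∃ k : ℕ, (oX c).h ^ k = 0 := by
  obtain ⟨N, hN⟩ := hT
  refine ⟨2 * N + 1, ?_⟩
  refine LinearMap.ext fun h => ?_
  obtain ⟨f, hf, rfl⟩ := hmk_surj h
  obtain ⟨g, hg, h1, h2⟩ := oX_pow c (2 * N + 1) f hf
  rw [h1, LinearMap.zero_apply, hmk_zero]
  intro i
  by_cases hi : (N : ℤ) < |i|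
  · exact hN i _ hi (hg i)
  · apply h2
    apply hN _ _ _ (hf _)
    rw [not_lt, abs_le] at hi
    rw [lt_abs]
    left
    have h3 : ((2 * N + 1 : ℕ) : ℤ) * 1 ≤ ((2 * N + 1 : ℕ) : ℤ) * n :=
      mul_le_mul_of_nonneg_left (by omega) (by omega)
    have h4 : ((2 * N + 1 : ℕ) : ℤ) = 2 * N + 1 := by
      push_cast
      ring
    rw [h4] at h3
    rw [h4]
    have := hi.1
    linarith

end

theorem sClF : S_ClF := by
  intro R _ T n c hn hT
  obtain ⟨k, hk⟩ := oX_nil c hn hT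
  have h1 := clr_nil (o_rel c) hk
  have hce : ChE T ((cE c).e : Module.End R T.V) := ChE.e (cE c)
  refine ⟨k, fun i x hx => ?_⟩
  have h2 : (opz (((cE c).e * (1 - (cE c).e) : Module.End R T.V) ^ k)
      ((hce.mul (ChE.one.sub hce)).pow k)).h = 0 := by
    rw [opz_pow _ (hce.mul (ChE.one.sub hce)), opz_mul _ _ hce (ChE.one.sub hce),
      opz_sub _ _ ChE.one hce, opz_one, o_e]
    exact h1
  exact opz_zero h2 i x hx

end HBy
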