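import Pool.Agent.Lib.MP_181146_gt.HB.Seq
import Pool.Agent.Lib.MP_181146_gt.HB.TelC

/-!
# Project HB, module ECt (helper80): a bounded complex of projective modules with finitely generated
homology is perfect; telescopes of perfect complexes are perfect
-/

set_option autoImplicit false

namespace HBy

open HEp HRx

section

variable {R : Type} [CommRing R]

/-! ## Finitely generated homology -/

/-- The homology is finitely generated in every degree. -/
def FGH (T : GC R) : Prop :=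
  ∀ i, ∃ S : Submodule R T.V, S.FG ∧ (∀ x ∈ S, T.Cyc i x) ∧
    ∀ x, T.Cyc i x → ∃ s ∈ S, T.Bdy i (x - s)

/-- Lifting a finitely generated submodule along a relation. -/
lemma fg_lift {V W : Type} [AddCommGroup V] [Module R V] [AddCommGroup W] [Module R W]
    (P : Submodule R (V × W)) (K : Submodule R V) (hK : K.FG)
    (h : ∀ x ∈ K, ∃ y, (x, y) ∈ P) :
    ∃ S : Submodule R (V × W), S.FG ∧ S ≤ P ∧ ∀ x ∈ K, ∃ y, (x, y) ∈ S := by
  classical
  obtain ⟨s, hs⟩ := hK
  have h' : ∀ x : V, ∃ y, x ∈ K → (x, y) ∈ P := fun x => by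
    by_cases hx : x ∈ K
    · obtain ⟨y, hy⟩ := h x hx
      exact ⟨y, fun _ => hy⟩
    · exact ⟨0, fun hx' => absurd hx' hx⟩
  choose l hl using h'
  have hsK : ∀ x ∈ s, x ∈ K := fun x hx => by
    rw [← hs]
    exact Submodule.subset_span hx
  refine ⟨Submodule.span R (s.image fun x => (x, l x)), ⟨_, rfl⟩, ?_, ?_⟩
  · rw [Submodule.span_le]
    intro p hp
    obtain ⟨x, hx, rfl⟩ := Finset.mem_image.1 (Finset.mem_coe.1 hp)
    exact hl x (hsK x hx)
  · intro x hx
    rw [← hs] at hx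
    induction hx using Submodule.span_induction with
    | mem x hx => exact ⟨l x, Submodule.subset_span (Finset.mem_coe.2 (Finset.mem_image_of_mem _ hx))⟩
    | zero => exact ⟨0, Submodule.zero_mem _⟩
    | add x y _ _ hx hy =>
      obtain ⟨a, ha⟩ := hx
      obtain ⟨b, hb⟩ := hy
      exact ⟨a + b, Submodule.add_mem _ ha hb⟩
    | smul r x _ hx =>
      obtain ⟨a, ha⟩ := hx
      exact ⟨r • a, Submodule.smul_mem _ r ha⟩

/-- Invariance under quasi-isomorphisms (forward). -/
lemma FGH_map {X Y : GC R} (w : X.V →ₗ[R] Y.V) (hw : LQI X Y w) (h : FGH X) : FGH Y := by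
  intro i
  obtain ⟨S, hS, hc, hs⟩ := h i
  refine ⟨S.map w, hS.map w, ?_, ?_⟩
  · rintro _ ⟨x, hx, rfl⟩
    exact ch_cyc hw.1 (hc x hx)
  · intro y hy
    obtain ⟨x, hx, hb⟩ := hw.2.2 i y hy
    obtain ⟨s, hs', hb'⟩ := hs x hx
    refine ⟨w s, ⟨s, hs', rfl⟩, ?_⟩
    have h1 := bdy_add hb (ch_bdy hw.1 hb')
    change Y.Bdy i (y - w x + w (x - s)) at h1
    rwa [map_sub, sub_add_sub_cancel] at h1

/-- The cycles of degree `i`. -/
def cycS (T : GC R) (i : ℤ) : Submodule R T.V where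
  carrier := {x | T.Cyc i x}
  add_mem' := fun hx hy => cyc_add hx hy
  zero_mem' := ⟨(T.G i).zero_mem, map_zero _⟩
  smul_mem' := fun a _ hx => cyc_smul a hx

/-- The boundaries of degree `i`. -/
def bdyS (T : GC R) (i : ℤ) : Submodule R T.V where
  carrier := {x | T.Bdy i x}
  add_mem' := fun hx hy => bdy_add hx hy
  zero_mem' := bdy_zero T i
  smul_mem' := fun a _ hx => bdy_smul a hx

/-- Invariance under quasi-isomorphisms (backward). -/
lemma FGH_comap {X Y : GC R} (w : X.V →ₗ[R] Y.V) (hw : LQI X Y w) (h : FGH Y) : FGH X := by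
  intro i
  obtain ⟨S, hS, hc, hs⟩ := h i
  -- pairs `(y, x)`, `x` a cycle, `y ~ w x`
  let P : Submodule R (Y.V × X.V) := (cycS X i).comap (LinearMap.snd R _ _) ⊓
    (bdyS Y i).comap (LinearMap.fst R _ _ - w ∘ₗ LinearMap.snd R _ _)
  obtain ⟨S', hS', hP, hK⟩ := fg_lift P S hS (fun y hy => by
    obtain ⟨x, hx, hb⟩ := hw.2.2 i y (hc y hy)
    exact ⟨x, hx, hb⟩)
  refine ⟨S'.map (LinearMap.snd R _ _), hS'.map _, ?_, ?_⟩
  · rintro _ ⟨⟨y, x⟩, hyx, rfl⟩
    exact (hP hyx).1
  · intro x hx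
    obtain ⟨s, hs', hb⟩ := hs (w x) (ch_cyc hw.1 hx)
    obtain ⟨x', hx'⟩ := hK s hs'
    have h1 : X.Cyc i x' := (hP hx').1
    have h2 : Y.Bdy i (s - w x') := (hP hx').2
    refine ⟨x', ⟨(s, x'), hx', rfl⟩, hw.2.1 i _ (cyc_sub hx h1) ?_⟩
    change Y.Bdy i (w (x - x'))
    have h3 := bdy_add hb h2
    rwa [sub_add_sub_cancel, ← map_sub] at h3

/-- The homology of a cone is finitely generated. -/
lemma FGH_cone [IsNoetherianRing R] {X Y : GC R} (f : X.V →ₗ[R] Y.V) (hf : LCh X Y f)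
    (hX : FGH X) (hY : FGH Y) : FGH (cone X Y f hf) := by
  intro i
  obtain ⟨S, hS, hSc, hSs⟩ := hX (i - 1)
  obtain ⟨S', hS', hSc', hSs'⟩ := hY i
  have hnoe : IsNoetherian R S := isNoetherian_of_fg_of_noetherian S hS
  have hK : (S ⊓ (bdyS Y (i - 1)).comap f).FG := by
    have h1 := (isNoetherian_submodule.1 hnoe) (S ⊓ (bdyS Y (i - 1)).comap f) inf_le_left
    exact h1
  let P : Submodule R (X.V × Y.V) := cycS (cone X Y f hf) i
  obtain ⟨L, hL, hLP, hLK⟩ := fg_lift P _ hK (fun x hx => by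
    obtain ⟨hx1, hx2⟩ := hx
    obtain ⟨y, hy, hy'⟩ : Y.Bdy (i - 1) (f x) := hx2
    rw [sub_add_cancel] at hy
    refine ⟨-y, ⟨⟨(hSc x hx1).1, (Y.G i).neg_mem hy⟩, ?_⟩⟩
    rw [cone_d, (hSc x hx1).2, map_neg, hy', neg_add_cancel, neg_zero]
    rfl)
  let Q : Submodule R (X.V × Y.V) := L ⊔ S'.map (LinearMap.inr R X.V Y.V)
  have hfg : Q.FG := hL.sup (hS'.map _)
  refine ⟨Q, hfg, ?_, ?_⟩
  · intro p hp
    have h1 : Q ≤ P := by
      refine sup_le hLP ?_
      rintro _ ⟨y, hy, rfl⟩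
      refine ⟨⟨(X.G (i - 1)).zero_mem, (hSc' y hy).1⟩, ?_⟩
      change (cone X Y f hf).d (0, y) = 0
      rw [cone_d, (hSc' y hy).2, map_zero, map_zero, neg_zero, add_zero]
      rfl
    exact h1 hp
  · rintro ⟨x, y⟩ ⟨⟨hx, hy⟩, hd⟩
    rw [cone_d] at hd
    have hd1 : X.d x = 0 := neg_eq_zero.1 (congrArg Prod.fst hd)
    have hd2 : Y.d y + f x = 0 := congrArg Prod.snd hd
    have hfd : ∀ x, f (X.d x) = Y.d (f x) := fun x => hf.2 x
    obtain ⟨s, hs, x1, hx1, hx1'⟩ := hSs x ⟨hx, hd1⟩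
    rw [sub_add_cancel] at hx1
    have hfs : f s = -(Y.d (y + f x1)) := by
      rw [map_add, ← hfd, hx1', map_sub]
      have h1 : Y.d y = -(f x) := eq_neg_of_add_eq_zero_left hd2
      rw [h1]
      abel
    have hsK : s ∈ S ⊓ (bdyS Y (i - 1)).comap f := by
      refine ⟨hs, -(y + f x1), ?_, ?_⟩
      · rw [sub_add_cancel]
        exact (Y.G i).neg_mem ((Y.G i).add_mem hy (hf.1 _ _ hx1))
      · rw [map_neg, hfs]
    obtain ⟨y', hy'⟩ := hLK s hsK
    obtain ⟨⟨_, hyG⟩, hd'⟩ := hLP hy'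
    rw [cone_d] at hd'
    have hd2' : Y.d y' + f s = 0 := congrArg Prod.snd hd'
    have hyG' : y' ∈ Y.G i := hyG
    have hcyc : Y.Cyc i (y - y' + f x1) := by
      refine ⟨(Y.G i).add_mem ((Y.G i).sub_mem hy hyG') (hf.1 _ _ hx1), ?_⟩
      have h1 : Y.d y' = -(f s) := eq_neg_of_add_eq_zero_left hd2'
      rw [map_add, map_sub, h1, hfs, map_add]
      abel
    obtain ⟨t, ht, y3, hy3, hy3'⟩ := hSs' _ hcyc
    have hQ : ((s, y') + (0, t) : X.V × Y.V) ∈ Q := Submodule.add_mem _ (Submodule.mem_sup_left hy')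
      (Submodule.mem_sup_right ⟨t, ht, rfl⟩)
    refine ⟨(s, y') + (0, t), hQ, (-x1, y3), ⟨?_, hy3⟩, ?_⟩
    · change -x1 ∈ X.G (i + 1 - 1)
      rw [add_sub_cancel_right]
      exact (X.G i).neg_mem hx1
    · rw [cone_d]
      refine Prod.ext ?_ ?_
      · change -(X.d (-x1)) = x - (s + 0)
        rw [map_neg, neg_neg, hx1', add_zero]
      · change Y.d y3 + f (-x1) = y - (y' + t)
        rw [hy3', map_neg]
        abel

/-! ## Complexes concentrated in one degree -/

/-- The module `M` in degree `a`. -/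
def zone (M : Type) [AddCommGroup M] [Module R M] [Module.Finite R M] [Module.Projective R M]
    (a : ℤ) : ZCx R where
  P i := PLift (i = a) → M
  fi i := inferInstance
  pr i := projPi _
  d _ _ := 0
  shape _ _ _ := rfl
  dd _ _ _ _ := rfl
  N := a.natAbs
  bdd i hi := by
    have h : i ≠ a := by
      rintro rfl
      rw [Int.natCast_natAbs] at hi
      exact lt_irrefl _ hi
    have : IsEmpty (PLift (i = a)) := ⟨fun h' => h h'.down⟩
    infer_instance

/-- The map from the module `M` in degree `a` given by a map from `M` to the cycles. -/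
def zoneF {M : Type} [AddCommGroup M] [Module R M] [Module.Finite R M] [Module.Projective R M]
    (a : ℤ) (T : GC R) (f : M →ₗ[R] T.V) (hf : ∀ x, T.Cyc a (f x)) : FMap (zone (R := R) M a) T where
  f i := if h : i = a then f ∘ₗ LinearMap.proj (PLift.up h) else 0
  fG i x := by
    split_ifs with h
    · subst h
      exact (hf _).1
    · exact (T.G i).zero_mem
  fd i x := by
    have h1 : (zone (R := R) M a).d i (i - 1) x = 0 := rfl
    rw [h1, map_zero]
    split_ifs with h
    · subst h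
      exact (hf _).2.symm
    · rw [LinearMap.zero_apply, map_zero]

lemma zoneF_self {M : Type} [AddCommGroup M] [Module R M] [Module.Finite R M]
    [Module.Projective R M] (a : ℤ) (T : GC R) (f : M →ₗ[R] T.V) (hf : ∀ x, T.Cyc a (f x))
    (x : PLift (a = a) → M) : (zoneF a T f hf).f a x = f (x ⟨rfl⟩) := by
  change (if h : a = a then f ∘ₗ LinearMap.proj (PLift.up h) else 0 : (PLift (a = a) → M) →ₗ[R] T.V) x
    = _
  rw [dif_pos rfl]
  rfl

/-! ## The subcomplex of the elements of degree `> a` and of the cycles of degree `a + 1` -/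

/-- The truncation. -/
def trc (C : GC R) (a : ℤ) : GC R where
  V := C.V
  d := C.d
  G i :=
    { carrier := {x | x ∈ C.G i ∧ (i ≤ a → x = 0) ∧ (i = a + 1 → C.d x = 0)}
      add_mem' := by
        rintro x y ⟨h1, h2, h3⟩ ⟨h1', h2', h3'⟩
        refine ⟨(C.G i).add_mem h1 h1', fun h => ?_, fun h => ?_⟩
        · rw [h2 h, h2' h, add_zero]
        · rw [map_add, h3 h, h3' h, add_zero]
      zero_mem' := ⟨(C.G i).zero_mem, fun _ => rfl, fun _ => map_zero _⟩
      smul_mem' := by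
        rintro r x ⟨h1, h2, h3⟩
        refine ⟨(C.G i).smul_mem r h1, fun h => ?_, fun h => ?_⟩
        · rw [h2 h, smul_zero]
        · rw [map_smul, h3 h, smul_zero] }
  dG := by
    rintro i x ⟨h1, h2, h3⟩
    refine ⟨C.dG i x h1, fun h => ?_, fun _ => C.dd x⟩
    rcases (show i ≤ a ∨ i = a + 1 by omega) with h' | h'
    · rw [h2 h', map_zero]
    · exact h3 h'
  dd := C.dd

lemma trc_G (C : GC R) (a i : ℤ) (x : C.V) :
    x ∈ (trc C a).G i ↔ x ∈ C.G i ∧ (i ≤ a → x = 0) ∧ (i = a + 1 → C.d x = 0) := Iff.rfl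

/-- If `C` vanishes in degrees `< a` and `H_a(C) = 0`, the truncation is quasi-isomorphic to `C`. -/
lemma trc_QI (C : GC R) (a : ℤ) (h0 : ∀ i, i < a → ∀ x ∈ C.G i, x = 0)
    (ha : ∀ x ∈ C.G a, C.Bdy a x) : LQI (trc C a) C LinearMap.id := by
  refine ⟨⟨fun i x hx => hx.1, fun x => rfl⟩, fun i x hx hb => ?_, fun i y hy => ?_⟩
  · obtain ⟨⟨h1, h2, h3⟩, h4⟩ := hx
    by_cases hi : i ≤ a
    · have h5 : x = 0 := h2 hi
      rw [h5]
      exact bdy_zero _ _
    · obtain ⟨y, hy, h⟩ := hb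
      refine ⟨y, ⟨hy, fun h' => by omega, fun h' => by omega⟩, h⟩
  · by_cases hi : i ≤ a
    · refine ⟨0, ⟨((trc C a).G i).zero_mem, map_zero _⟩, ?_⟩
      change C.Bdy i (y - 0)
      rw [sub_zero]
      rcases lt_or_eq_of_le hi with h | h
      · rw [h0 i h y hy.1]
        exact bdy_zero _ _
      · subst h
        exact ha y hy.1
    · refine ⟨y, ⟨⟨hy.1, fun h' => by omega, fun _ => hy.2⟩, hy.2⟩, ?_⟩
      change C.Bdy i (y - y)
      rw [sub_self]
      exact bdy_zero _ _

/-- A submodule which is isomorphic to the kernel of a surjection of projective modules. -/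
lemma proj_ker {M N : Type} [AddCommGroup M] [Module R M] [AddCommGroup N] [Module R N]
    [Module.Projective R M] [Module.Projective R N] (f : M →ₗ[R] N) (hf : Function.Surjective f) :
    Module.Projective R (LinearMap.ker f) := by
  obtain ⟨g, hg⟩ := LinearMap.exists_rightInverse_of_surjective f (LinearMap.range_eq_top.2 hf)
  have hg' : ∀ x, f (g x) = x := fun x => LinearMap.congr_fun hg x
  refine Module.Projective.of_split (LinearMap.ker f).subtype
    (LinearMap.codRestrict (LinearMap.ker f) (LinearMap.id - g ∘ₗ f) (fun x => ?_)) ?_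
  · rw [LinearMap.mem_ker]
    change f (x - g (f x)) = 0
    rw [map_sub, hg', sub_self]
  · ext x
    change (x : M) - g (f x) = x
    have : f x = 0 := x.2
    rw [this, map_zero, sub_zero]

/-- Projectivity of the truncation. -/
lemma trc_proj (C : GC R) (a : ℤ) (hp : ∀ i, Module.Projective R (C.G i))
    (ha : ∀ x ∈ C.G a, C.Bdy a x) (i : ℤ) : Module.Projective R ((trc C a).G i) := by
  have := hp
  rcases lt_trichotomy i (a + 1) with h | h | h
  · have : Subsingleton ((trc C a).G i) := ⟨fun x y => by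
      have hx := x.2.2.1 (by omega)
      have hy := y.2.2.1 (by omega)
      exact Subtype.ext (hx.trans hy.symm)⟩
    infer_instance
  · subst h
    let f : C.G (a + 1) →ₗ[R] C.G a := LinearMap.codRestrict (C.G a) (C.d ∘ₗ (C.G (a + 1)).subtype)
      (fun x => by
        have h1 := C.dG (a + 1) x x.2
        rwa [add_sub_cancel_right] at h1)
    have hf : Function.Surjective f := by
      rintro ⟨x, hx⟩
      obtain ⟨y, hy, h⟩ := ha x hx
      exact ⟨⟨y, hy⟩, Subtype.ext h⟩
    have h1 := proj_ker f hf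
    have e : LinearMap.ker f ≃ₗ[R] (trc C a).G (a + 1) := by
      refine LinearEquiv.ofBijective (LinearMap.codRestrict ((trc C a).G (a + 1))
        ((C.G (a + 1)).subtype ∘ₗ (LinearMap.ker f).subtype) (fun x => ?_)) ⟨?_, ?_⟩
      · refine ⟨x.1.2, fun h' => by omega, fun _ => ?_⟩
        have h2 : f x.1 = 0 := x.2
        exact congrArg Subtype.val h2
      · intro x y hxy
        have h2 := congrArg Subtype.val hxy
        exact Subtype.ext (Subtype.ext h2)
      · rintro ⟨x, hx⟩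
        refine ⟨⟨⟨x, hx.1⟩, ?_⟩, rfl⟩
        rw [LinearMap.mem_ker]
        exact Subtype.ext (hx.2.2 rfl)
    exact Module.Projective.of_equiv e
  · have e : C.G i ≃ₗ[R] (trc C a).G i := by
      refine LinearEquiv.ofBijective (LinearMap.codRestrict ((trc C a).G i) (C.G i).subtype
        (fun x => ⟨x.2, fun h'' => by omega, fun h'' => by omega⟩)) ⟨?_, ?_⟩
      · intro x y hxy
        have h2 := congrArg Subtype.val hxy
        exact Subtype.ext h2
      · rintro ⟨x, hx⟩
        exact ⟨⟨x, hx.1⟩, rfl⟩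
    exact Module.Projective.of_equiv e

lemma cone_proj (X Y : GC R) (f : X.V →ₗ[R] Y.V) (hf : LCh X Y f)
    (hX : ∀ i, Module.Projective R (X.G i)) (hY : ∀ i, Module.Projective R (Y.G i)) (i : ℤ) :
    Module.Projective R ((cone X Y f hf).G i) := by
  have := hX
  have := hY
  have e : (X.G (i - 1) × Y.G i) ≃ₗ[R] (cone X Y f hf).G i := by
    refine LinearEquiv.ofBijective (LinearMap.codRestrict ((cone X Y f hf).G i)
      (LinearMap.prodMap (X.G (i - 1)).subtype (Y.G i).subtype) (fun x => ⟨x.1.2, x.2.2⟩)) ⟨?_, ?_⟩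
    · intro x y hxy
      have h2 := congrArg Subtype.val hxy
      exact Prod.ext (Subtype.ext (congrArg Prod.fst h2)) (Subtype.ext (congrArg Prod.snd h2))
    · rintro ⟨⟨x, y⟩, hx⟩
      exact ⟨(⟨x, hx.1⟩, ⟨y, hx.2⟩), rfl⟩
  exact Module.Projective.of_equiv e

end

end HBy
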