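import Pool.Agent.Lib.MP_181146_gt.HB.Null
import Pool.Agent.Lib.MP_181146_gt.HE.KEC
import Pool.Agent.Lib.MP_181146_gt.HE.KEC0
import Pool.Agent.Lib.MP_181146_gt.HE.KCone
import Pool.Agent.Lib.MP_181146_gt.HE.KConeEx
import Pool.Agent.Lib.MP_181146_gt.HE.KCtr
import Pool.Agent.Lib.MP_181146_gt.HE.KEx

/-!
# Project HB, modules Lift, LiftZ, ECu, ECq (helper80)
-/

set_option autoImplicit false

namespace HBy

open HEp HRx

/-- Quasi-isomorphic bounded complexes have the same Euler class. -/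
theorem hKEC : S_KEC := sKEC sKCone sKConeEx (sKEC0 sKCtr sKEx)

theorem sLift : S_Lift := by
  intro R _ T' T w hw U u
  have hA : (cone T' T w hw.1).Acy := (sCone R T' T w hw.1).2 hw
  let f : FMap U (cone T' T w hw.1) :=
    { f := fun i => LinearMap.inr R T'.V T.V ∘ₗ u.f i
      fG := fun i x => ⟨(T'.G (i - 1)).zero_mem, u.fG i x⟩
      fd := fun i x => by
        change ((0 : T'.V), u.f (i - 1) (U.d i (i - 1) x)) = (cone T' T w hw.1).d (0, u.f i x)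
        rw [cone_d, u.fd, map_zero, map_zero, neg_zero, add_zero] }
  obtain ⟨h, hG, hh⟩ := sNull R U _ f hA
  have key : ∀ i x, ((0 : T'.V), u.f i x) =
      (-(T'.d (h i x).1) + (h (i - 1) (U.d i (i - 1) x)).1,
        T.d (h i x).2 + w (h i x).1 + (h (i - 1) (U.d i (i - 1) x)).2) := fun i x => hh i x
  refine ⟨⟨fun i => LinearMap.fst R T'.V T.V ∘ₗ h i, fun i x => ?_, fun i x => ?_⟩,
    fun i => -(LinearMap.snd R T'.V T.V ∘ₗ h i), ⟨fun i x => ?_, fun i x => ?_⟩⟩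
  · have h1 : (h i x).1 ∈ T'.G (i + 1 - 1) := (hG i x).1
    rw [add_sub_cancel_right] at h1
    exact h1
  · have h1 : (0 : T'.V) = _ := congrArg Prod.fst (key i x)
    change (h (i - 1) (U.d i (i - 1) x)).1 = T'.d (h i x).1
    exact (neg_add_eq_zero.1 h1.symm).symm
  · exact (T.G (i + 1)).neg_mem (hG i x).2
  · have h1 : u.f i x = _ := congrArg Prod.snd (key i x)
    change w (h i x).1 - u.f i x = T.d (-(h i x).2) + -(h (i - 1) (U.d i (i - 1) x)).2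
    rw [h1, map_neg]
    dsimp only
    abel

section

variable {R : Type} [CommRing R]

/-! ## Bounded complexes as big complexes -/

lemma ofZ_d (U : ZCx R) (x : (ofZ U).V) (j : ℤ) : (ofZ U).d x j = U.d (j + 1) j (x (j + 1)) := rfl

lemma ofZ_G (U : ZCx R) (i : ℤ) (x : (ofZ U).V) : x ∈ (ofZ U).G i ↔ ∀ j, j ≠ i → x j = 0 := Iff.rfl

lemma ofZ_zero (U : ZCx R) (x : (ofZ U).V) (i : ℤ) (hi : (U.N : ℤ) < |i|) : x i = 0 :=
  have := U.bdd i hi
  Subsingleton.elim _ _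

/-- The chain map from `ofZ U` given by a family of maps. -/
noncomputable def ofZw {U : ZCx R} {T : GC R} (v : FMap U T) : (ofZ U).V →ₗ[R] T.V :=
  ∑ i ∈ Finset.Icc (-(U.N : ℤ)) U.N, v.f i ∘ₗ LinearMap.proj i

lemma ofZw_apply {U : ZCx R} {T : GC R} (v : FMap U T) (x : (ofZ U).V) :
    ofZw v x = ∑ i ∈ Finset.Icc (-(U.N : ℤ)) U.N, v.f i (x i) := by
  unfold ofZw
  rw [LinearMap.sum_apply]
  rfl

lemma mem_Icc_abs {N : ℕ} {i : ℤ} : i ∈ Finset.Icc (-(N : ℤ)) N ↔ |i| ≤ N := by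
  rw [Finset.mem_Icc, abs_le]

lemma ofZw_finsum {U : ZCx R} {T : GC R} (v : FMap U T) (x : (ofZ U).V) :
    ofZw v x = ∑ᶠ i, v.f i (x i) := by
  rw [ofZw_apply]
  symm
  apply finsum_eq_sum_of_support_subset
  intro i hi
  rw [Finset.mem_coe, mem_Icc_abs]
  by_contra h
  rw [Function.mem_support, ofZ_zero U x i (not_le.1 h), map_zero] at hi
  exact hi rfl

lemma ofZw_G {U : ZCx R} {T : GC R} (v : FMap U T) (i : ℤ) (x : (ofZ U).V)
    (hx : x ∈ (ofZ U).G i) : ofZw v x = v.f i (x i) := by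
  rw [ofZw_finsum]
  apply finsum_eq_single
  intro j hj
  rw [hx j hj, map_zero]

lemma ofZw_ch {U : ZCx R} {T : GC R} (v : FMap U T) : LCh (ofZ U) T (ofZw v) := by
  refine ⟨fun i x hx => ?_, fun x => ?_⟩
  · change ofZw v x ∈ T.G i
    rw [ofZw_G v i x hx]
    exact v.fG i _
  · change ofZw v ((ofZ U).d x) = T.d (ofZw v x)
    have h1 : T.d (ofZw v x) = ∑ᶠ i, v.f (i - 1) (U.d i (i - 1) (x i)) := by
      rw [ofZw_apply, map_sum]
      symm
      rw [finsum_eq_sum_of_support_subset (s := Finset.Icc (-(U.N : ℤ)) U.N)]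
      · exact Finset.sum_congr rfl fun i _ => v.fd i _
      · intro i hi
        rw [Finset.mem_coe, mem_Icc_abs]
        by_contra h
        rw [Function.mem_support, ofZ_zero U x i (not_le.1 h), map_zero, map_zero] at hi
        exact hi rfl
    rw [h1, ofZw_finsum]
    symm
    rw [← finsum_comp_equiv (Equiv.addRight (1 : ℤ))]
    refine finsum_congr fun i => ?_
    rw [ofZ_d]
    have : ∀ j : ℤ, j = i → v.f j (U.d (i + 1) j (x (i + 1))) = v.f i (U.d (i + 1) i (x (i + 1))) := by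
      rintro _ rfl
      rfl
    exact this _ (add_sub_cancel_right i 1)

/-- The element of `ofZ U` concentrated in degree `i`. -/
noncomputable def ofZs (U : ZCx R) (i : ℤ) : U.P i →ₗ[R] (ofZ U).V := LinearMap.single R U.P i

lemma ofZs_self (U : ZCx R) (i : ℤ) (x : U.P i) : ofZs U i x i = x := Pi.single_eq_same i x

lemma ofZs_ne (U : ZCx R) (i j : ℤ) (x : U.P i) (h : j ≠ i) : ofZs U i x j = 0 :=
  Pi.single_eq_of_ne h x

lemma ofZs_G (U : ZCx R) (i : ℤ) (x : U.P i) : ofZs U i x ∈ (ofZ U).G i :=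
  fun j hj => ofZs_ne U i j x hj

lemma ofZs_d (U : ZCx R) (i : ℤ) (x : U.P i) :
    (ofZ U).d (ofZs U i x) = ofZs U (i - 1) (U.d i (i - 1) x) := by
  funext j
  rw [ofZ_d]
  by_cases hj : j + 1 = i
  · subst hj
    rw [ofZs_self]
    have : ∀ l : ℤ, l = j → U.d (j + 1) j x = ofZs U l (U.d (j + 1) l x) j := by
      rintro _ rfl
      rw [ofZs_self]
    exact this _ (by omega)
  · rw [ofZs_ne U i (j + 1) x hj, map_zero, ofZs_ne U (i - 1) j _ (by omega)]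

lemma ofZ_eq_single (U : ZCx R) (i : ℤ) (x : (ofZ U).V) (hx : x ∈ (ofZ U).G i) :
    x = ofZs U i (x i) := by
  funext j
  by_cases hj : j = i
  · subst hj
    rw [ofZs_self]
  · rw [hx j hj, ofZs_ne U i j _ hj]

lemma ofZ_cyc (U : ZCx R) (i : ℤ) (x : U.P i) : (ofZ U).Cyc i (ofZs U i x) ↔ U.Cyc i x := by
  constructor
  · rintro ⟨_, h⟩ j
    by_cases hj : j + 1 = i
    · subst hj
      have h1 := congrFun h j
      rw [ofZ_d, ofZs_self] at h1
      exact h1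
    · rw [U.shape i j hj]
      rfl
  · intro h
    refine ⟨ofZs_G U i x, ?_⟩
    rw [ofZs_d, h (i - 1), map_zero]

lemma ofZ_bdy (U : ZCx R) (i : ℤ) (x : U.P i) : (ofZ U).Bdy i (ofZs U i x) ↔ U.Bdy i x := by
  constructor
  · rintro ⟨y, _, h⟩
    have h1 := congrFun h i
    rw [ofZ_d, ofZs_self] at h1
    exact ⟨i + 1, _, h1⟩
  · rintro ⟨k, y, h⟩
    by_cases hk : i + 1 = k
    · subst hk
      refine ⟨ofZs U (i + 1) y, ofZs_G U _ y, ?_⟩
      rw [ofZs_d]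
      have : ∀ l : ℤ, l = i → ofZs U l (U.d (i + 1) l y) = ofZs U i x := by
        rintro _ rfl
        rw [h]
      exact this _ (by omega)
    · rw [U.shape k i hk] at h
      have h0 : x = 0 := h.symm
      rw [h0, map_zero]
      exact ⟨0, ((ofZ U).G (i + 1)).zero_mem, map_zero _⟩

/-- The identity of `U`, as a map `U → ofZ U`. -/
noncomputable def ofZi (U : ZCx R) : FMap U (ofZ U) where
  f := ofZs U
  fG := ofZs_G U
  fd i x := (ofZs_d U i x).symm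

lemma ofZw_QI {U : ZCx R} {T : GC R} (v : FMap U T) (hv : v.QI) : LQI (ofZ U) T (ofZw v) := by
  refine ⟨ofZw_ch v, fun i x hx hb => ?_, fun i y hy => ?_⟩
  · have e := ofZ_eq_single U i x hx.1
    change T.Bdy i (ofZw v x) at hb
    rw [ofZw_G v i x hx.1] at hb
    rw [e] at hx ⊢
    rw [ofZ_bdy]
    rw [ofZ_cyc] at hx
    exact hv.1 i _ hx hb
  · obtain ⟨x, hx, hb⟩ := hv.2 i y hy
    refine ⟨ofZs U i x, (ofZ_cyc U i x).2 hx, ?_⟩
    change T.Bdy i (y - ofZw v (ofZs U i x))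
    rw [ofZw_G v i _ (ofZs_G U i x), ofZs_self]
    exact hb

lemma ofZi_QI (U : ZCx R) : (ofZi U).QI := by
  refine ⟨fun i x _ hb => (ofZ_bdy U i x).1 hb, fun i y hy => ⟨y i, ?_, ?_⟩⟩
  · have e := ofZ_eq_single U i y hy.1
    rw [e] at hy
    exact (ofZ_cyc U i _).1 hy
  · have e := ofZ_eq_single U i y hy.1
    change (ofZ U).Bdy i (y - ofZs U i (y i))
    rw [← e, sub_self]
    exact ⟨0, ((ofZ U).G (i + 1)).zero_mem, map_zero _⟩

lemma ofZ_HasEC (U : ZCx R) : (ofZ U).HasEC U.EC := ⟨U, ofZi U, ofZi_QI U, rfl⟩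

/-- A map `U → ofZ U'` as a map of bounded complexes. -/
noncomputable def toZ {U U' : ZCx R} (u : FMap U (ofZ U')) : ZHom U U' where
  f i := LinearMap.proj i ∘ₗ u.f i
  comm i j x := by
    by_cases hj : j + 1 = i
    · subst hj
      have h1 := congrFun (u.fd (j + 1) x) j
      rw [ofZ_d] at h1
      change u.f j (U.d (j + 1) j x) j = U'.d (j + 1) j (u.f (j + 1) x (j + 1))
      rw [← h1]
      have : ∀ l : ℤ, l = j → u.f j (U.d (j + 1) j x) j = u.f l (U.d (j + 1) l x) j := by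
        rintro _ rfl
        rfl
      exact this _ (by omega)
    · rw [U.shape i j hj, U'.shape i j hj, LinearMap.zero_apply, LinearMap.zero_apply, map_zero]

end

theorem sLiftZ : S_LiftZ := by
  intro R _ T U' v hv U u
  obtain ⟨u', h, hh⟩ := sLift R (ofZ U') T (ofZw v) (ofZw_QI v hv) U u
  refine ⟨toZ u', h, hh.1, fun i x => ?_⟩
  rw [← hh.2 i x]
  change v.f i (u'.f i x i) - _ = ofZw v (u'.f i x) - _
  rw [ofZw_G v i _ (u'.fG i x)]

section

variable {R : Type} [CommRing R]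

lemma bdy_zero (T : GC R) (i : ℤ) : T.Bdy i 0 := ⟨0, (T.G (i + 1)).zero_mem, map_zero _⟩

lemma bdy_add {T : GC R} {i : ℤ} {x y : T.V} (hx : T.Bdy i x) (hy : T.Bdy i y) :
    T.Bdy i (x + y) := by
  obtain ⟨a, ha, rfl⟩ := hx
  obtain ⟨b, hb, rfl⟩ := hy
  exact ⟨a + b, (T.G (i + 1)).add_mem ha hb, map_add _ _ _⟩

lemma bdy_neg {T : GC R} {i : ℤ} {x : T.V} (hx : T.Bdy i x) : T.Bdy i (-x) := by
  obtain ⟨a, ha, rfl⟩ := hx
  exact ⟨-a, (T.G (i + 1)).neg_mem ha, map_neg _ _⟩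

lemma bdy_sub {T : GC R} {i : ℤ} {x y : T.V} (hx : T.Bdy i x) (hy : T.Bdy i y) :
    T.Bdy i (x - y) := by
  rw [sub_eq_add_neg]
  exact bdy_add hx (bdy_neg hy)

lemma bdy_smul {T : GC R} {i : ℤ} {x : T.V} (a : R) (hx : T.Bdy i x) : T.Bdy i (a • x) := by
  obtain ⟨b, hb, rfl⟩ := hx
  exact ⟨a • b, (T.G (i + 1)).smul_mem a hb, map_smul _ _ _⟩

lemma cyc_add {T : GC R} {i : ℤ} {x y : T.V} (hx : T.Cyc i x) (hy : T.Cyc i y) :
    T.Cyc i (x + y) :=
  ⟨(T.G i).add_mem hx.1 hy.1, by rw [map_add, hx.2, hy.2, add_zero]⟩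

lemma cyc_neg {T : GC R} {i : ℤ} {x : T.V} (hx : T.Cyc i x) : T.Cyc i (-x) :=
  ⟨(T.G i).neg_mem hx.1, by rw [map_neg, hx.2, neg_zero]⟩

lemma cyc_sub {T : GC R} {i : ℤ} {x y : T.V} (hx : T.Cyc i x) (hy : T.Cyc i y) :
    T.Cyc i (x - y) := by
  rw [sub_eq_add_neg]
  exact cyc_add hx (cyc_neg hy)

lemma cyc_smul {T : GC R} {i : ℤ} {x : T.V} (a : R) (hx : T.Cyc i x) : T.Cyc i (a • x) :=
  ⟨(T.G i).smul_mem a hx.1, by rw [map_smul, hx.2, smul_zero]⟩

lemma cyc_bdy {T : GC R} {i : ℤ} {x : T.V} (hx : T.Bdy i x) : T.Cyc i x := by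
  obtain ⟨y, hy, rfl⟩ := hx
  refine ⟨?_, T.dd y⟩
  have h := T.dG (i + 1) y hy
  rwa [add_sub_cancel_right] at h

/-- Chain maps send cycles to cycles. -/
lemma ch_cyc {R' : Type} [CommRing R'] {T : GC R} {T' : GC R'} {f : T.V →+ T'.V}
    (hf : IsCh T T' f) {i : ℤ} {x : T.V} (hx : T.Cyc i x) : T'.Cyc i (f x) :=
  ⟨hf.1 i x hx.1, by rw [← hf.2, hx.2, map_zero]⟩

/-- Chain maps send boundaries to boundaries. -/
lemma ch_bdy {R' : Type} [CommRing R'] {T : GC R} {T' : GC R'} {f : T.V →+ T'.V}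
    (hf : IsCh T T' f) {i : ℤ} {x : T.V} (hx : T.Bdy i x) : T'.Bdy i (f x) := by
  obtain ⟨y, hy, rfl⟩ := hx
  exact ⟨f y, hf.1 _ y hy, (hf.2 y).symm⟩

lemma z_cyc {U : ZCx R} {i : ℤ} {x : U.P i} : U.Cyc i x ↔ U.d i (i - 1) x = 0 := by
  constructor
  · intro h
    exact h _
  · intro h j
    by_cases hj : j + 1 = i
    · obtain rfl : j = i - 1 := by omega
      exact h
    · rw [U.shape i j hj]
      rfl

lemma fm_cyc {U : ZCx R} {T : GC R} (u : FMap U T) {i : ℤ} {x : U.P i} (hx : U.Cyc i x) :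
    T.Cyc i (u.f i x) :=
  ⟨u.fG i x, by rw [← u.fd, hx, map_zero]⟩

lemma fm_bdy {U : ZCx R} {T : GC R} (u : FMap U T) {i : ℤ} {x : U.P i} (hx : U.Bdy i x) :
    T.Bdy i (u.f i x) := by
  obtain ⟨k, y, h⟩ := hx
  by_cases hk : i + 1 = k
  · subst hk
    refine ⟨u.f (i + 1) y, u.fG _ y, ?_⟩
    rw [← u.fd]
    have : ∀ l : ℤ, l = i → u.f l (U.d (i + 1) l y) = u.f i x := by
      rintro _ rfl
      rw [h]
    exact this _ (by omega)
  · rw [U.shape k i hk] at h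
    have h0 : x = 0 := h.symm
    rw [h0, map_zero]
    exact bdy_zero T i

/-- Homotopic maps agree on homology. -/
lemma htp_bdy {U : ZCx R} {T : GC R} {f g : FMap U T} {h : ∀ i : ℤ, U.P i →ₗ[R] T.V}
    (hh : HtpF f g h) {i : ℤ} {x : U.P i} (hx : U.Cyc i x) : T.Bdy i (f.f i x - g.f i x) := by
  rw [hh.2 i x, hx (i - 1), map_zero, add_zero]
  exact ⟨h i x, hh.1 i x, rfl⟩

/-- Two out of three, for maps which agree on homology. -/
lemma qi_of_pre {U U' : ZCx R} {T : GC R} {v : FMap U' T} {g : ZHom U U'} {u : FMap U T}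
    (hv : v.QI) (hu : u.QI) (e : ∀ i x, U.Cyc i x → T.Bdy i (v.f i (g.f i x) - u.f i x)) :
    g.QI := by
  refine ⟨fun i x hx hb => ?_, fun i y hy => ?_⟩
  · refine hu.1 i x hx ?_
    have h1 := bdy_sub (fm_bdy v hb) (e i x hx)
    rwa [sub_sub_cancel] at h1
  · obtain ⟨x, hx, hb⟩ := hu.2 i (v.f i y) (fm_cyc v hy)
    refine ⟨x, hx, hv.1 i _ ?_ ?_⟩
    · intro j
      rw [map_sub, hy, ← g.comm, hx, map_zero, sub_zero]
    · rw [map_sub]
      have h1 := bdy_sub hb (e i x hx)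
      rwa [sub_sub_sub_cancel_right] at h1

/-- Two out of three. -/
lemma qi_lift {U : ZCx R} {T' T : GC R} {w : T'.V →ₗ[R] T.V} (hw : LQI T' T w) {u' : FMap U T'}
    {u : FMap U T} (hu : u.QI) (e : ∀ i x, U.Cyc i x → T.Bdy i (w (u'.f i x) - u.f i x)) :
    u'.QI := by
  refine ⟨fun i x hx hb => ?_, fun i y hy => ?_⟩
  · refine hu.1 i x hx ?_
    have h1 := bdy_sub (ch_bdy hw.1 hb) (e i x hx)
    have h2 : T.Bdy i (w (u'.f i x) - (w (u'.f i x) - u.f i x)) := h1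
    rwa [sub_sub_cancel] at h2
  · obtain ⟨x, hx, hb⟩ := hu.2 i (w y) (ch_cyc hw.1 hy)
    refine ⟨x, hx, hw.2.1 i _ (cyc_sub hy (fm_cyc u' hx)) ?_⟩
    change T.Bdy i (w (y - u'.f i x))
    rw [map_sub]
    have h1 := bdy_sub hb (e i x hx)
    rwa [sub_sub_sub_cancel_right] at h1

lemma qi_cmp {U : ZCx R} {T T' : GC R} {u : FMap U T} {w : T.V →ₗ[R] T'.V} (hu : u.QI)
    (hw : LQI T T' w) : (cmp u w hw.1).QI := by
  refine ⟨fun i x hx hb => hu.1 i x hx (hw.2.1 i _ (fm_cyc u hx) hb), fun i y hy => ?_⟩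
  obtain ⟨t, ht, hb⟩ := hw.2.2 i y hy
  obtain ⟨x, hx, hb'⟩ := hu.2 i t ht
  refine ⟨x, hx, ?_⟩
  have h1 := bdy_add hb (ch_bdy hw.1 hb')
  change T'.Bdy i (y - w t + w (t - u.f i x)) at h1
  rw [map_sub, sub_add_sub_cancel] at h1
  exact h1

end

theorem sECu : S_ECu := by
  rintro R _ T x y ⟨U, u, hu, rfl⟩ ⟨U', v, hv, rfl⟩
  obtain ⟨g, h, hh⟩ := sLiftZ R T U' v hv U u
  exact hKEC R U U' g (qi_of_pre hv hu fun i x hx => htp_bdy hh hx)

theorem sECq : S_ECq := by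
  intro R _ T T' w hw x
  constructor
  · rintro ⟨U, u, hu, rfl⟩
    exact ⟨U, cmp u w hw.1, qi_cmp hu hw, rfl⟩
  · rintro ⟨U, u, hu, rfl⟩
    obtain ⟨u', h, hh⟩ := sLift R T T' w hw U u
    exact ⟨U, u', qi_lift hw hu fun i x hx => htp_bdy hh hx, rfl⟩

end HBy
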