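import Pool.Agent.Lib.MP_181146_gt.HB.SpecB

/-!
# Project HB, modules Null and Cone (helper80)
-/

set_option autoImplicit false

namespace HBy

open HEp HRx

section

variable {R : Type} [CommRing R]

private def NullRel (U : ZCx R) (C : GC R) (f : FMap U C) (h : ∀ i : ℤ, U.P i →ₗ[R] C.V)
    (i : ℤ) : Prop :=
  (∀ x, h i x ∈ C.G (i + 1)) ∧ ∀ k : ℤ, k + 1 = i → ∀ x : U.P i,
    f.f i x = C.d (h i x) + h k (U.d i k x)

private theorem Null_step (U : ZCx R) (C : GC R) (f : FMap U C) (hC : C.Acy)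
    (h : ∀ i : ℤ, U.P i →ₗ[R] C.V) (c : ℤ) (hc : NullRel U C f h c) :
    ∃ g : U.P (c + 1) →ₗ[R] C.V, (∀ x, g x ∈ C.G (c + 1 + 1)) ∧ ∀ x : U.P (c + 1),
      f.f (c + 1) x = C.d (g x) + h c (U.d (c + 1) c x) := by
  let φ : U.P (c + 1) →ₗ[R] C.V := f.f (c + 1) - (h c) ∘ₗ (U.d (c + 1) c)
  have hφ : ∀ x, φ x = f.f (c + 1) x - h c (U.d (c + 1) c x) := fun x => rfl
  have hcyc : ∀ x, C.Cyc (c + 1) (φ x) := by
    intro x
    refine ⟨?_, ?_⟩
    · rw [hφ]
      exact (C.G (c + 1)).sub_mem (f.fG _ _) (hc.1 _)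
    · rw [hφ, map_sub, ← f.fd]
      have h1 := hc.2 (c - 1) (by omega) (U.d (c + 1) c x)
      rw [U.dd, map_zero, add_zero] at h1
      have e : f.f (c + 1 - 1) (U.d (c + 1) (c + 1 - 1) x) = f.f c (U.d (c + 1) c x) := by
        have : ∀ j : ℤ, j = c → f.f j (U.d (c + 1) j x) = f.f c (U.d (c + 1) c x) := by
          rintro _ rfl
          rfl
        exact this _ (by omega)
      rw [e, h1, sub_self]
  let D : C.G (c + 1 + 1) →ₗ[R] C.V := C.d ∘ₗ (C.G (c + 1 + 1)).subtype
  have hr : ∀ x, φ x ∈ LinearMap.range D := by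
    intro x
    obtain ⟨y, hy, hyx⟩ := hC (c + 1) (φ x) (hcyc x)
    exact ⟨⟨y, hy⟩, hyx⟩
  obtain ⟨g, hg⟩ := Module.projective_lifting_property (LinearMap.rangeRestrict D)
    (LinearMap.codRestrict (LinearMap.range D) φ hr) (LinearMap.surjective_rangeRestrict _)
  refine ⟨(C.G (c + 1 + 1)).subtype ∘ₗ g, fun x => (g x).2, fun x => ?_⟩
  have h2 := congrArg Subtype.val (LinearMap.congr_fun hg x)
  have h3 : C.d (g x : C.V) = φ x := h2
  change f.f (c + 1) x = C.d (g x : C.V) + _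
  rw [h3, hφ, sub_add_cancel]

private theorem Null_ind (U : ZCx R) (C : GC R) (f : FMap U C) (hC : C.Acy) (n : ℕ) :
    ∃ h : ∀ i : ℤ, U.P i →ₗ[R] C.V, ∀ i : ℤ, i ≤ -(U.N : ℤ) - 1 + n → NullRel U C f h i := by
  induction n with
  | zero =>
    refine ⟨fun _ => 0, fun i hi => ⟨fun x => (C.G (i + 1)).zero_mem, fun k _ x => ?_⟩⟩
    have hi2 : (U.N : ℤ) < |i| := by
      rw [abs_of_neg (by push_cast at hi; omega)]
      push_cast at hi
      omega
    have := U.bdd i hi2
    have hx : x = 0 := Subsingleton.elim _ _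
    rw [hx, map_zero, map_zero, map_zero, map_zero, map_zero, add_zero]
  | succ n ih =>
    obtain ⟨h, hh⟩ := ih
    obtain ⟨g, hg1, hg2⟩ := Null_step U C f hC h (-(U.N : ℤ) - 1 + n) (hh _ le_rfl)
    generalize hc : -(U.N : ℤ) - 1 + n = c at *
    refine ⟨Function.update h (c + 1) g, ?_⟩
    intro i hi
    have hi1 : i ≤ c + 1 := by
      push_cast at hi
      omega
    by_cases e1 : i = c + 1
    · subst e1
      refine ⟨fun x => ?_, fun k hk x => ?_⟩
      · rw [Function.update_self]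
        exact hg1 x
      · have hk2 : k = c := by omega
        subst hk2
        rw [Function.update_self, Function.update_of_ne (by omega)]
        exact hg2 x
    · have h2 := hh i (by omega)
      refine ⟨fun x => ?_, fun k hk x => ?_⟩
      · rw [Function.update_of_ne e1]
        exact h2.1 x
      · rw [Function.update_of_ne e1, Function.update_of_ne (by omega)]
        exact h2.2 k hk x

theorem sNull : S_Null := by
  intro R _ U C f hC
  obtain ⟨h, hh⟩ := Null_ind U C f hC (2 * U.N + 2)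
  refine ⟨fun i => if i ≤ U.N then h i else 0, fun i x => ?_, fun i x => ?_⟩
  · dsimp only
    split_ifs with hi
    · exact (hh i (by push_cast; omega)).1 x
    · exact (C.G (i + 1)).zero_mem
  · dsimp only
    by_cases hi : i ≤ U.N
    · rw [if_pos hi, if_pos (by omega)]
      exact (hh i (by push_cast; omega)).2 (i - 1) (by omega) x
    · have := U.bdd i (lt_of_lt_of_le (not_le.mp hi) (le_abs_self i))
      have hx : x = 0 := Subsingleton.elim _ _
      rw [hx, map_zero, map_zero, map_zero, map_zero, map_zero, add_zero]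

theorem sCone : S_Cone := by
  intro R _ X Y f hf
  constructor
  · intro h
    refine ⟨hf, ?_, ?_⟩
    · rintro i x ⟨hx, hdx⟩ ⟨y, hy, hyx⟩
      have hyx' : Y.d y = f x := hyx
      have hc : (cone X Y f hf).Cyc (i + 1) (x, -y) := by
        refine ⟨⟨?_, (Y.G (i + 1)).neg_mem hy⟩, ?_⟩
        · change x ∈ X.G (i + 1 - 1)
          rw [add_sub_cancel_right]
          exact hx
        · rw [cone_d, hdx, map_neg, hyx', neg_add_cancel, neg_zero]
          rfl
      obtain ⟨⟨a, b⟩, ⟨ha, _⟩, hab⟩ := h _ _ hc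
      rw [cone_d] at hab
      have h1 : -(X.d a) = x := congrArg Prod.fst hab
      refine ⟨-a, ?_, ?_⟩
      · have ha' : a ∈ X.G (i + 1 + 1 - 1) := ha
        rw [add_sub_cancel_right] at ha'
        exact (X.G (i + 1)).neg_mem ha'
      · rw [map_neg, h1]
    · rintro i y ⟨hy, hdy⟩
      have hc : (cone X Y f hf).Cyc i (0, y) := by
        refine ⟨⟨(X.G (i - 1)).zero_mem, hy⟩, ?_⟩
        rw [cone_d, hdy, map_zero, map_zero, neg_zero, zero_add]
        rfl
      obtain ⟨⟨a, b⟩, ⟨ha, hb⟩, hab⟩ := h _ _ hc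
      rw [cone_d] at hab
      have h1 : -(X.d a) = 0 := congrArg Prod.fst hab
      have h2 : Y.d b + f a = y := congrArg Prod.snd hab
      have ha' : a ∈ X.G (i + 1 - 1) := ha
      rw [add_sub_cancel_right] at ha'
      refine ⟨a, ⟨ha', neg_eq_zero.1 h1⟩, b, hb, ?_⟩
      change Y.d b = y - f a
      rw [← h2, add_sub_cancel_right]
  · rintro ⟨_, h1, h2⟩ i ⟨x, y⟩ ⟨⟨hx, hy⟩, hd⟩
    rw [cone_d] at hd
    have e1 : X.d x = 0 := neg_eq_zero.1 (congrArg Prod.fst hd)
    have e2 : Y.d y + f x = 0 := congrArg Prod.snd hd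
    have hx' : x ∈ X.G (i - 1) := hx
    have hy' : y ∈ Y.G i := hy
    have hb : Y.Bdy (i - 1) (f x) := by
      refine ⟨-y, ?_, ?_⟩
      · rw [sub_add_cancel]
        exact (Y.G i).neg_mem hy'
      · rw [map_neg, neg_eq_iff_add_eq_zero]
        exact e2
    obtain ⟨x1, hx1, hx1'⟩ := h1 (i - 1) x ⟨hx', e1⟩ hb
    rw [sub_add_cancel] at hx1
    have hc : Y.Cyc i (y + f x1) := by
      refine ⟨(Y.G i).add_mem hy' (hf.1 i x1 hx1), ?_⟩
      have h3 : f (X.d x1) = Y.d (f x1) := hf.2 x1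
      rw [map_add, ← h3, hx1']
      exact e2
    obtain ⟨x2, ⟨hx2, hx2'⟩, y3, hy3, hy3'⟩ := h2 i _ hc
    have hy3'' : Y.d y3 = y + f x1 - f x2 := hy3'
    refine ⟨(-x1 + x2, y3), ⟨?_, hy3⟩, ?_⟩
    · change -x1 + x2 ∈ X.G (i + 1 - 1)
      rw [add_sub_cancel_right]
      exact (X.G i).add_mem ((X.G i).neg_mem hx1) hx2
    · rw [cone_d, map_add, map_neg, hx1', hx2', hy3'', map_add, map_neg]
      refine Prod.ext ?_ ?_
      · change -(-x + 0) = x
        rw [add_zero, neg_neg]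
      · change y + f x1 - f x2 + (-(f x1) + f x2) = y
        abel

end

end HBy
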