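import Pool.Agent.Lib.MP_181146_gt.HB.Seq

/-!
# Project HB, module Rst (helper80): restriction of scalars
-/

set_option autoImplicit false

namespace HBy

open HEp HRx

section

variable {S B : Type} [CommRing S] [CommRing B] (ρ : B →+* S)

/-- The `S`-module `M` as a `B`-module. -/
def RsM (_ρ : B →+* S) (M : Type) : Type := M

instance (M : Type) [AddCommGroup M] : AddCommGroup (RsM ρ M) := inferInstanceAs (AddCommGroup M)

instance (M : Type) [AddCommGroup M] [Module S M] : Module B (RsM ρ M) :=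
  letI : Module S (RsM ρ M) := inferInstanceAs (Module S M)
  Module.compHom (RsM ρ M) ρ

/-- A linear map, restricted. -/
def RsMap {M N : Type} [AddCommGroup M] [Module S M] [AddCommGroup N] [Module S N]
    (f : M →ₗ[S] N) : RsM ρ M →ₗ[B] RsM ρ N where
  toFun x := f x
  map_add' x y := f.map_add x y
  map_smul' a x := f.map_smul (ρ a) x

/-- A linear equivalence, restricted. -/
def RsEquiv {M N : Type} [AddCommGroup M] [Module S M] [AddCommGroup N] [Module S N]
    (e : M ≃ₗ[S] N) : RsM ρ M ≃ₗ[B] RsM ρ N :=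
  { RsMap ρ e.toLinearMap with
    invFun := fun y => e.symm y
    left_inv := fun x => e.symm_apply_apply x
    right_inv := fun y => e.apply_symm_apply y }

/-- The restriction of a product. -/
def RsProd (M N : Type) [AddCommGroup M] [Module S M] [AddCommGroup N] [Module S N] :
    RsM ρ (M × N) ≃ₗ[B] (RsM ρ M × RsM ρ N) where
  toFun x := x
  map_add' _ _ := rfl
  map_smul' _ _ := rfl
  invFun x := x
  left_inv _ := rfl
  right_inv _ := rfl

/-- The restriction of a power. -/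
def RsPi (k : ℕ) (M : Type) [AddCommGroup M] [Module S M] :
    RsM ρ (Fin k → M) ≃ₗ[B] (Fin k → RsM ρ M) where
  toFun x := x
  map_add' _ _ := rfl
  map_smul' _ _ := rfl
  invFun x := x
  left_inv _ := rfl
  right_inv _ := rfl

variable (n : ℕ) (b : S ≃+ (Fin n → B)) (hb : ∀ a x, b (ρ a * x) = a • b x)

/-- The restriction of `S` is free. -/
def RsFree : RsM ρ S ≃ₗ[B] (Fin n → B) :=
  { toFun := fun x => b x
    map_add' := fun x y => b.map_add x y
    map_smul' := fun a x => hb a x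
    invFun := fun y => b.symm y
    left_inv := fun x => b.symm_apply_apply x
    right_inv := fun y => b.apply_symm_apply y }

include hb in
lemma Rs_fp (M : Type) [AddCommGroup M] [Module S M] [Module.Finite S M] [Module.Projective S M] :
    Module.Finite B (RsM ρ M) ∧ Module.Projective B (RsM ρ M) := by
  obtain ⟨k, f, hf⟩ := Module.Finite.exists_fin' S M
  obtain ⟨g, hg⟩ := Module.projective_lifting_property f LinearMap.id hf
  have e : RsM ρ (Fin k → S) ≃ₗ[B] (Fin k → Fin n → B) :=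
    (RsPi ρ k S).trans (LinearEquiv.piCongrRight fun _ => RsFree ρ n b hb)
  have h1 : Module.Finite B (RsM ρ (Fin k → S)) := Module.Finite.equiv e.symm
  have h2 : Module.Projective B (RsM ρ (Fin k → S)) := Module.Projective.of_equiv e.symm
  refine ⟨Module.Finite.of_surjective (RsMap ρ f) hf,
    Module.Projective.of_split (RsMap ρ g) (RsMap ρ f) ?_⟩
  apply LinearMap.ext
  intro x
  exact LinearMap.congr_fun hg x

variable (hfp : ∀ (M : Type) [AddCommGroup M] [Module S M] [Module.Finite S M]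
  [Module.Projective S M], Module.Finite B (RsM ρ M) ∧ Module.Projective B (RsM ρ M))

/-- The class of the restriction. -/
noncomputable def RsF (A : FPr S) : KT B :=
  haveI := (hfp A.M).1
  haveI := (hfp A.M).2
  cl B (RsM ρ A.M)

lemma RsF_congr (A A' : FPr S) (e : A.M ≃ₗ[S] A'.M) : RsF ρ hfp A = RsF ρ hfp A' := by
  have := (hfp A.M).1
  have := (hfp A.M).2
  have := (hfp A'.M).1
  have := (hfp A'.M).2
  exact cl_congr (RsEquiv ρ e)

lemma RsF_prod (A A' : FPr S) : RsF ρ hfp ⟨A.M × A'.M⟩ = RsF ρ hfp A + RsF ρ hfp A' := by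
  have := (hfp A.M).1
  have := (hfp A.M).2
  have := (hfp A'.M).1
  have := (hfp A'.M).2
  have := (hfp (A.M × A'.M)).1
  have := (hfp (A.M × A'.M)).2
  have h1 : cl B (RsM ρ (A.M × A'.M)) = cl B (RsM ρ A.M × RsM ρ A'.M) :=
    cl_congr (RsProd ρ A.M A'.M)
  rw [cl_prod] at h1
  exact h1

lemma RsF_free (m k : ℕ) (e0 : RsM ρ S ≃ₗ[B] (Fin k → B)) :
    RsF ρ hfp ⟨Fin m → S⟩ = 0 := by
  have := (hfp (Fin m → S)).1
  have := (hfp (Fin m → S)).2
  have := (hfp S).1
  have := (hfp S).2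
  have h1 : cl B (RsM ρ (Fin m → S)) = cl B (Fin m → RsM ρ S) := cl_congr (RsPi ρ m S)
  have h2 : cl B (RsM ρ S) = cl B (Fin k → B) := cl_congr e0
  rw [cl_pi_fin, h2, cl_free, smul_zero] at h1
  exact h1

lemma RsF_wd (k : ℕ) (e0 : RsM ρ S ≃ₗ[B] (Fin k → B)) (A A' : FPr S)
    (h : SIso S A.M A'.M) : RsF ρ hfp A = RsF ρ hfp A' := by
  obtain ⟨a, c, ⟨e⟩⟩ := h
  have h1 : RsF ρ hfp ⟨A.M × (Fin a → S)⟩ = RsF ρ hfp ⟨A'.M × (Fin c → S)⟩ :=
    RsF_congr ρ hfp ⟨A.M × (Fin a → S)⟩ ⟨A'.M × (Fin c → S)⟩ e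
  have h2 := RsF_prod ρ hfp A ⟨Fin a → S⟩
  have h3 := RsF_prod ρ hfp A' ⟨Fin c → S⟩
  rw [RsF_free ρ hfp a k e0, add_zero] at h2
  rw [RsF_free ρ hfp c k e0, add_zero] at h3
  rw [← h2, ← h3]
  exact h1

/-- The restriction homomorphism. -/
noncomputable def RsK (k : ℕ) (e0 : RsM ρ S ≃ₗ[B] (Fin k → B)) : KT S →+ KT B where
  toFun := Quotient.lift (RsF ρ hfp) (fun A A' h => RsF_wd ρ hfp k e0 A A' h)
  map_zero' := by
    change RsF ρ hfp ⟨PUnit⟩ = 0
    have h1 := (hfp PUnit).1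
    have h2 := (hfp PUnit).2
    have h3 : Subsingleton (RsM ρ PUnit) := inferInstanceAs (Subsingleton PUnit)
    exact cl_subsingleton (RsM ρ PUnit)
  map_add' := by
    intro x y
    induction x using KT.ind with | _ A => ?_
    induction y using KT.ind with | _ A' => ?_
    exact RsF_prod ρ hfp A A'

lemma RsK_cl (k : ℕ) (e0 : RsM ρ S ≃ₗ[B] (Fin k → B)) (M : Type) [AddCommGroup M] [Module S M]
    [Module.Finite S M] [Module.Projective S M] [Module.Finite B (RsM ρ M)]
    [Module.Projective B (RsM ρ M)] : RsK ρ hfp k e0 (cl S M) = cl B (RsM ρ M) := rfl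

/-- The restriction of a bounded complex. -/
def rsZ (U : ZCx S) : ZCx B where
  P i := RsM ρ (U.P i)
  fi i := (hfp (U.P i)).1
  pr i := (hfp (U.P i)).2
  d i j := RsMap ρ (U.d i j)
  shape i j h := by
    rw [U.shape i j h]
    rfl
  dd i j k x := U.dd i j k x
  N := U.N
  bdd i hi := U.bdd i hi

lemma rsZ_EC (k : ℕ) (e0 : RsM ρ S ≃ₗ[B] (Fin k → B)) (U : ZCx S) :
    (rsZ ρ hfp U).EC = RsK ρ hfp k e0 U.EC := by
  unfold ZCx.EC
  rw [map_sum]
  refine Finset.sum_congr rfl fun i _ => ?_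
  rw [map_zsmul]
  rfl

/-- The restriction of a chain map. -/
def rsF {U : ZCx S} {T : GC S} (u : FMap U T) : FMap (rsZ ρ hfp U) (rst ρ T) where
  f i :=
    { toFun := fun x => u.f i x
      map_add' := fun x y => (u.f i).map_add x y
      map_smul' := fun a x => (u.f i).map_smul (ρ a) x }
  fG i x := u.fG i x
  fd i x := u.fd i x

end

lemma rst_cyc {S B : Type} [CommRing S] [CommRing B] (ρ : B →+* S) (T : GC S) (i : ℤ) (x : T.V) :
    (rst ρ T).Cyc i x ↔ T.Cyc i x := Iff.rfl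

lemma rst_bdy {S B : Type} [CommRing S] [CommRing B] (ρ : B →+* S) (T : GC S) (i : ℤ) (x : T.V) :
    (rst ρ T).Bdy i x ↔ T.Bdy i x := Iff.rfl

/-- A semilinear quasi-isomorphism as a linear one to the restricted complex. -/
lemma rst_QI {S B : Type} [CommRing S] [CommRing B] (ρ : B →+* S) (T : GC S) (T' : GC B)
    (q : T'.V →+ T.V) (hq : ∀ (a : B) x, q (a • x) = ρ a • q x) (hQ : IsQI T' T q) :
    ∃ w : T'.V →ₗ[B] (rst ρ T).V, LQI T' (rst ρ T) w ∧ ∀ x, w x = q x :=
  ⟨{ toFun := fun x => q x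
     map_add' := fun x y => q.map_add x y
     map_smul' := fun a x => hq a x }, hQ, fun _ => rfl⟩

theorem sRst : S_Rst := by
  intro B S _ _ ρ n b hb
  have hfp := fun (M : Type) [AddCommGroup M] [Module S M] [Module.Finite S M]
    [Module.Projective S M] => Rs_fp ρ n b hb M
  refine ⟨RsK ρ hfp n (RsFree ρ n b hb), fun T T' q hq hQ x hx => ?_⟩
  obtain ⟨w, hw, _⟩ := rst_QI ρ T T' q hq hQ
  rw [sECq B T' (rst ρ T) w hw]
  obtain ⟨U, u, hu, rfl⟩ := hx
  exact ⟨rsZ ρ hfp U, rsF ρ hfp u, hu, rsZ_EC ρ hfp n (RsFree ρ n b hb) U⟩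

end HBy
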